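import Pool.Agent.TH229.PG.Diag3

/-!
The estimates needed for the averaged inequality.
-/

set_option autoImplicit false

namespace Pool.Agent.TH229.PG

open Real Filter Topology MeasureTheory Set

theorem ord_mm {T : ℝ} {k : ℤ} {f : ℝ → ℝ → ℝ} (hf : Ord T k f)
    (hp : ∀ x δ, f x (δ + T) = f x δ) :
    ∃ C, 0 ≤ C ∧ ∀ x δ, 0 < δ → δ < T → |f x δ| ≤ C * mm T δ ^ k := by
  obtain ⟨C, hC, h⟩ := hf
  refine ⟨C, hC, fun x δ h0 h1 => ?_⟩
  rcases le_or_gt δ (T / 2) with h2 | h2
  · have e : mm T δ = |δ| := by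
      unfold mm; rw [abs_of_pos h0]; exact min_eq_left (by linarith)
    rw [e]
    exact h x δ (abs_pos.mpr h0.ne') (by rwa [abs_of_pos h0])
  · have e0 : |δ - T| = T - δ := by rw [abs_sub_comm, abs_of_pos (by linarith)]
    have e : mm T δ = |δ - T| := by
      unfold mm; rw [e0]; exact min_eq_right (by linarith)
    have := h x (δ - T) (by rw [e0]; linarith) (by rw [e0]; linarith)
    rw [← hp x (δ - T), sub_add_cancel] at this
    rw [e]; exact this

theorem mm_pos {T δ : ℝ} (h0 : 0 < δ) (h1 : δ < T) : 0 < mm T δ := lt_min h0 (by linarith)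

section
variable {T : ℝ} {G n : ℕ → ℝ → (Fin 3 → ℝ)} (H : Curve T G n)
include H

theorem u1_per1 (x x' : ℝ) : u1 G n (x + T) x' = u1 G n x x' := by
  unfold u1; rw [Dk_per1 H, Dk_per1 H]
theorem u1_per2 (x x' : ℝ) : u1 G n x (x' + T) = u1 G n x x' := by
  unfold u1; rw [Dk_per2 H, Dk_per2 H]
theorem u2_per1 (x x' : ℝ) : u2 G n (x + T) x' = u2 G n x x' := by
  unfold u2; rw [Dk_per1 H, Dk_per1 H]
theorem u2_per2 (x x' : ℝ) : u2 G n x (x' + T) = u2 G n x x' := by
  unfold u2; rw [Dk_per2 H, Dk_per2 H]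
theorem aa_per1 (x x' : ℝ) : aa G n (x + T) x' = aa G n x x' := by
  unfold aa; rw [Dk_per1 H, Dk_per2 H]
theorem aa_per2 (x x' : ℝ) : aa G n x (x' + T) = aa G n x x' := by
  unfold aa; rw [Dk_per1 H, Dk_per2 H]
theorem u11_per1 (x x' : ℝ) : u11 G n (x + T) x' = u11 G n x x' := by
  unfold u11; rw [Dk_per1 H, Dk_per1 H, u1_per1 H]
theorem u11_per2 (x x' : ℝ) : u11 G n x (x' + T) = u11 G n x x' := by
  unfold u11; rw [Dk_per2 H, Dk_per2 H, u1_per2 H]

theorem Dk_cont (i j : ℕ) : Continuous (fun p : ℝ × ℝ => Dk G n i j p.1 p.2) := by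
  have hGk : ∀ i (k : Fin 3), Continuous (fun x => G i x k) :=
    fun i k => (continuous_apply k).comp (H.contG i)
  have hnk : ∀ i (k : Fin 3), Continuous (fun x => n i x k) :=
    fun i k => (continuous_apply k).comp (H.contn i)
  unfold Dk dot
  exact ((((hnk i 0).comp continuous_fst).mul ((hGk j 0).comp continuous_snd)).add
      (((hnk i 1).comp continuous_fst).mul ((hGk j 1).comp continuous_snd))).add
      (((hnk i 2).comp continuous_fst).mul ((hGk j 2).comp continuous_snd))

theorem bounds : ∃ C, HopfBounds T C 2 (fun x x' => - u1 G n x x') (aa G n)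
    (fun x x' => - u11 G n x x') := by
  have hT := H.Tpos
  have pp : ∀ x δ : ℝ, x + (δ + T) = x + δ + T := fun x δ => by ring
  obtain ⟨C1, h1, b1⟩ := ord_mm (o_g H) (fun x δ => by
    simp only [pp, u1_per1 H, u1_per2 H])
  obtain ⟨C2, h2, b2⟩ := ord_mm (o_a H) (fun x δ => by simp only [pp, aa_per2 H])
  obtain ⟨C3, h3, b3⟩ := ord_mm (o_b H) (fun x δ => by simp only [pp, aa_per1 H])
  have oq : Ord T 0 (fun x δ => aa G n (x + δ) x / aa G n x (x + δ)) := by
    have := ((o_b H).mul ((o_k H).mul (o_k H) (m := 4) rfl) (m := 2) rfl).mul (o_is H)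
      (m := 0) rfl
    refine this.congr fun x δ h0 h1 => ?_
    rw [aa_eq H, aas_eq H]
    have e1 := (Dne H (x := x) h0 h1).ne'
    have e2 := (Dsne H (x := x) h0 h1).ne'
    field_simp
  obtain ⟨C4, h4, b4⟩ := ord_mm oq (fun x δ => by simp only [pp, aa_per1 H, aa_per2 H])
  obtain ⟨C5, h5, b5⟩ := ord_mm (o_u11 H) (fun x δ => by simp only [pp, u11_per2 H])
  obtain ⟨C6, h6, b6⟩ := ord_mm (o_u11s H) (fun x δ => by simp only [pp, u11_per1 H])
  obtain ⟨C7, h7, b7⟩ := ord_mm (o_bg2 H) (fun x δ => by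
    simp only [pp, aa_per1 H, aa_per2 H, u11_per1 H])
  obtain ⟨C8, h8, b8⟩ := ord_mm (o_DD H) (fun x δ => by
    simp only [pp, aa_per1 H, aa_per2 H, u11_per1 H, u11_per2 H])
  obtain ⟨C9, h9, b9⟩ := o_u1 H
  set C := C1 + C2 + C3 + C4 + C5 + C6 + C7 + C8 + C9 + 1 with hC
  have e2 : ∀ t : ℝ, t ^ (-2 : ℤ) = 1 / t ^ 2 := fun t => by
    rw [zpow_neg, one_div]; norm_cast
  have e1 : ∀ t : ℝ, t ^ (-1 : ℤ) = 1 / t := fun t => by rw [zpow_neg_one, one_div]
  refine ⟨C, ⟨by norm_num, by positivity, fun x δ h0 h1 => ?_, fun x δ h0 h1 => ?_,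
    fun x δ h0 h1 => ?_, fun x δ h0 h1 => ?_, fun x δ h0 h1 => ?_, fun x δ h0 h1 => ?_,
    fun x δ h0 h1 => ?_, fun x δ h0 h1 => ?_, fun x δ h0 h1 => ?_⟩⟩
  · have hm := mm_pos h0 h1
    have := b1 x δ h0 h1
    have e : |(-u1 G n (x + δ) x) + -u1 G n x (x + δ)| =
        |u1 G n x (x + δ) + u1 G n (x + δ) x| := by rw [← abs_neg]; congr 1; ring
    rw [e]
    refine this.trans ?_
    rw [zpow_ofNat]
    gcongr; linarith
  · have hm := mm_pos h0 h1
    have := b2 x δ h0 h1
    rw [e2] at this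
    refine (le_abs_self _).trans (this.trans ?_)
    rw [mul_one_div]
    gcongr; linarith
  · have hm := mm_pos h0 h1
    have := b3 x δ h0 h1
    rw [e2] at this
    refine (le_abs_self _).trans (this.trans ?_)
    rw [mul_one_div]
    gcongr; linarith
  · have := (le_abs_self _).trans (b4 x δ h0 h1)
    rw [zpow_zero, mul_one] at this
    have hp : 0 < aa G n x (x + δ) := aa_pos H (by simpa using h0.ne') (by
      simpa [abs_of_pos h0] using h1)
    rw [div_le_iff₀ hp] at this
    refine this.trans ?_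
    gcongr; linarith
  · have hm := mm_pos h0 h1
    have := b5 x δ h0 h1
    rw [e2] at this
    rw [abs_neg]
    refine this.trans ?_
    rw [mul_one_div]
    gcongr; linarith
  · have hm := mm_pos h0 h1
    have := b6 x δ h0 h1
    rw [e2] at this
    rw [abs_neg]
    refine this.trans ?_
    rw [mul_one_div]
    gcongr; linarith
  · have hm := mm_pos h0 h1
    have hC9 : C9 ≤ C := by linarith
    rw [abs_neg]
    have key : ∀ d, 0 < |d| → |d| ≤ T / 2 → 2 / |d| - C ≤ |u1 G n x (x + d)| := by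
      intro d hd hd'
      have := b9 x d hd hd'
      rw [zpow_zero, mul_one] at this
      have h3 : |2 / d| ≤ |u1 G n x (x + d) + 2 / d| + |u1 G n x (x + d)| := by
        have := abs_sub (u1 G n x (x + d) + 2 / d) (u1 G n x (x + d))
        simpa using this
      rw [abs_div, abs_two] at h3
      linarith
    rcases le_or_gt δ (T / 2) with h2' | h2'
    · have e : mm T δ = |δ| := by
        unfold mm; rw [abs_of_pos h0]; exact min_eq_left (by linarith)
      rw [e]
      exact key δ (abs_pos.mpr h0.ne') (by rwa [abs_of_pos h0])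
    · have e0 : |δ - T| = T - δ := by rw [abs_sub_comm, abs_of_pos (by linarith)]
      have e : mm T δ = |δ - T| := by
        unfold mm; rw [e0]; exact min_eq_right (by linarith)
      have := key (δ - T) (by rw [e0]; linarith) (by rw [e0]; linarith)
      have e3 : x + δ = x + (δ - T) + T := by ring
      rw [e, e3, u1_per2 H]; exact this
  · have hm := mm_pos h0 h1
    have := b7 x δ h0 h1
    rw [e1] at this
    rw [sub_neg_eq_add]
    refine this.trans ?_
    rw [mul_one_div]
    gcongr; linarith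
  · have := b8 x δ h0 h1
    rw [zpow_zero, mul_one] at this
    have e : 2 * aa G n x (x + δ) * aa G n (x + δ) x - aa G n x (x + δ) * -u11 G n x (x + δ) -
        aa G n (x + δ) x * -u11 G n (x + δ) x = 2 * aa G n x (x + δ) * aa G n (x + δ) x +
        aa G n x (x + δ) * u11 G n x (x + δ) + aa G n (x + δ) x * u11 G n (x + δ) x := by ring
    rw [e]
    refine this.trans ?_
    linarith

theorem data (hcov : ∀ x x', x < x' → x' < x + T → ∃ τ, Leaf T τ ∧ τ x = x' ∧
    ∀ u, u1 G n (τ u) (τ (τ u)) = - u1 G n (τ u) u) :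
    HopfData T (fun x x' => - u1 G n x x') (aa G n) (fun x x' => - u11 G n x x') := by
  have hT := H.Tpos
  have hc1 : Measurable (fun p : ℝ × ℝ => u1 G n p.1 p.2) :=
    (Dk_cont H 1 0).measurable.div (Dk_cont H 0 0).measurable
  obtain ⟨C9, h9, b9⟩ := o_u1 H
  refine ⟨hT, fun x x' => by rw [u1_per1 H], fun x x' => by rw [u1_per2 H], aa_per1 H, aa_per2 H,
    fun x x' => by rw [u11_per1 H], fun x x' => by rw [u11_per2 H], fun x x' h0 h1 => ?_,
    fun x x' h0 h1 => ?_, fun x x' h0 h1 => ?_, fun x x' h0 h1 => aa_pos H h0 h1, hc1.neg,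
    ?_, ?_, fun x => ?_, fun x => ?_, fun x x' h0 h1 => ?_⟩
  · exact (u1_d2 H (D_pos H h0 h1).ne').neg
  · exact (u1_d1 H (D_pos H h0 h1).ne').neg
  · have hne := (D_pos H h0 h1).ne'
    have c0 := (Dk_cont H 0 0).continuousAt (x := (x, x'))
    have c1 := (Dk_cont H 1 0).continuousAt (x := (x, x'))
    have c2 := (Dk_cont H 2 0).continuousAt (x := (x, x'))
    unfold u11 u1
    exact ((c2.div c0 hne).sub ((c1.div c0 hne).pow 2)).neg
  · have hsw : Measurable (fun p : ℝ × ℝ => Dk G n 0 0 p.2 p.1) :=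
      ((Dk_cont H 0 0).comp continuous_swap).measurable
    unfold aa
    exact hsw.div ((Dk_cont H 0 0).measurable.pow_const 2)
  · unfold u11
    exact (((Dk_cont H 2 0).measurable.div (Dk_cont H 0 0).measurable).sub (hc1.pow_const 2)).neg
  · have h1 : Tendsto (fun z => 2 / (z - x) - C9) (𝓝[>] x) atTop := by
      have h2 : Tendsto (fun z : ℝ => z - x) (𝓝[>] x) (𝓝[>] 0) := by
        refine tendsto_nhdsWithin_iff.mpr ⟨?_, ?_⟩
        · have : Tendsto (fun z : ℝ => z - x) (𝓝 x) (𝓝 (x - x)) :=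
            (continuous_id.sub continuous_const).tendsto x
          rw [sub_self] at this
          exact this.mono_left nhdsWithin_le_nhds
        · filter_upwards [self_mem_nhdsWithin] with z hz
          exact mem_Ioi.mpr (sub_pos.mpr (mem_Ioi.mp hz))
      have h3 := (tendsto_inv_nhdsGT_zero.comp h2).const_mul_atTop (by norm_num : (0 : ℝ) < 2)
      refine tendsto_atTop_add_const_right _ (-C9) h3
    refine tendsto_atTop_mono' _ ?_ h1
    have hmem : Ioo x (x + T / 2) ∈ 𝓝[>] x := Ioo_mem_nhdsGT (by linarith)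
    filter_upwards [hmem] with z hz
    have hd : 0 < z - x := sub_pos.mpr hz.1
    have : |u1 G n x (x + (z - x)) + 2 / (z - x)| ≤ C9 * |z - x| ^ (0 : ℤ) :=
      b9 x (z - x) (abs_pos.mpr hd.ne') (by rw [abs_of_pos hd]; linarith [hz.2])
    rw [zpow_zero, mul_one, add_sub_cancel] at this
    have := (abs_le.mp this).2
    linarith
  · have h1 : Tendsto (fun z => 2 / (z - (x + T)) + C9) (𝓝[<] (x + T)) atBot := by
      have h2 : Tendsto (fun z : ℝ => z - (x + T)) (𝓝[<] (x + T)) (𝓝[<] 0) := by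
        refine tendsto_nhdsWithin_iff.mpr ⟨?_, ?_⟩
        · have : Tendsto (fun z : ℝ => z - (x + T)) (𝓝 (x + T)) (𝓝 ((x + T) - (x + T))) :=
            (continuous_id.sub continuous_const).tendsto _
          rw [sub_self] at this
          exact this.mono_left nhdsWithin_le_nhds
        · filter_upwards [self_mem_nhdsWithin] with z hz
          exact mem_Iio.mpr (sub_neg.mpr (mem_Iio.mp hz))
      have h3 := (tendsto_inv_nhdsLT_zero.comp h2).const_mul_atBot (by norm_num : (0 : ℝ) < 2)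
      refine tendsto_atBot_add_const_right _ C9 h3
    refine tendsto_atBot_mono' _ ?_ h1
    have hmem : Ioo (x + T / 2) (x + T) ∈ 𝓝[<] (x + T) := Ioo_mem_nhdsLT (by linarith)
    filter_upwards [hmem] with z hz
    have hd : z - (x + T) < 0 := sub_neg.mpr hz.2
    have : |u1 G n x (x + (z - (x + T))) + 2 / (z - (x + T))| ≤ C9 * |z - (x + T)| ^ (0 : ℤ) :=
      b9 x (z - (x + T)) (abs_pos.mpr hd.ne) (by rw [abs_of_neg hd]; linarith [hz.1])
    rw [zpow_zero, mul_one] at this
    have e : x + (z - (x + T)) = z - T := by ring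
    rw [e, ← u1_per2 H, sub_add_cancel] at this
    have := (abs_le.mp this).1
    linarith
  · obtain ⟨τ, h2, h3, h4⟩ := hcov x x' h0 h1
    exact ⟨τ, h2, h3, fun u => by rw [h4 u]⟩

end

end Pool.Agent.TH229.PG
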