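import Pool.Agent.TH229.PG.Form
import Pool.Agent.TH229.PG.Diag4

/-!
The pointwise identity: the density equals a divergence plus a nonnegative function.
-/

set_option autoImplicit false

namespace Pool.Agent.TH229.PG

open Real Filter Topology MeasureTheory Set

/-- the functions `G₁`, `G₂`, `G_h` of `W` -/
noncomputable def g1f (w : ℝ) : ℝ :=
  11 / 36 * cosh (3 / 2 * w) - 10 / 36 - 1 / 36 * (1 / cosh (3 / 2 * w))
noncomputable def g2f (w : ℝ) : ℝ :=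
  2 / 9 * sinh (3 / 2 * w) - 1 / 18 * (sinh (3 / 2 * w) * (1 / cosh (3 / 2 * w)))
noncomputable def ghf (w : ℝ) : ℝ := 1 / 6 * w - 7 / 18 * sinh (3 / 2 * w)

theorem lin_d {w : ℝ → ℝ} {w' x : ℝ} (h : HasDerivAt w w' x) :
    HasDerivAt (fun t => 3 / 2 * w t) (3 / 2 * w') x := h.const_mul _

theorem g1f_d {w : ℝ → ℝ} {w' x : ℝ} (h : HasDerivAt w w' x) :
    HasDerivAt (fun t => g1f (w t)) (w' * (3 / 2 * sinh (3 / 2 * w x) *
      (11 / 36 + 1 / 36 * (1 / cosh (3 / 2 * w x)) ^ 2))) x := by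
  have hc := (cosh_pos (3 / 2 * w x)).ne'
  have h1 := (lin_d h).cosh
  have h2 := (hasDerivAt_const x (1 : ℝ)).div h1 hc
  have h3 := ((h1.const_mul (11 / 36)).sub_const (10 / 36)).sub (h2.const_mul (1 / 36))
  refine h3.congr_deriv ?_
  field_simp
  ring

theorem g2f_d {w : ℝ → ℝ} {w' x : ℝ} (h : HasDerivAt w w' x) :
    HasDerivAt (fun t => g2f (w t)) (w' * (3 / 2 * (2 / 9 * cosh (3 / 2 * w x) -
      1 / 18 * (1 / cosh (3 / 2 * w x)) ^ 2))) x := by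
  have hc := (cosh_pos (3 / 2 * w x)).ne'
  have h1 := (lin_d h).cosh
  have h0 := (lin_d h).sinh
  have h2 := (hasDerivAt_const x (1 : ℝ)).div h1 hc
  have h3 := (h0.const_mul (2 / 9)).sub ((h0.mul h2).const_mul (1 / 18))
  refine h3.congr_deriv ?_
  have e := Real.cosh_sq (3 / 2 * w x)
  simp only [Pi.div_apply]
  set c := cosh (3 / 2 * w x)
  set s := sinh (3 / 2 * w x)
  field_simp
  linear_combination (-(27 : ℝ) * w') * e

theorem ghf_d {w : ℝ → ℝ} {w' x : ℝ} (h : HasDerivAt w w' x) :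
    HasDerivAt (fun t => ghf (w t)) (w' * (1 / 6 - 7 / 12 * cosh (3 / 2 * w x))) x := by
  have h3 := (h.const_mul (1 / 6)).sub ((lin_d h).sinh.const_mul (7 / 18))
  refine h3.congr_deriv ?_
  ring

/-- the field -/
noncomputable def Bf (σ e w p q : ℝ) : ℝ :=
  2 * (e * g1f w * p) + 2 * (e * g2f w * q) - σ * (2 * (e * ghf w * p)) -
    σ * (5 / 24) * (p ^ 2 * q) - 1 / 4 * (p * q ^ 2) - σ * (1 / 8) * q ^ 3

/-- its derivative along a coordinate line -/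
noncomputable def dBf (σ e w p q v' w' : ℝ) : ℝ :=
  -(1 / 2) * e * v' * (2 * g1f w * p + 2 * g2f w * q - 2 * σ * ghf w * p) +
  e * w' * (2 * (3 / 2 * sinh (3 / 2 * w) * (11 / 36 + 1 / 36 * (1 / cosh (3 / 2 * w)) ^ 2)) * p +
    2 * (3 / 2 * (2 / 9 * cosh (3 / 2 * w) - 1 / 18 * (1 / cosh (3 / 2 * w)) ^ 2)) * q -
    2 * σ * (1 / 6 - 7 / 12 * cosh (3 / 2 * w)) * p) +
  2 * e * cosh (3 / 2 * w) * (2 * e * g1f w - 2 * σ * e * ghf w - σ * (5 / 12) * p * q -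
    1 / 4 * q ^ 2) -
  2 * e * sinh (3 / 2 * w) * (2 * e * g2f w - σ * (5 / 24) * p ^ 2 - 1 / 2 * p * q -
    σ * (3 / 8) * q ^ 2)

theorem Bf_d (σ : ℝ) {e w p q : ℝ → ℝ} {v' w' x : ℝ}
    (he : HasDerivAt e (-(1 / 2) * v' * e x) x) (hw : HasDerivAt w w' x)
    (hp : HasDerivAt p (2 * e x * cosh (3 / 2 * w x)) x)
    (hq : HasDerivAt q (-(2 * e x * sinh (3 / 2 * w x))) x) :
    HasDerivAt (fun t => Bf σ (e t) (w t) (p t) (q t))
      (dBf σ (e x) (w x) (p x) (q x) v' w') x := by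
  have h1 := g1f_d hw
  have h2 := g2f_d hw
  have h3 := ghf_d hw
  have h4 := ((((((he.mul h1).mul hp).const_mul 2).add (((he.mul h2).mul hq).const_mul 2)).sub
    ((((he.mul h3).mul hp).const_mul 2).const_mul σ)).sub
    (((hp.pow 2).mul hq).const_mul (σ * (5 / 24)))).sub ((hp.mul (hq.pow 2)).const_mul (1 / 4))
  have h5 := h4.sub ((hq.pow 3).const_mul (σ * (1 / 8)))
  refine h5.congr_deriv ?_
  unfold dBf
  simp only [Pi.mul_apply, Pi.pow_apply, Nat.cast_ofNat, Nat.add_one_sub_one, pow_one]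
  ring

/-- the nonnegative remainder -/
noncomputable def CC (e w v1 v2 w1 w2 : ℝ) : ℝ :=
  e * (cosh (3 / 2 * w) / 72) * F72 (1 / cosh (3 / 2 * w)) (sinh (3 / 2 * w) / cosh (3 / 2 * w))
    (v1 + v2) (v1 - v2) (w1 + w2) (w1 - w2) +
  8 * e ^ 2 * (cosh (3 / 2 * w) ^ 2 * ((1 - 1 / cosh (3 / 2 * w)) ^ 2 *
    (3 - 2 * (1 / cosh (3 / 2 * w)))) / 36)

theorem cert_identity (e w v1 v2 w1 w2 : ℝ) :
    -(1 / 2 * ((v1 + v2) - (w1 - w2))) *
      (e * (cosh (3 / 2 * w) + sinh (3 / 2 * w)) * (-(1 / 2) * v1 + 3 / 2 * w1) +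
       e * (cosh (3 / 2 * w) - sinh (3 / 2 * w)) * (-(1 / 2) * v2 - 3 / 2 * w2)) +
      dBf 1 e w v2 w2 v1 w1 + dBf (-1) e w v1 w1 v2 w2 = CC e w v1 v2 w1 w2 := by
  have hc := (cosh_pos (3 / 2 * w)).ne'
  have hcs := Real.cosh_sq (3 / 2 * w)
  unfold CC dBf g1f g2f ghf F72
  set c := cosh (3 / 2 * w)
  set s := sinh (3 / 2 * w)
  obtain ⟨r, hr⟩ : ∃ r, r = 1 / c := ⟨_, rfl⟩
  have hcr : c * r = 1 := by rw [hr]; field_simp
  have hsc : s / c = s * r := by rw [hr]; ring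
  rw [hsc, ← hr]
  linear_combination (-(e / 72) * ((10 + r) * ((v1 + v2) ^ 2 - (v1 - v2) ^ 2) -
      6 * r ^ 2 * (w1 + w2) ^ 2 + 6 * r ^ 2 * (w1 - w2) ^ 2 - 12 * s * (v1 + v2) * (v1 - v2) -
      12 * (v1 + v2) * (w1 - w2) + 12 * (v1 - v2) * (w1 + w2) +
      s * (7 + 2 * r + 3 * r ^ 2) * ((v1 + v2) * (w1 + w2) - (v1 - v2) * (w1 - w2)))) * hcr +
    (8 * e ^ 2 / 36) * ((8 - 2 * r) * hcs -
      (-10 * c + 7 * c * r + 8 - 2 * r * (c * r + 1)) * hcr)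

theorem CC_nonneg {e w v1 v2 w1 w2 : ℝ} (he : 0 ≤ e) : 0 ≤ CC e w v1 v2 w1 w2 := by
  have hc := one_le_cosh (3 / 2 * w)
  have hc0 : 0 < cosh (3 / 2 * w) := by linarith
  have hr0 : 0 ≤ 1 / cosh (3 / 2 * w) := by positivity
  have hr1 : 1 / cosh (3 / 2 * w) ≤ 1 := by rw [div_le_one hc0]; exact hc
  have hF := F72_nonneg (t := sinh (3 / 2 * w) / cosh (3 / 2 * w)) hr0 hr1 (by
    have := Real.cosh_sq (3 / 2 * w)
    rw [div_pow, one_div, inv_pow, eq_sub_iff_add_eq]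
    rw [← one_div, ← add_div, div_eq_one_iff_eq (by positivity)]
    exact this.symm) (v1 + v2) (v1 - v2) (w1 + w2) (w1 - w2)
  have h3 : 0 ≤ 3 - 2 * (1 / cosh (3 / 2 * w)) := by linarith
  unfold CC
  positivity

theorem CC_zero {e w v1 v2 w1 w2 : ℝ} (he : 0 < e) (h : CC e w v1 v2 w1 w2 = 0) : w = 0 := by
  have hc := one_le_cosh (3 / 2 * w)
  have hc0 : 0 < cosh (3 / 2 * w) := by linarith
  have hr0 : 0 ≤ 1 / cosh (3 / 2 * w) := by positivity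
  have hr1 : 1 / cosh (3 / 2 * w) ≤ 1 := by rw [div_le_one hc0]; exact hc
  have hF := F72_nonneg (t := sinh (3 / 2 * w) / cosh (3 / 2 * w)) hr0 hr1 (by
    have := Real.cosh_sq (3 / 2 * w)
    rw [div_pow, one_div, inv_pow, eq_sub_iff_add_eq]
    rw [← one_div, ← add_div, div_eq_one_iff_eq (by positivity)]
    exact this.symm) (v1 + v2) (v1 - v2) (w1 + w2) (w1 - w2)
  have h3 : 0 < 3 - 2 * (1 / cosh (3 / 2 * w)) := by linarith
  unfold CC at h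
  have h1 : 0 ≤ e * (cosh (3 / 2 * w) / 72) * F72 (1 / cosh (3 / 2 * w))
    (sinh (3 / 2 * w) / cosh (3 / 2 * w)) (v1 + v2) (v1 - v2) (w1 + w2) (w1 - w2) := by
    positivity
  have h2 : 0 ≤ 8 * e ^ 2 * (cosh (3 / 2 * w) ^ 2 * ((1 - 1 / cosh (3 / 2 * w)) ^ 2 *
    (3 - 2 * (1 / cosh (3 / 2 * w)))) / 36) := by positivity
  have h4 : 8 * e ^ 2 * (cosh (3 / 2 * w) ^ 2 * ((1 - 1 / cosh (3 / 2 * w)) ^ 2 *
    (3 - 2 * (1 / cosh (3 / 2 * w)))) / 36) = 0 := by linarith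
  by_contra hw
  have hc2 : 1 < cosh (3 / 2 * w) := by
    rw [one_lt_cosh]
    exact mul_ne_zero (by norm_num) hw
  have hr2 : 1 / cosh (3 / 2 * w) < 1 := by rw [div_lt_one hc0]; exact hc2
  have h5 : 0 < 1 - 1 / cosh (3 / 2 * w) := by linarith
  have : 0 < 8 * e ^ 2 * (cosh (3 / 2 * w) ^ 2 * ((1 - 1 / cosh (3 / 2 * w)) ^ 2 *
    (3 - 2 * (1 / cosh (3 / 2 * w)))) / 36) := by positivity
  linarith

theorem CC_zero' {e v1 v2 w1 w2 : ℝ} (he : 0 < e) (h : CC e 0 v1 v2 w1 w2 = 0) :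
    v1 + v2 = 0 := by
  unfold CC at h
  simp only [mul_zero, cosh_zero, sinh_zero, div_one, one_pow] at h
  have h2 : e * (1 / 72) * F72 1 0 (v1 + v2) (v1 - v2) (w1 + w2) (w1 - w2) = 0 := by
    nlinarith [h]
  have h3 : F72 1 0 (v1 + v2) (v1 - v2) (w1 + w2) (w1 - w2) = 0 := by
    rcases mul_eq_zero.mp h2 with h4 | h4
    · exfalso
      have : 0 < e * (1 / 72) := by positivity
      linarith
    · exact h4
  exact (F72_zero h3).1

end Pool.Agent.TH229.PG
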