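import Pool.Agent.TH229.PG.Cert

/-!
The fields, their derivatives, and the divergence identity for a normalised curve.
-/

set_option autoImplicit false

namespace Pool.Agent.TH229.PG

open Real Filter Topology MeasureTheory Set

section defs
variable (G n : ℕ → ℝ → (Fin 3 → ℝ))

noncomputable def v1 (x x' : ℝ) : ℝ := u1 G n x x' + u2 G n x' x
noncomputable def v2 (x x' : ℝ) : ℝ := u2 G n x x' + u1 G n x' x
noncomputable def w1 (x x' : ℝ) : ℝ := u2 G n x' x - u1 G n x x'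
noncomputable def w2 (x x' : ℝ) : ℝ := u1 G n x' x - u2 G n x x'
noncomputable def Wf (x x' : ℝ) : ℝ := Real.log (Dk G n 0 0 x' x) - Real.log (Dk G n 0 0 x x')
noncomputable def Ef (x x' : ℝ) : ℝ :=
  Real.exp (-(1 / 2) * (Real.log (Dk G n 0 0 x x') + Real.log (Dk G n 0 0 x' x)))
noncomputable def gg (x x' : ℝ) : ℝ := u1 G n x x' + u1 G n x' x
noncomputable def A1 (x x' : ℝ) : ℝ := aa G n x x' * gg G n x x' -
  Bf 1 (Ef G n x x') (Wf G n x x') (v2 G n x x') (w2 G n x x')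
noncomputable def A2 (x x' : ℝ) : ℝ := aa G n x' x * gg G n x x' -
  Bf (-1) (Ef G n x x') (Wf G n x x') (v1 G n x x') (w1 G n x x')
noncomputable def dA1 (x x' : ℝ) : ℝ :=
  (aa G n x x' * (u2 G n x' x - 2 * u1 G n x x') * gg G n x x' +
    aa G n x x' * (u11 G n x x' + aa G n x' x)) -
  dBf 1 (Ef G n x x') (Wf G n x x') (v2 G n x x') (w2 G n x x') (v1 G n x x') (w1 G n x x')
noncomputable def dA2 (x x' : ℝ) : ℝ :=
  (aa G n x' x * (u2 G n x x' - 2 * u1 G n x' x) * gg G n x x' +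
    aa G n x' x * (aa G n x x' + u11 G n x' x)) -
  dBf (-1) (Ef G n x x') (Wf G n x x') (v1 G n x x') (w1 G n x x') (v2 G n x x') (w2 G n x x')
/-- the density -/
noncomputable def DD (x x' : ℝ) : ℝ := 2 * aa G n x x' * aa G n x' x +
  aa G n x x' * u11 G n x x' + aa G n x' x * u11 G n x' x
/-- the nonnegative density -/
noncomputable def CCf (x x' : ℝ) : ℝ := CC (Ef G n x x') (Wf G n x x') (v1 G n x x')
  (v2 G n x x') (w1 G n x x') (w2 G n x x')

end defs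

section
variable {T : ℝ} {G n : ℕ → ℝ → (Fin 3 → ℝ)} (H : Curve T G n)
include H

theorem sw {x x' : ℝ} (h0 : 0 < |x' - x|) (h1 : |x' - x| < T) : 0 < |x - x'| ∧ |x - x'| < T := by
  have := H.Tpos
  rw [abs_sub_comm]; exact ⟨h0, h1⟩

theorem Ef_cs {x x' : ℝ} (h0 : 0 < |x' - x|) (h1 : |x' - x| < T) :
    Ef G n x x' * (cosh (3 / 2 * Wf G n x x') + sinh (3 / 2 * Wf G n x x')) = aa G n x x' ∧
    Ef G n x x' * (cosh (3 / 2 * Wf G n x x') - sinh (3 / 2 * Wf G n x x')) = aa G n x' x := by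
  have p1 := D_pos H h0 h1
  have p2 := D_pos H (sw H h0 h1).1 (sw H h0 h1).2
  have e1 : Real.exp (Real.log (Dk G n 0 0 x x')) = Dk G n 0 0 x x' := Real.exp_log p1
  have e2 : Real.exp (Real.log (Dk G n 0 0 x' x)) = Dk G n 0 0 x' x := Real.exp_log p2
  constructor
  · rw [Real.cosh_add_sinh]
    unfold Ef Wf aa
    rw [← Real.exp_add]
    have e : -(1 / 2) * (Real.log (Dk G n 0 0 x x') + Real.log (Dk G n 0 0 x' x)) +
        3 / 2 * (Real.log (Dk G n 0 0 x' x) - Real.log (Dk G n 0 0 x x')) =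
        Real.log (Dk G n 0 0 x' x) - 2 * Real.log (Dk G n 0 0 x x') := by ring
    rw [e, Real.exp_sub, e2, two_mul, Real.exp_add, e1]
    ring
  · rw [Real.cosh_sub_sinh]
    unfold Ef Wf aa
    rw [← Real.exp_add]
    have e : -(1 / 2) * (Real.log (Dk G n 0 0 x x') + Real.log (Dk G n 0 0 x' x)) +
        -(3 / 2 * (Real.log (Dk G n 0 0 x' x) - Real.log (Dk G n 0 0 x x'))) =
        Real.log (Dk G n 0 0 x x') - 2 * Real.log (Dk G n 0 0 x' x) := by ring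
    rw [e, Real.exp_sub, e1, two_mul, Real.exp_add, e2]
    ring

theorem log_d1 {x x' : ℝ} (h0 : 0 < |x' - x|) (h1 : |x' - x| < T) :
    HasDerivAt (fun z => Real.log (Dk G n 0 0 z x')) (u1 G n x x') x :=
  (Dk_d1 H 0 0 x x').log (D_pos H h0 h1).ne'

theorem log_d2 {x x' : ℝ} (h0 : 0 < |x' - x|) (h1 : |x' - x| < T) :
    HasDerivAt (fun z => Real.log (Dk G n 0 0 x z)) (u2 G n x x') x' :=
  (Dk_d2 H 0 0 x x').log (D_pos H h0 h1).ne'

theorem Ef_d1 {x x' : ℝ} (h0 : 0 < |x' - x|) (h1 : |x' - x| < T) :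
    HasDerivAt (fun z => Ef G n z x') (-(1 / 2) * v1 G n x x' * Ef G n x x') x := by
  obtain ⟨h0', h1'⟩ := sw H h0 h1
  have := (((log_d1 H h0 h1).add (log_d2 H h0' h1')).const_mul (-(1 / 2))).exp
  refine this.congr_deriv ?_
  unfold v1 Ef
  simp only [Pi.add_apply]
  ring

theorem Ef_d2 {x x' : ℝ} (h0 : 0 < |x' - x|) (h1 : |x' - x| < T) :
    HasDerivAt (fun z => Ef G n x z) (-(1 / 2) * v2 G n x x' * Ef G n x x') x' := by
  obtain ⟨h0', h1'⟩ := sw H h0 h1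
  have := (((log_d2 H h0 h1).add (log_d1 H h0' h1')).const_mul (-(1 / 2))).exp
  refine this.congr_deriv ?_
  unfold v2 Ef
  simp only [Pi.add_apply]
  ring

theorem Wf_d1 {x x' : ℝ} (h0 : 0 < |x' - x|) (h1 : |x' - x| < T) :
    HasDerivAt (fun z => Wf G n z x') (w1 G n x x') x := by
  obtain ⟨h0', h1'⟩ := sw H h0 h1
  exact (log_d2 H h0' h1').sub (log_d1 H h0 h1)

theorem Wf_d2 {x x' : ℝ} (h0 : 0 < |x' - x|) (h1 : |x' - x| < T) :
    HasDerivAt (fun z => Wf G n x z) (w2 G n x x') x' := by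
  obtain ⟨h0', h1'⟩ := sw H h0 h1
  exact (log_d1 H h0' h1').sub (log_d2 H h0 h1)

theorem aa_d1 {x x' : ℝ} (h0 : 0 < |x' - x|) (h1 : |x' - x| < T) :
    HasDerivAt (fun z => aa G n z x') (aa G n x x' * (u2 G n x' x - 2 * u1 G n x x')) x := by
  obtain ⟨h0', h1'⟩ := sw H h0 h1
  have p1 := (D_pos H h0 h1).ne'
  have p2 := (D_pos H h0' h1').ne'
  have := (Dk_d2 H 0 0 x' x).div ((Dk_d1 H 0 0 x x').pow 2) (pow_ne_zero 2 p1)
  refine this.congr_deriv ?_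
  unfold aa u2 u1
  simp only [Pi.pow_apply, Nat.cast_ofNat, Nat.add_one_sub_one, pow_one, zero_add]
  field_simp

theorem aa_d2 {x x' : ℝ} (h0 : 0 < |x' - x|) (h1 : |x' - x| < T) :
    HasDerivAt (fun z => aa G n z x) (aa G n x' x * (u2 G n x x' - 2 * u1 G n x' x)) x' := by
  obtain ⟨h0', h1'⟩ := sw H h0 h1
  exact aa_d1 H h0' h1'

theorem A1_d {x x' : ℝ} (h0 : 0 < |x' - x|) (h1 : |x' - x| < T) :
    HasDerivAt (fun z => A1 G n z x') (dA1 G n x x') x := by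
  obtain ⟨h0', h1'⟩ := sw H h0 h1
  have p1 := (D_pos H h0 h1).ne'
  have p2 := (D_pos H h0' h1').ne'
  obtain ⟨ea, eb⟩ := Ef_cs H h0 h1
  have hg : HasDerivAt (fun z => gg G n z x') (u11 G n x x' + aa G n x' x) x :=
    (u1_d1 H p1).add (u1_d2 H p2)
  have hp : HasDerivAt (fun z => v2 G n z x')
      (2 * Ef G n x x' * cosh (3 / 2 * Wf G n x x')) x := by
    refine ((u2_d1 H p1).add (u1_d2 H p2)).congr_deriv ?_
    rw [← ea, ← eb]; ring
  have hq : HasDerivAt (fun z => w2 G n z x')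
      (-(2 * Ef G n x x' * sinh (3 / 2 * Wf G n x x'))) x := by
    refine ((u1_d2 H p2).sub (u2_d1 H p1)).congr_deriv ?_
    rw [← ea, ← eb]; ring
  have hB := Bf_d 1 (Ef_d1 H h0 h1) (Wf_d1 H h0 h1) hp hq
  exact ((aa_d1 H h0 h1).mul hg).sub hB

theorem A2_d {x x' : ℝ} (h0 : 0 < |x' - x|) (h1 : |x' - x| < T) :
    HasDerivAt (fun z => A2 G n x z) (dA2 G n x x') x' := by
  obtain ⟨h0', h1'⟩ := sw H h0 h1
  have p1 := (D_pos H h0 h1).ne'
  have p2 := (D_pos H h0' h1').ne'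
  obtain ⟨ea, eb⟩ := Ef_cs H h0 h1
  have hg : HasDerivAt (fun z => gg G n x z) (aa G n x x' + u11 G n x' x) x' :=
    (u1_d2 H p1).add (u1_d1 H p2)
  have hp : HasDerivAt (fun z => v1 G n x z)
      (2 * Ef G n x x' * cosh (3 / 2 * Wf G n x x')) x' := by
    refine ((u1_d2 H p1).add (u2_d1 H p2)).congr_deriv ?_
    rw [← ea, ← eb]; ring
  have hq : HasDerivAt (fun z => w1 G n x z)
      (-(2 * Ef G n x x' * sinh (3 / 2 * Wf G n x x'))) x' := by
    refine ((u2_d1 H p2).sub (u1_d2 H p1)).congr_deriv ?_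
    rw [← ea, ← eb]; ring
  have hB := Bf_d (-1) (Ef_d2 H h0 h1) (Wf_d2 H h0 h1) hp hq
  exact ((aa_d2 H h0 h1).mul hg).sub hB

/-- the divergence identity -/
theorem div_id {x x' : ℝ} (h0 : 0 < |x' - x|) (h1 : |x' - x| < T) :
    DD G n x x' = dA1 G n x x' + dA2 G n x x' + CCf G n x x' := by
  obtain ⟨ea, eb⟩ := Ef_cs H h0 h1
  have hc := cert_identity (Ef G n x x') (Wf G n x x') (v1 G n x x') (v2 G n x x')
    (w1 G n x x') (w2 G n x x')
  rw [ea, eb] at hc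
  unfold CCf
  rw [← hc]
  unfold DD dA1 dA2 gg v1 v2 w1 w2
  ring

-- periodicity
theorem Wf_per1 (x x' : ℝ) : Wf G n (x + T) x' = Wf G n x x' := by
  unfold Wf; rw [Dk_per1 H, Dk_per2 H]
theorem Wf_per2 (x x' : ℝ) : Wf G n x (x' + T) = Wf G n x x' := by
  unfold Wf; rw [Dk_per1 H, Dk_per2 H]
theorem Ef_per1 (x x' : ℝ) : Ef G n (x + T) x' = Ef G n x x' := by
  unfold Ef; rw [Dk_per1 H, Dk_per2 H]
theorem Ef_per2 (x x' : ℝ) : Ef G n x (x' + T) = Ef G n x x' := by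
  unfold Ef; rw [Dk_per1 H, Dk_per2 H]

theorem A1_per1 (x x' : ℝ) : A1 G n (x + T) x' = A1 G n x x' := by
  unfold A1 gg v2 w2
  rw [Ef_per1 H, Wf_per1 H, aa_per1 H, u1_per1 H, u1_per2 H, u2_per1 H]
theorem A1_per2 (x x' : ℝ) : A1 G n x (x' + T) = A1 G n x x' := by
  unfold A1 gg v2 w2
  rw [Ef_per2 H, Wf_per2 H, aa_per2 H, u1_per1 H, u1_per2 H, u2_per2 H]
theorem A2_per1 (x x' : ℝ) : A2 G n (x + T) x' = A2 G n x x' := by
  unfold A2 gg v1 w1
  rw [Ef_per1 H, Wf_per1 H, aa_per2 H, u1_per1 H, u1_per2 H, u2_per2 H]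
theorem A2_per2 (x x' : ℝ) : A2 G n x (x' + T) = A2 G n x x' := by
  unfold A2 gg v1 w1
  rw [Ef_per2 H, Wf_per2 H, aa_per1 H, u1_per1 H, u1_per2 H, u2_per1 H]
theorem dA1_per1 (x x' : ℝ) : dA1 G n (x + T) x' = dA1 G n x x' := by
  unfold dA1 gg v1 v2 w1 w2
  rw [Ef_per1 H, Wf_per1 H, aa_per1 H, aa_per2 H, u1_per1 H, u1_per2 H, u2_per1 H, u2_per2 H,
    u11_per1 H]
theorem dA1_per2 (x x' : ℝ) : dA1 G n x (x' + T) = dA1 G n x x' := by
  unfold dA1 gg v1 v2 w1 w2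
  rw [Ef_per2 H, Wf_per2 H, aa_per1 H, aa_per2 H, u1_per1 H, u1_per2 H, u2_per1 H, u2_per2 H,
    u11_per2 H]
theorem CCf_per1 (x x' : ℝ) : CCf G n (x + T) x' = CCf G n x x' := by
  unfold CCf v1 v2 w1 w2
  rw [Ef_per1 H, Wf_per1 H, u1_per1 H, u1_per2 H, u2_per1 H, u2_per2 H]
theorem CCf_per2 (x x' : ℝ) : CCf G n x (x' + T) = CCf G n x x' := by
  unfold CCf v1 v2 w1 w2
  rw [Ef_per2 H, Wf_per2 H, u1_per1 H, u1_per2 H, u2_per1 H, u2_per2 H]

-- continuity on the strip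
/-- the open strip -/
def Strip (T : ℝ) : Set (ℝ × ℝ) := {p | p.1 < p.2 ∧ p.2 < p.1 + T}

omit H in
theorem strip_abs {p : ℝ × ℝ} (h : p ∈ Strip T) : 0 < |p.2 - p.1| ∧ |p.2 - p.1| < T := by
  obtain ⟨h1, h2⟩ := h
  rw [abs_of_pos (by linarith)]
  constructor <;> linarith

theorem cD : ContinuousOn (fun p : ℝ × ℝ => Dk G n 0 0 p.1 p.2) (Strip T) :=
  (Dk_cont H 0 0).continuousOn
theorem cDs (i j : ℕ) : Continuous (fun p : ℝ × ℝ => Dk G n i j p.2 p.1) :=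
  (Dk_cont H i j).comp continuous_swap
theorem neD : ∀ p ∈ Strip T, Dk G n 0 0 p.1 p.2 ≠ 0 := fun _ hp =>
  (D_pos H (strip_abs hp).1 (strip_abs hp).2).ne'
theorem neDs : ∀ p ∈ Strip T, Dk G n 0 0 p.2 p.1 ≠ 0 := fun _ hp =>
  (D_pos H (sw H (strip_abs hp).1 (strip_abs hp).2).1
    (sw H (strip_abs hp).1 (strip_abs hp).2).2).ne'

theorem c_u1 : ContinuousOn (fun p : ℝ × ℝ => u1 G n p.1 p.2) (Strip T) :=
  (Dk_cont H 1 0).continuousOn.div (Dk_cont H 0 0).continuousOn (neD H)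
theorem c_u2 : ContinuousOn (fun p : ℝ × ℝ => u2 G n p.1 p.2) (Strip T) :=
  (Dk_cont H 0 1).continuousOn.div (Dk_cont H 0 0).continuousOn (neD H)
theorem c_u1s : ContinuousOn (fun p : ℝ × ℝ => u1 G n p.2 p.1) (Strip T) :=
  (cDs H 1 0).continuousOn.div (cDs H 0 0).continuousOn (neDs H)
theorem c_u2s : ContinuousOn (fun p : ℝ × ℝ => u2 G n p.2 p.1) (Strip T) :=
  (cDs H 0 1).continuousOn.div (cDs H 0 0).continuousOn (neDs H)
theorem c_u11 : ContinuousOn (fun p : ℝ × ℝ => u11 G n p.1 p.2) (Strip T) :=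
  ((Dk_cont H 2 0).continuousOn.div (Dk_cont H 0 0).continuousOn (neD H)).sub ((c_u1 H).pow 2)
theorem c_u11s : ContinuousOn (fun p : ℝ × ℝ => u11 G n p.2 p.1) (Strip T) :=
  ((cDs H 2 0).continuousOn.div (cDs H 0 0).continuousOn (neDs H)).sub ((c_u1s H).pow 2)
theorem c_aa : ContinuousOn (fun p : ℝ × ℝ => aa G n p.1 p.2) (Strip T) :=
  (cDs H 0 0).continuousOn.div ((Dk_cont H 0 0).continuousOn.pow 2)
    (fun p hp => pow_ne_zero 2 (neD H p hp))
theorem c_aas : ContinuousOn (fun p : ℝ × ℝ => aa G n p.2 p.1) (Strip T) :=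
  (Dk_cont H 0 0).continuousOn.div ((cDs H 0 0).continuousOn.pow 2)
    (fun p hp => pow_ne_zero 2 (neDs H p hp))
theorem c_Wf : ContinuousOn (fun p : ℝ × ℝ => Wf G n p.1 p.2) (Strip T) :=
  ((cDs H 0 0).continuousOn.log (neDs H)).sub ((Dk_cont H 0 0).continuousOn.log (neD H))
theorem c_Ef : ContinuousOn (fun p : ℝ × ℝ => Ef G n p.1 p.2) (Strip T) :=
  (continuousOn_const.mul (((Dk_cont H 0 0).continuousOn.log (neD H)).add
    ((cDs H 0 0).continuousOn.log (neDs H)))).rexp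

omit H in
theorem c_g1f : Continuous g1f := by
  have : Continuous (fun w : ℝ => cosh (3 / 2 * w)) :=
    Real.continuous_cosh.comp (continuous_const.mul continuous_id)
  unfold g1f
  exact ((continuous_const.mul this).sub continuous_const).sub
    (continuous_const.mul (continuous_const.div this fun w => (cosh_pos _).ne'))
omit H in
theorem c_g2f : Continuous g2f := by
  have h1 : Continuous (fun w : ℝ => cosh (3 / 2 * w)) :=
    Real.continuous_cosh.comp (continuous_const.mul continuous_id)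
  have h2 : Continuous (fun w : ℝ => sinh (3 / 2 * w)) :=
    Real.continuous_sinh.comp (continuous_const.mul continuous_id)
  unfold g2f
  exact (continuous_const.mul h2).sub
    (continuous_const.mul (h2.mul (continuous_const.div h1 fun w => (cosh_pos _).ne')))
omit H in
theorem c_ghf : Continuous ghf := by
  have h2 : Continuous (fun w : ℝ => sinh (3 / 2 * w)) :=
    Real.continuous_sinh.comp (continuous_const.mul continuous_id)
  unfold ghf
  exact (continuous_const.mul continuous_id).sub (continuous_const.mul h2)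

omit H in
theorem c_Bf (σ : ℝ) : Continuous (fun q : (ℝ × ℝ) × (ℝ × ℝ) => Bf σ q.1.1 q.1.2 q.2.1 q.2.2) := by
  have h1 := c_g1f
  have h2 := c_g2f
  have h3 := c_ghf
  unfold Bf
  fun_prop

omit H in
theorem c_dBf (σ : ℝ) : Continuous (fun q : ((ℝ × ℝ) × (ℝ × ℝ)) × (ℝ × ℝ) =>
    dBf σ q.1.1.1 q.1.1.2 q.1.2.1 q.1.2.2 q.2.1 q.2.2) := by
  have h1 := c_g1f
  have h2 := c_g2f
  have h3 := c_ghf
  have h4 : Continuous (fun w : ℝ => cosh (3 / 2 * w)) :=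
    Real.continuous_cosh.comp (continuous_const.mul continuous_id)
  have h5 : Continuous (fun w : ℝ => sinh (3 / 2 * w)) :=
    Real.continuous_sinh.comp (continuous_const.mul continuous_id)
  have h6 : Continuous (fun w : ℝ => 1 / cosh (3 / 2 * w)) :=
    continuous_const.div h4 fun w => (cosh_pos _).ne'
  have k4 := h4.comp (continuous_fst.comp (continuous_fst.comp continuous_fst) :
    Continuous (fun q : ((ℝ × ℝ) × (ℝ × ℝ)) × (ℝ × ℝ) => q.1.1.1))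
  have pr : Continuous (fun q : ((ℝ × ℝ) × (ℝ × ℝ)) × (ℝ × ℝ) => q.1.1.2) := by fun_prop
  have j4 : Continuous (fun q : ((ℝ × ℝ) × (ℝ × ℝ)) × (ℝ × ℝ) => cosh (3 / 2 * q.1.1.2)) :=
    h4.comp pr
  have j5 : Continuous (fun q : ((ℝ × ℝ) × (ℝ × ℝ)) × (ℝ × ℝ) => sinh (3 / 2 * q.1.1.2)) :=
    h5.comp pr
  have j6 : Continuous (fun q : ((ℝ × ℝ) × (ℝ × ℝ)) × (ℝ × ℝ) => 1 / cosh (3 / 2 * q.1.1.2)) :=
    h6.comp pr
  unfold dBf
  fun_prop

omit H in
theorem c_CC : Continuous (fun q : ((ℝ × ℝ) × (ℝ × ℝ)) × (ℝ × ℝ) =>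
    CC q.1.1.1 q.1.1.2 q.1.2.1 q.1.2.2 q.2.1 q.2.2) := by
  have h4 : Continuous (fun w : ℝ => cosh (3 / 2 * w)) :=
    Real.continuous_cosh.comp (continuous_const.mul continuous_id)
  have h5 : Continuous (fun w : ℝ => sinh (3 / 2 * w)) :=
    Real.continuous_sinh.comp (continuous_const.mul continuous_id)
  have h6 : Continuous (fun w : ℝ => 1 / cosh (3 / 2 * w)) :=
    continuous_const.div h4 fun w => (cosh_pos _).ne'
  have h7 : Continuous (fun w : ℝ => sinh (3 / 2 * w) / cosh (3 / 2 * w)) :=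
    h5.div h4 fun w => (cosh_pos _).ne'
  have pr : Continuous (fun q : ((ℝ × ℝ) × (ℝ × ℝ)) × (ℝ × ℝ) => q.1.1.2) := by fun_prop
  have j4 : Continuous (fun q : ((ℝ × ℝ) × (ℝ × ℝ)) × (ℝ × ℝ) => cosh (3 / 2 * q.1.1.2)) :=
    h4.comp pr
  have j6 : Continuous (fun q : ((ℝ × ℝ) × (ℝ × ℝ)) × (ℝ × ℝ) => 1 / cosh (3 / 2 * q.1.1.2)) :=
    h6.comp pr
  have j7 : Continuous (fun q : ((ℝ × ℝ) × (ℝ × ℝ)) × (ℝ × ℝ) =>
    sinh (3 / 2 * q.1.1.2) / cosh (3 / 2 * q.1.1.2)) := h7.comp pr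
  unfold CC F72
  fun_prop

attribute [local irreducible] dBf Bf CC

theorem c_A1 : ContinuousOn (fun p : ℝ × ℝ => A1 G n p.1 p.2) (Strip T) := by
  unfold A1 gg v2 w2
  exact ((c_aa H).mul ((c_u1 H).add (c_u1s H))).sub ((c_Bf 1).comp_continuousOn
    (((c_Ef H).prodMk (c_Wf H)).prodMk (((c_u2 H).add (c_u1s H)).prodMk
      ((c_u1s H).sub (c_u2 H)))))
theorem c_A2 : ContinuousOn (fun p : ℝ × ℝ => A2 G n p.1 p.2) (Strip T) := by
  unfold A2 gg v1 w1
  exact ((c_aas H).mul ((c_u1 H).add (c_u1s H))).sub ((c_Bf (-1)).comp_continuousOn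
    (((c_Ef H).prodMk (c_Wf H)).prodMk (((c_u1 H).add (c_u2s H)).prodMk
      ((c_u2s H).sub (c_u1 H)))))
theorem c_dA1 : ContinuousOn (fun p : ℝ × ℝ => dA1 G n p.1 p.2) (Strip T) := by
  unfold dA1 gg v1 w1 v2 w2
  exact ((((c_aa H).mul ((c_u2s H).sub (continuousOn_const.mul (c_u1 H)))).mul
    ((c_u1 H).add (c_u1s H))).add ((c_aa H).mul ((c_u11 H).add (c_aas H)))).sub
    ((c_dBf 1).comp_continuousOn
    ((((c_Ef H).prodMk (c_Wf H)).prodMk (((c_u2 H).add (c_u1s H)).prodMk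
      ((c_u1s H).sub (c_u2 H)))).prodMk (((c_u1 H).add (c_u2s H)).prodMk
      ((c_u2s H).sub (c_u1 H)))))
theorem c_dA2 : ContinuousOn (fun p : ℝ × ℝ => dA2 G n p.1 p.2) (Strip T) := by
  unfold dA2 gg v1 w1 v2 w2
  exact ((((c_aas H).mul ((c_u2 H).sub (continuousOn_const.mul (c_u1s H)))).mul
    ((c_u1 H).add (c_u1s H))).add ((c_aas H).mul ((c_aa H).add (c_u11s H)))).sub
    ((c_dBf (-1)).comp_continuousOn
    ((((c_Ef H).prodMk (c_Wf H)).prodMk (((c_u1 H).add (c_u2s H)).prodMk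
      ((c_u2s H).sub (c_u1 H)))).prodMk (((c_u2 H).add (c_u1s H)).prodMk
      ((c_u1s H).sub (c_u2 H)))))
theorem c_CCf : ContinuousOn (fun p : ℝ × ℝ => CCf G n p.1 p.2) (Strip T) := by
  unfold CCf v1 w1 v2 w2
  exact c_CC.comp_continuousOn
    ((((c_Ef H).prodMk (c_Wf H)).prodMk (((c_u1 H).add (c_u2s H)).prodMk
      ((c_u2 H).add (c_u1s H)))).prodMk (((c_u2s H).sub (c_u1 H)).prodMk
      ((c_u1s H).sub (c_u2 H))))
theorem c_DD : ContinuousOn (fun p : ℝ × ℝ => DD G n p.1 p.2) (Strip T) := by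
  unfold DD
  exact (((continuousOn_const.mul (c_aa H)).mul (c_aas H)).add ((c_aa H).mul (c_u11 H))).add
    ((c_aas H).mul (c_u11s H))

end

end Pool.Agent.TH229.PG
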