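import Pool.Agent.TH229.PG.Core1

/-!
The flux of the field through the diagonal vanishes.
-/

set_option autoImplicit false

namespace Pool.Agent.TH229.PG

open Real Filter Topology MeasureTheory Set

theorem Ord.of_sq {T : ℝ} {m k : ℤ} {f : ℝ → ℝ → ℝ} (h : Ord T k (fun x δ => f x δ ^ 2))
    (hk : m + m = k) : Ord T m f := by
  obtain ⟨C, hC, h1⟩ := h
  refine ⟨Real.sqrt C, Real.sqrt_nonneg _, fun x δ h0 h2 => ?_⟩
  have h3 := h1 x δ h0 h2
  rw [← hk, zpow_add₀ h0.ne'] at h3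
  have hp : (0 : ℝ) ≤ |δ| ^ m := by positivity
  refine abs_le_of_sq_le_sq' ?_ (by positivity) |> fun h => abs_le.mpr h
  rw [mul_pow, Real.sq_sqrt hC, pow_two (|δ| ^ m)]
  exact (le_abs_self _).trans h3

theorem abs_le_abs_sinh (y : ℝ) : |y| ≤ |sinh y| := by
  rw [Real.abs_sinh]
  exact Real.self_le_sinh_iff.mpr (abs_nonneg y)

section
variable {T : ℝ} {G n : ℕ → ℝ → (Fin 3 → ℝ)} (H : Curve T G n)
include H

theorem hh {x δ : ℝ} (h0 : 0 < |δ|) (h1 : |δ| ≤ T / 2) :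
    0 < |(x + δ) - x| ∧ |(x + δ) - x| < T := by
  have := H.Tpos
  rw [add_sub_cancel_left]
  exact ⟨h0, by linarith⟩

theorem Ef_pos (x x' : ℝ) : 0 < Ef G n x x' := Real.exp_pos _

theorem o_v2 : Ord T (-1) (fun x δ => v2 G n x (x + δ)) := by
  refine ((o_2k H).add (o_2ks H)).congr fun x δ _ _ => ?_
  unfold v2; rw [u2_eq H, u1s_eq H]

theorem o_X : Ord T 2 (fun x δ => v1 G n x (x + δ) + v2 G n x (x + δ)) := by
  refine ((o_xk H).add (o_xks H)).congr fun x δ _ _ => ?_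
  unfold v1 v2; rw [u2_eq H, u1s_eq H, u1_eq H, u2s_eq H]; ring

theorem o_v1 : Ord T (-1) (fun x δ => v1 G n x (x + δ)) := by
  refine (((o_X H).mono H.Tpos (l := -1) (by norm_num)).sub (o_v2 H)).congr fun x δ _ _ => ?_
  ring

theorem o_w2 : Ord T 2 (fun x δ => w2 G n x (x + δ)) := by
  refine (o_W2 H).congr fun x δ _ _ => ?_
  unfold w2; rw [u2_eq H, u1s_eq H]

theorem o_w1 : Ord T 2 (fun x δ => w1 G n x (x + δ)) := by
  refine (o_W1 H).congr fun x δ _ _ => ?_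
  unfold w1; rw [u1_eq H, u2s_eq H]

theorem o_ZZ : Ord T 3 (fun x δ => w1 G n x (x + δ) + w2 G n x (x + δ)) := by
  refine (o_Z H).congr fun x δ _ _ => ?_
  unfold w1 w2; rw [u1_eq H, u2s_eq H, u2_eq H, u1s_eq H]; ring

theorem Ef_sq {x δ : ℝ} (h0 : 0 < |δ|) (h1 : |δ| ≤ T / 2) :
    Ef G n x (x + δ) ^ 2 = (1 / J0 n G 0 x δ) * (1 / J0 G n 0 x δ) := by
  have e1 := Dne H (x := x) h0 h1
  have e2 := Dsne H (x := x) h0 h1
  unfold Ef
  rw [D_eq, Ds_eq, pow_two, ← Real.exp_add]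
  have e : -(1 / 2) * (Real.log (J0 n G 0 x δ) + Real.log (J0 G n 0 x δ)) +
      -(1 / 2) * (Real.log (J0 n G 0 x δ) + Real.log (J0 G n 0 x δ)) =
      -Real.log (J0 n G 0 x δ) + -Real.log (J0 G n 0 x δ) := by ring
  rw [e, Real.exp_add, Real.exp_neg, Real.exp_neg, Real.exp_log e1, Real.exp_log e2]
  ring

theorem o_E : Ord T (-2) (fun x δ => Ef G n x (x + δ)) := by
  refine Ord.of_sq (k := -4) ?_ rfl
  exact ((o_i H).mul (o_is H) (m := -4) rfl).congr fun x δ h0 h1 => Ef_sq H h0 h1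

theorem o_invE : Ord T 2 (fun x δ => 1 / Ef G n x (x + δ)) := by
  refine Ord.of_sq (k := 4) ?_ rfl
  refine ((o_k H).mul (o_ks H) (m := 4) rfl).congr fun x δ h0 h1 => ?_
  have e1 := (Dne H (x := x) h0 h1).ne'
  have e2 := (Dsne H (x := x) h0 h1).ne'
  rw [div_pow, Ef_sq H h0 h1]
  field_simp

theorem o_s : Ord T 3 (fun x δ => sinh (3 / 2 * Wf G n x (x + δ))) := by
  refine (((o_ab H).mul (o_invE H) (m := 3) rfl).cmul (1 / 2)).congr fun x δ h0 h1 => ?_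
  obtain ⟨ea, eb⟩ := Ef_cs H (hh H (x := x) h0 h1).1 (hh H (x := x) h0 h1).2
  have hE := (Ef_pos H x (x + δ)).ne'
  rw [← ea, ← eb]
  field_simp
  ring

theorem o_W : Ord T 3 (fun x δ => Wf G n x (x + δ)) := by
  refine (o_s H).of_le fun x δ _ _ => ?_
  have := abs_le_abs_sinh (3 / 2 * Wf G n x (x + δ))
  rw [abs_mul, abs_of_pos (by norm_num : (0 : ℝ) < 3 / 2)] at this
  have := abs_nonneg (Wf G n x (x + δ))
  linarith

theorem o_g1 : Ord T 6 (fun x δ => g1f (Wf G n x (x + δ))) := by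
  refine ((o_s H).sq (m := 6) rfl).of_le fun x δ _ _ => ?_
  have hc := one_le_cosh (3 / 2 * Wf G n x (x + δ))
  have hcs := Real.cosh_sq (3 / 2 * Wf G n x (x + δ))
  rw [abs_of_nonneg (sq_nonneg (sinh (3 / 2 * Wf G n x (x + δ))))]
  unfold g1f
  set c := cosh (3 / 2 * Wf G n x (x + δ))
  set s := sinh (3 / 2 * Wf G n x (x + δ))
  have hc0 : 0 < c := by linarith
  have h1 : 1 / c ≤ 1 := by rw [div_le_one hc0]; exact hc
  have h2 : 2 - c ≤ 1 / c := by rw [le_div_iff₀ hc0]; nlinarith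
  have h3 : c - 1 ≤ s ^ 2 := by nlinarith
  rw [abs_le]
  constructor <;> linarith

theorem o_gg2 : Ord T 3 (fun x δ => g2f (Wf G n x (x + δ))) := by
  refine (o_s H).of_le fun x δ _ _ => ?_
  have hc := one_le_cosh (3 / 2 * Wf G n x (x + δ))
  unfold g2f
  set c := cosh (3 / 2 * Wf G n x (x + δ))
  set s := sinh (3 / 2 * Wf G n x (x + δ))
  have hc0 : 0 < c := by linarith
  have h1 : 1 / c ≤ 1 := by rw [div_le_one hc0]; exact hc
  have h0 : 0 ≤ 1 / c := by positivity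
  have e : 2 / 9 * s - 1 / 18 * (s * (1 / c)) = s * (2 / 9 - 1 / 18 * (1 / c)) := by ring
  rw [e, abs_mul]
  have h2 : |2 / 9 - 1 / 18 * (1 / c)| ≤ 1 := by
    rw [abs_le]; constructor <;> linarith
  calc |s| * |2 / 9 - 1 / 18 * (1 / c)| ≤ |s| * 1 := by gcongr
    _ = |s| := mul_one _

theorem o_gh : Ord T 3 (fun x δ => ghf (Wf G n x (x + δ))) :=
  ((o_W H).cmul (1 / 6)).sub ((o_s H).cmul (7 / 18))

theorem o_flux : Ord T 1 (fun x δ => A1 G n x (x + δ) - A2 G n x (x + δ)) := by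
  have hT := H.Tpos
  have t0 := ((o_ab H).mul (o_g H) (m := 3) rfl).mono hT (l := 1) (by norm_num)
  have t1 := ((((o_E H).mul (o_g1 H) (m := 4) rfl).mul ((o_v2 H).sub (o_v1 H))
    (m := 3) rfl).mono hT (l := 1) (by norm_num)).cmul 2
  have t2 := ((((o_E H).mul (o_gg2 H) (m := 1) rfl).mul ((o_w2 H).sub (o_w1 H))
    (m := 3) rfl).mono hT (l := 1) (by norm_num)).cmul 2
  have t3 := ((((o_E H).mul (o_gh H) (m := 1) rfl).mul (o_X H)
    (m := 3) rfl).mono hT (l := 1) (by norm_num)).cmul 2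
  have t4 := ((((o_v1 H).sq (m := -2) rfl).mul (o_ZZ H) (m := 1) rfl).add
    (((((o_v2 H).sub (o_v1 H)).mul (o_X H) (m := 1) rfl).mul (o_w2 H) (m := 3) rfl).mono hT
      (l := 1) (by norm_num))).cmul (5 / 24)
  have t5 := ((((o_v2 H).mul ((o_w2 H).sq (m := 4) rfl) (m := 3) rfl).sub
    ((o_v1 H).mul ((o_w1 H).sq (m := 4) rfl) (m := 3) rfl)).mono hT (l := 1)
      (by norm_num)).cmul (1 / 4)
  have t6 := ((((o_w2 H).mul ((o_w2 H).sq (m := 4) rfl) (m := 6) rfl).add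
    ((o_w1 H).mul ((o_w1 H).sq (m := 4) rfl) (m := 6) rfl)).mono hT (l := 1)
      (by norm_num)).cmul (1 / 8)
  refine (t0.sub (((((t1.add t2).sub t3).sub t4).sub t5).sub t6)).congr fun x δ _ _ => ?_
  unfold A1 A2 Bf gg
  ring

end

end Pool.Agent.TH229.PG
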