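import Pool.Agent.TH229.PG.Diag

/-!
Integration by parts on the strip.
-/

set_option autoImplicit false

namespace Pool.Agent.TH229.PG

open Real Filter Topology MeasureTheory Set
open scoped Interval

theorem per_shift {T : ℝ} {f : ℝ → ℝ} (hp : ∀ x, f (x + T) = f x) (a : ℝ) :
    ∫ x in (0 : ℝ)..T, f (x - a) = ∫ x in (0 : ℝ)..T, f x := by
  rw [intervalIntegral.integral_comp_sub_right (fun x => f x) a]
  have h : Function.Periodic f T := hp
  have := h.intervalIntegral_add_eq (0 - a) 0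
  rw [zero_add] at this
  have e : T - a = 0 - a + T := by ring
  rw [e, this]

/-- integration by parts on the strip `ε < x' - x < T - ε` -/
theorem ibp {T : ℝ} (hT : 0 < T) {A1 A2 a1 a2 : ℝ → ℝ → ℝ}
    (hp1 : ∀ x x', A1 (x + T) (x' + T) = A1 x x') (hp1' : ∀ x x', a1 (x + T) (x' + T) = a1 x x')
    (hd1 : ∀ x x', x < x' → x' < x + T → HasDerivAt (fun z => A1 z x') (a1 x x') x)
    (hd2 : ∀ x x', x < x' → x' < x + T → HasDerivAt (fun z => A2 x z) (a2 x x') x')
    (hc1 : ContinuousOn (fun p : ℝ × ℝ => a1 p.1 p.2) {p | p.1 < p.2 ∧ p.2 < p.1 + T})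
    (hc2 : ContinuousOn (fun p : ℝ × ℝ => a2 p.1 p.2) {p | p.1 < p.2 ∧ p.2 < p.1 + T})
    (hA1 : ContinuousOn (fun p : ℝ × ℝ => A1 p.1 p.2) {p | p.1 < p.2 ∧ p.2 < p.1 + T})
    (hA2 : ContinuousOn (fun p : ℝ × ℝ => A2 p.1 p.2) {p | p.1 < p.2 ∧ p.2 < p.1 + T})
    {ε : ℝ} (h0 : 0 < ε) (h1 : ε < T / 2) :
    ∫ x in (0 : ℝ)..T, ∫ δ in ε..(T - ε), (a1 x (x + δ) + a2 x (x + δ)) =
      ∫ x in (0 : ℝ)..T, ((A1 x (x + ε) - A2 x (x + ε)) -
        (A1 x (x + (T - ε)) - A2 x (x + (T - ε)))) := by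
  have hle : ε ≤ T - ε := by linarith
  -- continuity of compositions
  have cc : ∀ {g : ℝ → ℝ → ℝ} (_ : ContinuousOn (fun p : ℝ × ℝ => g p.1 p.2)
      {p | p.1 < p.2 ∧ p.2 < p.1 + T}) {u v : ℝ × ℝ → ℝ} (_ : Continuous u) (_ : Continuous v)
      (S : Set (ℝ × ℝ)) (_ : ∀ q ∈ S, u q < v q ∧ v q < u q + T),
      ContinuousOn (fun q => g (u q) (v q)) S := by
    intro g hg u v hu hv S hS
    exact hg.comp (hu.prodMk hv).continuousOn hS
  set R : Set (ℝ × ℝ) := Icc 0 T ×ˢ Icc ε (T - ε) with hR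
  have hRc : IsCompact R := isCompact_Icc.prod isCompact_Icc
  have hRm : ∀ q ∈ R, q.1 < q.1 + q.2 ∧ q.1 + q.2 < q.1 + T := by
    rintro q ⟨-, h2, h3⟩; constructor <;> linarith
  have hRm' : ∀ q ∈ R, q.1 - q.2 < q.1 ∧ q.1 < q.1 - q.2 + T := by
    rintro q ⟨-, h2, h3⟩; constructor <;> linarith
  have c1 : ContinuousOn (fun q : ℝ × ℝ => a1 q.1 (q.1 + q.2)) R :=
    cc hc1 continuous_fst (continuous_fst.add continuous_snd) R hRm
  have c2 : ContinuousOn (fun q : ℝ × ℝ => a2 q.1 (q.1 + q.2)) R :=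
    cc hc2 continuous_fst (continuous_fst.add continuous_snd) R hRm
  have c3 : ContinuousOn (fun q : ℝ × ℝ => a1 (q.1 - q.2) q.1) R :=
    cc hc1 (continuous_fst.sub continuous_snd) continuous_fst R hRm'
  have slice : ∀ {g : ℝ × ℝ → ℝ} (_ : ContinuousOn g R) (x : ℝ) (_ : x ∈ Icc 0 T),
      ContinuousOn (fun δ => g (x, δ)) (Icc ε (T - ε)) := by
    intro g hg x hx
    exact hg.comp (Continuous.prodMk_right x).continuousOn fun δ hδ => ⟨hx, hδ⟩
  have slice' : ∀ {g : ℝ × ℝ → ℝ} (_ : ContinuousOn g R) (δ : ℝ) (_ : δ ∈ Icc ε (T - ε)),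
      ContinuousOn (fun x => g (x, δ)) (Icc 0 T) := by
    intro g hg δ hδ
    exact hg.comp (Continuous.prodMk_left δ).continuousOn fun x hx => ⟨hx, hδ⟩
  have swap : ∀ {g : ℝ × ℝ → ℝ} (_ : ContinuousOn g R),
      ∫ x in (0 : ℝ)..T, ∫ δ in ε..(T - ε), g (x, δ) =
        ∫ δ in ε..(T - ε), ∫ x in (0 : ℝ)..T, g (x, δ) := by
    intro g hg
    refine intervalIntegral_intervalIntegral_swap (F := fun x δ => g (x, δ)) ?_
    have h2 : IntegrableOn g R := hg.integrableOn_compact hRc
    have h3 : IntegrableOn (Function.uncurry fun x δ => g (x, δ)) R := h2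
    rw [uIoc_of_le hT.le, uIoc_of_le hle]
    exact h3.mono_set (prod_mono Ioc_subset_Icc_self Ioc_subset_Icc_self)
  have outer : ∀ {g : ℝ × ℝ → ℝ} (_ : ContinuousOn g R),
      IntervalIntegrable (fun x => ∫ δ in ε..(T - ε), g (x, δ)) volume 0 T := by
    intro g hg
    have h2 : IntegrableOn g R := hg.integrableOn_compact hRc
    have h3 : Integrable g ((volume.restrict (Ioc 0 T)).prod (volume.restrict (Ioc ε (T - ε)))) := by
      rw [Measure.prod_restrict]
      exact h2.mono_set (prod_mono Ioc_subset_Icc_self Ioc_subset_Icc_self)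
    have h4 := h3.integral_prod_left
    rw [intervalIntegrable_iff_integrableOn_Ioc_of_le hT.le]
    refine h4.congr (Filter.Eventually.of_forall fun x => ?_)
    simp only
    rw [intervalIntegral.integral_of_le hle]
  -- split
  have s1 : ∫ x in (0 : ℝ)..T, ∫ δ in ε..(T - ε), (a1 x (x + δ) + a2 x (x + δ)) =
      (∫ x in (0 : ℝ)..T, ∫ δ in ε..(T - ε), a1 x (x + δ)) +
        ∫ x in (0 : ℝ)..T, ∫ δ in ε..(T - ε), a2 x (x + δ) := by
    rw [← intervalIntegral.integral_add (outer c1) (outer c2)]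
    refine intervalIntegral.integral_congr fun x hx => ?_
    rw [uIcc_of_le hT.le] at hx
    simp only
    refine intervalIntegral.integral_add ?_ ?_
    · exact (slice c1 x hx).intervalIntegrable_of_Icc hle
    · exact (slice c2 x hx).intervalIntegrable_of_Icc hle
  -- second part
  have s2 : ∫ x in (0 : ℝ)..T, ∫ δ in ε..(T - ε), a2 x (x + δ) =
      ∫ x in (0 : ℝ)..T, (A2 x (x + (T - ε)) - A2 x (x + ε)) := by
    refine intervalIntegral.integral_congr fun x hx => ?_
    rw [uIcc_of_le hT.le] at hx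
    refine intervalIntegral.integral_eq_sub_of_hasDerivAt (f := fun δ => A2 x (x + δ))
      (fun δ hδ => ?_) ?_
    · rw [uIcc_of_le hle] at hδ
      have h2 := hd2 x (x + δ) (by linarith [hδ.1]) (by linarith [hδ.2])
      have h3 : HasDerivAt (fun δ : ℝ => x + δ) 1 δ := by simpa using (hasDerivAt_id δ).const_add x
      have h4 : HasDerivAt (fun δ => A2 x (x + δ)) (a2 x (x + δ) * 1) δ := h2.comp δ h3
      rwa [mul_one] at h4
    · exact (slice c2 x hx).intervalIntegrable_of_Icc hle
  -- first part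
  have s3 : ∫ x in (0 : ℝ)..T, ∫ δ in ε..(T - ε), a1 x (x + δ) =
      ∫ x in (0 : ℝ)..T, (A1 x (x + ε) - A1 x (x + (T - ε))) := by
    have e1 := swap c1
    simp only at e1
    rw [e1]
    have e2 : ∀ δ, ∫ x in (0 : ℝ)..T, a1 x (x + δ) = ∫ x in (0 : ℝ)..T, a1 (x - δ) x := by
      intro δ
      have := per_shift (T := T) (f := fun x => a1 x (x + δ)) (fun x => by
        have e : x + T + δ = x + δ + T := by ring
        simp only [e, hp1']) δ
      simp only [sub_add_cancel] at this
      exact this.symm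
    simp only [e2]
    have e3 := swap c3
    simp only at e3
    rw [← e3]
    have e4 : ∫ x in (0 : ℝ)..T, ∫ δ in ε..(T - ε), a1 (x - δ) x =
        ∫ x in (0 : ℝ)..T, (A1 (x - ε) x - A1 (x - (T - ε)) x) := by
      refine intervalIntegral.integral_congr fun x hx => ?_
      rw [uIcc_of_le hT.le] at hx
      have e5 : ∫ δ in ε..(T - ε), a1 (x - δ) x =
          (-A1 (x - (T - ε)) x) - (-A1 (x - ε) x) := by
        refine intervalIntegral.integral_eq_sub_of_hasDerivAt (f := fun δ => -A1 (x - δ) x)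
          (fun δ hδ => ?_) ?_
        · rw [uIcc_of_le hle] at hδ
          have h2 := hd1 (x - δ) x (by linarith [hδ.1]) (by linarith [hδ.2])
          have h3 : HasDerivAt (fun δ : ℝ => x - δ) (-1) δ := by
            simpa using (hasDerivAt_id δ).const_sub x
          have h4 : HasDerivAt (fun δ => A1 (x - δ) x) (a1 (x - δ) x * (-1)) δ := h2.comp δ h3
          refine h4.neg.congr_deriv ?_
          ring
        · exact (slice c3 x hx).intervalIntegrable_of_Icc hle
      rw [e5]; ring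
    rw [e4]
    -- shift back
    have cA : ∀ d, ε ≤ d → d ≤ T - ε → Continuous (fun x => A1 (x - d) x) := by
      intro d h2 h3
      have := cc hA1 (u := fun q => q.1 - d) (v := fun q => q.1) (continuous_fst.sub continuous_const)
        continuous_fst univ (fun q _ => ⟨by linarith, by linarith⟩)
      have h4 := continuousOn_univ.mp this
      exact h4.comp (Continuous.prodMk_left (0 : ℝ))
    have cA' : ∀ d, ε ≤ d → d ≤ T - ε → Continuous (fun x => A1 x (x + d)) := by
      intro d h2 h3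
      have := cc hA1 (u := fun q => q.1) (v := fun q => q.1 + d) continuous_fst
        (continuous_fst.add continuous_const)
        univ (fun q _ => ⟨by linarith, by linarith⟩)
      have h4 := continuousOn_univ.mp this
      exact h4.comp (Continuous.prodMk_left (0 : ℝ))
    have e6 : ∀ d, ∫ x in (0 : ℝ)..T, A1 (x - d) x = ∫ x in (0 : ℝ)..T, A1 x (x + d) := by
      intro δ
      have := per_shift (T := T) (f := fun x => A1 x (x + δ)) (fun x => by
        have e : x + T + δ = x + δ + T := by ring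
        simp only [e, hp1]) δ
      simp only [sub_add_cancel] at this
      exact this
    rw [intervalIntegral.integral_sub, intervalIntegral.integral_sub, e6, e6]
    · exact (cA' ε le_rfl hle).intervalIntegrable _ _
    · exact (cA' (T - ε) hle le_rfl).intervalIntegrable _ _
    · exact (cA ε le_rfl hle).intervalIntegrable _ _
    · exact (cA (T - ε) hle le_rfl).intervalIntegrable _ _
  rw [s1, s2, s3]
  have cB : ∀ {g : ℝ → ℝ → ℝ} (_ : ContinuousOn (fun p : ℝ × ℝ => g p.1 p.2)
      {p | p.1 < p.2 ∧ p.2 < p.1 + T}) (d : ℝ), ε ≤ d → d ≤ T - ε →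
      Continuous (fun x => g x (x + d)) := by
    intro g hg d h2 h3
    have := cc hg (u := fun q => q.1) (v := fun q => q.1 + d) continuous_fst
      (continuous_fst.add continuous_const)
      univ (fun q _ => ⟨by linarith, by linarith⟩)
    have h4 := continuousOn_univ.mp this
    exact h4.comp (Continuous.prodMk_left (0 : ℝ))
  rw [← intervalIntegral.integral_add]
  · refine intervalIntegral.integral_congr fun x _ => ?_
    ring
  · exact ((cB hA1 ε le_rfl hle).sub (cB hA1 (T - ε) hle le_rfl)).intervalIntegrable _ _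
  · exact ((cB hA2 (T - ε) hle le_rfl).sub (cB hA2 ε le_rfl hle)).intervalIntegrable _ _

end Pool.Agent.TH229.PG
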