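import Pool.Agent.TH229.PG.Core2
import Pool.Agent.TH229.PG.Ibp
import Pool.Agent.TH645.PGHopf

/-!
Conclusion of the analytic core: the kernel is symmetric and translation invariant.
-/

set_option autoImplicit false

namespace Pool.Agent.TH229.PG

open Real Filter Topology MeasureTheory Set

section
variable {T : ℝ} {G n : ℕ → ℝ → (Fin 3 → ℝ)} (H : Curve T G n)
include H

theorem flux_bound : ∃ C, 0 ≤ C ∧ ∀ ε, 0 < ε → ε < T / 2 →
    |∫ x in (0 : ℝ)..T, ((A1 G n x (x + ε) - A2 G n x (x + ε)) -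
        (A1 G n x (x + (T - ε)) - A2 G n x (x + (T - ε))))| ≤ C * ε := by
  have hT := H.Tpos
  obtain ⟨C, hC, h⟩ := o_flux H
  refine ⟨2 * C * T, by positivity, fun ε h0 h1 => ?_⟩
  have hb : ∀ x ∈ uIoc (0 : ℝ) T, ‖(A1 G n x (x + ε) - A2 G n x (x + ε)) -
        (A1 G n x (x + (T - ε)) - A2 G n x (x + (T - ε)))‖ ≤ 2 * C * ε := by
    intro x _
    rw [Real.norm_eq_abs]
    have e : x + (T - ε) = x + (-ε) + T := by ring
    rw [e, A1_per2 H, A2_per2 H]
    have b1 := h x ε (abs_pos.mpr h0.ne') (by rw [abs_of_pos h0]; linarith)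
    have b2 := h x (-ε) (by rw [abs_neg]; exact abs_pos.mpr h0.ne')
      (by rw [abs_neg, abs_of_pos h0]; linarith)
    rw [zpow_one, abs_of_pos h0] at b1
    rw [zpow_one, abs_neg ε, abs_of_pos h0] at b2
    have := abs_sub (A1 G n x (x + ε) - A2 G n x (x + ε))
      (A1 G n x (x + (-ε)) - A2 G n x (x + (-ε)))
    linarith
  have := intervalIntegral.norm_integral_le_of_norm_le_const hb
  rw [sub_zero, abs_of_pos hT, Real.norm_eq_abs] at this
  linarith

/-- the truncated product region -/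
def Rg (T ε : ℝ) : Set (ℝ × ℝ) := Ioc 0 T ×ˢ Ioc ε (T - ε)

theorem strip_mem {x δ : ℝ} (h0 : 0 < δ) (h1 : δ < T) : (x, x + δ) ∈ Strip T :=
  ⟨by simp only; linarith, by simp only; linarith⟩

theorem co {f : ℝ → ℝ → ℝ} (hf : ContinuousOn (fun p : ℝ × ℝ => f p.1 p.2) (Strip T)) :
    ContinuousOn (fun q : ℝ × ℝ => f q.1 (q.1 + q.2)) (univ ×ˢ Ioo 0 T) :=
  hf.comp (continuous_fst.prodMk (continuous_fst.add continuous_snd)).continuousOn
    fun _ hq => strip_mem H hq.2.1 hq.2.2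

theorem intOn {f : ℝ → ℝ → ℝ} (hf : ContinuousOn (fun p : ℝ × ℝ => f p.1 p.2) (Strip T))
    {ε : ℝ} (h0 : 0 < ε) :
    IntegrableOn (fun q : ℝ × ℝ => f q.1 (q.1 + q.2)) (Rg T ε) := by
  have h1 : ContinuousOn (fun q : ℝ × ℝ => f q.1 (q.1 + q.2)) (Icc 0 T ×ˢ Icc ε (T - ε)) :=
    (co H hf).mono (prod_mono (subset_univ _) fun δ hδ =>
      ⟨by linarith [hδ.1], by linarith [hδ.2]⟩)
  exact (h1.integrableOn_compact (isCompact_Icc.prod isCompact_Icc)).mono_set
    (prod_mono Ioc_subset_Icc_self Ioc_subset_Icc_self)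

theorem iter_eq {f : ℝ → ℝ → ℝ} (hf : ContinuousOn (fun p : ℝ × ℝ => f p.1 p.2) (Strip T))
    {ε : ℝ} (h0 : 0 < ε) (h1 : ε < T / 2) :
    ∫ q in Rg T ε, f q.1 (q.1 + q.2) =
      ∫ x in (0 : ℝ)..T, ∫ δ in ε..(T - ε), f x (x + δ) := by
  have hT := H.Tpos
  unfold Rg
  rw [Measure.volume_eq_prod, setIntegral_prod _ (intOn H hf h0),
    intervalIntegral.integral_of_le hT.le]
  refine integral_congr_ae (Filter.Eventually.of_forall fun x => ?_)
  simp only
  rw [intervalIntegral.integral_of_le (by linarith)]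

/-- the full integral of the density is nonpositive -/
theorem full_le (hcov : ∀ x x', x < x' → x' < x + T → ∃ τ, Leaf T τ ∧ τ x = x' ∧
    ∀ u, u1 G n (τ u) (τ (τ u)) = - u1 G n (τ u) u) :
    ∫ q in (Ioc 0 T) ×ˢ (Ioo 0 T), DD G n q.1 (q.1 + q.2) ≤ 0 := by
  obtain ⟨C, hB⟩ := bounds H
  have := Pool.Agent.TH645.PG.hopf_ineq (data H hcov) hB
  refine le_trans (le_of_eq ?_) this
  refine integral_congr_ae (Filter.Eventually.of_forall fun q => ?_)
  simp only
  unfold DD
  ring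

theorem DD_bdd : ∃ C, 0 ≤ C ∧ ∀ x δ, 0 < δ → δ < T → |DD G n x (x + δ)| ≤ C := by
  obtain ⟨C, hB⟩ := bounds H
  refine ⟨C, hB.Cpos.le, fun x δ h0 h1 => ?_⟩
  have := hB.bD x δ h0 h1
  refine le_trans (le_of_eq ?_) this
  congr 1
  unfold DD
  ring

theorem DD_int : IntegrableOn (fun q : ℝ × ℝ => DD G n q.1 (q.1 + q.2))
    ((Ioc 0 T) ×ˢ (Ioo 0 T)) := by
  have hT := H.Tpos
  obtain ⟨C, hC, hb⟩ := DD_bdd H
  have hm : MeasurableSet ((Ioc 0 T) ×ˢ (Ioo 0 T) : Set (ℝ × ℝ)) :=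
    measurableSet_Ioc.prod measurableSet_Ioo
  have hfin : volume ((Ioc 0 T) ×ˢ (Ioo 0 T) : Set (ℝ × ℝ)) < ⊤ := by
    rw [Measure.volume_eq_prod, Measure.prod_prod, Real.volume_Ioc, Real.volume_Ioo]
    exact ENNReal.mul_lt_top ENNReal.ofReal_lt_top ENNReal.ofReal_lt_top
  refine IntegrableOn.of_bound hfin ?_ C ?_
  · exact ((co H (c_DD H)).mono (prod_mono (subset_univ _) le_rfl)).aestronglyMeasurable hm
  · refine (ae_restrict_iff' hm).mpr (Filter.Eventually.of_forall fun q hq => ?_)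
    exact hb q.1 q.2 hq.2.1 hq.2.2

theorem trunc_le (hcov : ∀ x x', x < x' → x' < x + T → ∃ τ, Leaf T τ ∧ τ x = x' ∧
    ∀ u, u1 G n (τ u) (τ (τ u)) = - u1 G n (τ u) u) :
    ∃ C, 0 ≤ C ∧ ∀ ε, 0 < ε → ε < T / 2 → ∫ q in Rg T ε, CCf G n q.1 (q.1 + q.2) ≤ C * ε := by
  have hT := H.Tpos
  obtain ⟨C, hC, hb⟩ := DD_bdd H
  obtain ⟨C', hC', hf⟩ := flux_bound H
  refine ⟨2 * C * T + C', by positivity, fun ε h0 h1 => ?_⟩
  -- `CC = DD - div`
  have e1 : ∫ q in Rg T ε, CCf G n q.1 (q.1 + q.2) =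
      (∫ q in Rg T ε, DD G n q.1 (q.1 + q.2)) -
        ∫ q in Rg T ε, (dA1 G n q.1 (q.1 + q.2) + dA2 G n q.1 (q.1 + q.2)) := by
    have hi : IntegrableOn (fun q : ℝ × ℝ => dA1 G n q.1 (q.1 + q.2) + dA2 G n q.1 (q.1 + q.2))
        (Rg T ε) := (intOn H (c_dA1 H) h0).add (intOn H (c_dA2 H) h0)
    rw [← integral_sub (intOn H (c_DD H) h0) hi]
    refine setIntegral_congr_fun (measurableSet_Ioc.prod measurableSet_Ioc) fun q hq => ?_
    have hd : 0 < q.2 := h0.trans hq.2.1
    have hd' : q.2 < T := by linarith [hq.2.2]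
    have := div_id H (x := q.1) (x' := q.1 + q.2) (by rw [add_sub_cancel_left, abs_of_pos hd]; exact hd)
      (by rw [add_sub_cancel_left, abs_of_pos hd]; exact hd')
    linarith
  have e2 := iter_eq H (f := fun x x' => dA1 G n x x' + dA2 G n x x')
    ((c_dA1 H).add (c_dA2 H)) h0 h1
  have e3 := ibp hT (A1 := A1 G n) (A2 := A2 G n) (a1 := dA1 G n) (a2 := dA2 G n)
    (fun x x' => by rw [A1_per1 H, A1_per2 H]) (fun x x' => by rw [dA1_per1 H, dA1_per2 H])
    (fun x x' h2 h3 => A1_d H (by rw [abs_of_pos (by linarith)]; linarith)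
      (by rw [abs_of_pos (by linarith)]; linarith))
    (fun x x' h2 h3 => A2_d H (by rw [abs_of_pos (by linarith)]; linarith)
      (by rw [abs_of_pos (by linarith)]; linarith))
    (c_dA1 H) (c_dA2 H) (c_A1 H) (c_A2 H) h0 h1
  rw [e3] at e2
  have e4 := (abs_le.mp (hf ε h0 h1)).1
  -- truncation of the density
  set F : Set (ℝ × ℝ) := (Ioc 0 T) ×ˢ (Ioo 0 T) with hF
  have hsub : Rg T ε ⊆ F := prod_mono le_rfl fun δ hδ => ⟨by linarith [hδ.1], by linarith [hδ.2]⟩
  have hmR : MeasurableSet (Rg T ε) := measurableSet_Ioc.prod measurableSet_Ioc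
  have hmF : MeasurableSet F := measurableSet_Ioc.prod measurableSet_Ioo
  have e5 : ∫ q in F \ Rg T ε, DD G n q.1 (q.1 + q.2) =
      (∫ q in F, DD G n q.1 (q.1 + q.2)) - ∫ q in Rg T ε, DD G n q.1 (q.1 + q.2) :=
    setIntegral_sdiff hmR (DD_int H) hsub
  have hvol : volume (F \ Rg T ε) ≤ ENNReal.ofReal (2 * ε * T) := by
    have h2 : volume (F \ Rg T ε) = volume F - volume (Rg T ε) := by
      refine measure_sdiff hsub hmR.nullMeasurableSet ?_
      unfold Rg
      rw [Measure.volume_eq_prod, Measure.prod_prod, Real.volume_Ioc, Real.volume_Ioc]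
      exact (ENNReal.mul_lt_top ENNReal.ofReal_lt_top ENNReal.ofReal_lt_top).ne
    rw [h2, hF]
    unfold Rg
    rw [Measure.volume_eq_prod, Measure.prod_prod, Measure.prod_prod, Real.volume_Ioc,
      Real.volume_Ioo, Real.volume_Ioc, ← ENNReal.ofReal_mul (by linarith),
      ← ENNReal.ofReal_mul (by linarith), ← ENNReal.ofReal_sub _ (by
        have : 0 ≤ T - ε - ε := by linarith
        have : 0 ≤ T - 0 := by linarith
        positivity)]
    refine ENNReal.ofReal_le_ofReal ?_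
    nlinarith
  have e6 : |∫ q in F \ Rg T ε, DD G n q.1 (q.1 + q.2)| ≤ C * (2 * ε * T) := by
    have h3 := norm_setIntegral_le_of_norm_le_const (μ := volume) (s := F \ Rg T ε)
      (f := fun q : ℝ × ℝ => DD G n q.1 (q.1 + q.2)) (C := C)
      (lt_of_le_of_lt hvol ENNReal.ofReal_lt_top)
      (fun q hq => hb q.1 q.2 hq.1.2.1 hq.1.2.2)
    rw [Real.norm_eq_abs] at h3
    refine h3.trans ?_
    have h4 : volume.real (F \ Rg T ε) ≤ 2 * ε * T := by
      unfold Measure.real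
      have := ENNReal.toReal_mono ENNReal.ofReal_ne_top hvol
      rwa [ENNReal.toReal_ofReal (by positivity)] at this
    gcongr
  have e7 := full_le H hcov
  rw [← hF] at e7
  have e8 := (abs_le.mp e6).1
  rw [e1, e2]
  nlinarith [e4, e5, e7, e8]

theorem CCf_nonneg (x x' : ℝ) : 0 ≤ CCf G n x x' := CC_nonneg (Ef_pos H x x').le

theorem CC_all (hcov : ∀ x x', x < x' → x' < x + T → ∃ τ, Leaf T τ ∧ τ x = x' ∧
    ∀ u, u1 G n (τ u) (τ (τ u)) = - u1 G n (τ u) u) (x δ : ℝ) (h0 : 0 < δ) (h1 : δ < T) :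
    CCf G n x (x + δ) = 0 := by
  have hT := H.Tpos
  obtain ⟨C, hC, hb⟩ := trunc_le H hcov
  -- zero integral on each truncated region
  have z : ∀ ε, 0 < ε → ε < T / 2 → ∫ q in Rg T ε, CCf G n q.1 (q.1 + q.2) = 0 := by
    intro ε h2 h3
    refine le_antisymm ?_ (integral_nonneg fun q => CCf_nonneg H _ _)
    refine le_of_forall_pos_le_add fun η hη => ?_
    rw [zero_add]
    set ε' := min ε (η / (C + 1)) with hε'
    have hp : 0 < ε' := lt_min h2 (by positivity)
    have hle : ε' ≤ ε := min_le_left _ _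
    have h4 := hb ε' hp (by linarith)
    have h5 : C * ε' ≤ η := by
      have : ε' ≤ η / (C + 1) := min_le_right _ _
      calc C * ε' ≤ C * (η / (C + 1)) := by gcongr
        _ = η * (C / (C + 1)) := by ring
        _ ≤ η * 1 := by
          gcongr
          rw [div_le_one (by positivity)]; linarith
        _ = η := mul_one _
    have h6 : ∫ q in Rg T ε, CCf G n q.1 (q.1 + q.2) ≤ ∫ q in Rg T ε', CCf G n q.1 (q.1 + q.2) := by
      refine setIntegral_mono_set (intOn H (c_CCf H) hp)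
        (Filter.Eventually.of_forall fun q => CCf_nonneg H _ _) ?_
      exact (prod_mono le_rfl (Ioc_subset_Ioc hle (by linarith))).eventuallyLE
    linarith
  -- vanishing on the open rectangle
  have z2 : ∀ x ∈ Ioo 0 T, ∀ δ ∈ Ioo 0 T, CCf G n x (x + δ) = 0 := by
    intro x hx δ hδ
    set ε := min (δ / 2) ((T - δ) / 2) with hε
    have hp : 0 < ε := lt_min (by linarith [hδ.1]) (by linarith [hδ.2])
    have h2 : ε < δ := lt_of_le_of_lt (min_le_left _ _) (by linarith [hδ.1])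
    have h3 : ε < T - δ := lt_of_le_of_lt (min_le_right _ _) (by linarith [hδ.2])
    have h4 := z ε hp (by linarith)
    have h5 := (setIntegral_eq_zero_iff_of_nonneg_ae
      (Filter.Eventually.of_forall fun q => CCf_nonneg H _ _) (intOn H (c_CCf H) hp)).mp h4
    set U : Set (ℝ × ℝ) := Ioo 0 T ×ˢ Ioo ε (T - ε) with hU
    have hUo : IsOpen U := isOpen_Ioo.prod isOpen_Ioo
    have h6 : (fun q : ℝ × ℝ => CCf G n q.1 (q.1 + q.2)) =ᵐ[volume.restrict U] 0 :=
      ae_restrict_of_ae_restrict_of_subset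
        (prod_mono Ioo_subset_Ioc_self Ioo_subset_Ioc_self) h5
    have hcU : ContinuousOn (fun q : ℝ × ℝ => CCf G n q.1 (q.1 + q.2)) U :=
      (co H (c_CCf H)).mono (prod_mono (subset_univ _) fun d hd =>
        ⟨by linarith [hd.1], by linarith [hd.2]⟩)
    have h7 := Measure.eqOn_open_of_ae_eq h6 hUo hcU continuousOn_const
    exact h7 (show (x, δ) ∈ U from ⟨hx, h2, by linarith⟩)
  -- all `x`
  have hc : Continuous (fun x => CCf G n x (x + δ)) := by
    have := (co H (c_CCf H)).comp (Continuous.prodMk_left δ).continuousOn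
      (s := univ) (fun x _ => ⟨mem_univ _, h0, h1⟩)
    exact continuousOn_univ.mp this
  have hper : Function.Periodic (fun x => CCf G n x (x + δ)) T := by
    intro x
    simp only
    have e : x + T + δ = x + δ + T := by ring
    rw [e, CCf_per1 H, CCf_per2 H]
  obtain ⟨y, hy, hxy⟩ := hper.exists_mem_Ico₀ hT x
  rw [hxy]
  have hcl : closure (Ioo 0 T) ⊆ {x | CCf G n x (x + δ) = 0} :=
    (isClosed_eq hc continuous_const).closure_subset_iff.mpr fun x hx => z2 x hx δ ⟨h0, h1⟩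
  rw [closure_Ioo hT.ne] at hcl
  exact hcl ⟨hy.1, hy.2.le⟩

/-- conclusion of the analytic core -/
theorem core (hcov : ∀ x x', x < x' → x' < x + T → ∃ τ, Leaf T τ ∧ τ x = x' ∧
    ∀ u, u1 G n (τ u) (τ (τ u)) = - u1 G n (τ u) u) :
    (∀ x x', 0 < |x' - x| → |x' - x| < T → Dk G n 0 0 x x' = Dk G n 0 0 x' x) ∧
    ∀ x x', 0 < |x' - x| → |x' - x| < T → u1 G n x x' + u2 G n x x' = 0 := by
  have hT := H.Tpos
  have hc : ∀ x x', 0 < |x' - x| → |x' - x| < T → CCf G n x x' = 0 := by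
    intro x x' h0 h1
    have hne : x' - x ≠ 0 := abs_pos.mp h0
    obtain ⟨h2, h3⟩ := abs_lt.mp h1
    rcases lt_or_gt_of_ne hne with h | h
    · have := CC_all H hcov x (x' - x + T) (by linarith) (by linarith)
      have e : x + (x' - x + T) = x' + T := by ring
      rwa [e, CCf_per2 H] at this
    · have := CC_all H hcov x (x' - x) (by linarith) (by linarith)
      have e : x + (x' - x) = x' := by ring
      rwa [e] at this
  have hW : ∀ x x', 0 < |x' - x| → |x' - x| < T → Wf G n x x' = 0 := fun x x' h0 h1 =>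
    CC_zero (Ef_pos H x x') (hc x x' h0 h1)
  refine ⟨fun x x' h0 h1 => ?_, fun x x' h0 h1 => ?_⟩
  · have h2 := hW x x' h0 h1
    have p1 := D_pos H h0 h1
    have p2 := D_pos H (sw H h0 h1).1 (sw H h0 h1).2
    unfold Wf at h2
    have h3 : Real.log (Dk G n 0 0 x x') = Real.log (Dk G n 0 0 x' x) := by linarith
    exact Real.log_injOn_pos p1 p2 h3
  · have h2 := hc x x' h0 h1
    have h3 := hW x x' h0 h1
    unfold CCf at h2
    rw [h3] at h2
    have h4 := CC_zero' (Ef_pos H x x') h2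
    -- `w1 = 0`, `w2 = 0`
    have hopen : IsOpen {z : ℝ | 0 < |x' - z| ∧ |x' - z| < T} :=
      (isOpen_lt continuous_const (continuous_const.sub continuous_id).abs).inter
        (isOpen_lt (continuous_const.sub continuous_id).abs continuous_const)
    have hopen' : IsOpen {z : ℝ | 0 < |z - x| ∧ |z - x| < T} :=
      (isOpen_lt continuous_const (continuous_id.sub continuous_const).abs).inter
        (isOpen_lt (continuous_id.sub continuous_const).abs continuous_const)
    have hw1 : w1 G n x x' = 0 := by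
      have h5 : (fun z => Wf G n z x') =ᶠ[𝓝 x] fun _ => (0 : ℝ) := by
        filter_upwards [hopen.mem_nhds (show x ∈ {z : ℝ | 0 < |x' - z| ∧ |x' - z| < T} from
          ⟨h0, h1⟩)] with z hz
        exact hW z x' hz.1 hz.2
      exact ((Wf_d1 H h0 h1).congr_of_eventuallyEq h5.symm).unique (hasDerivAt_const x 0)
    have hw2 : w2 G n x x' = 0 := by
      have h5 : (fun z => Wf G n x z) =ᶠ[𝓝 x'] fun _ => (0 : ℝ) := by
        filter_upwards [hopen'.mem_nhds (show x' ∈ {z : ℝ | 0 < |z - x| ∧ |z - x| < T} from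
          ⟨h0, h1⟩)] with z hz
        exact hW x z hz.1 hz.2
      exact ((Wf_d2 H h0 h1).congr_of_eventuallyEq h5.symm).unique (hasDerivAt_const x' 0)
    unfold w1 at hw1
    unfold w2 at hw2
    unfold v1 v2 at h4
    linarith

end

end Pool.Agent.TH229.PG
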