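import Pool.Agent.TH229.PG.HopfDefs

/-!
Normalised closed space curves `Γ = G 0` (dual lift of a convex curve), the kernel
`D x x' = det (Γ x) (Γ' x) (Γ x')` and its derivatives.
-/

set_option autoImplicit false

namespace Pool.Agent.TH229.PG

open Real Filter Topology MeasureTheory Set

/-- scalar product of `ℝ³` -/
noncomputable def dot (u v : Fin 3 → ℝ) : ℝ := u 0 * v 0 + u 1 * v 1 + u 2 * v 2

/-- vector product of `ℝ³` -/
noncomputable def crs (u v : Fin 3 → ℝ) : Fin 3 → ℝ :=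
  ![u 1 * v 2 - u 2 * v 1, u 2 * v 0 - u 0 * v 2, u 0 * v 1 - u 1 * v 0]

@[simp] theorem crs0 (u v : Fin 3 → ℝ) : crs u v 0 = u 1 * v 2 - u 2 * v 1 := rfl
@[simp] theorem crs1 (u v : Fin 3 → ℝ) : crs u v 1 = u 2 * v 0 - u 0 * v 2 := rfl
@[simp] theorem crs2 (u v : Fin 3 → ℝ) : crs u v 2 = u 0 * v 1 - u 1 * v 0 := rfl

theorem ext3 {u v : Fin 3 → ℝ} (h0 : u 0 = v 0) (h1 : u 1 = v 1) (h2 : u 2 = v 2) : u = v := by
  funext i; fin_cases i <;> assumption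

theorem dot_comm (u v : Fin 3 → ℝ) : dot u v = dot v u := by unfold dot; ring

theorem dot_hasDeriv {f g : ℝ → Fin 3 → ℝ} {f' g' : Fin 3 → ℝ} {x : ℝ}
    (hf : HasDerivAt f f' x) (hg : HasDerivAt g g' x) :
    HasDerivAt (fun t => dot (f t) (g t)) (dot f' (g x) + dot (f x) g') x := by
  rw [hasDerivAt_pi] at hf hg
  have := (((hf 0).mul (hg 0)).add ((hf 1).mul (hg 1))).add ((hf 2).mul (hg 2))
  refine this.congr_deriv ?_
  unfold dot; ring

theorem dot_hasDeriv_left {f : ℝ → Fin 3 → ℝ} {f' : Fin 3 → ℝ} {x : ℝ}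
    (hf : HasDerivAt f f' x) (v : Fin 3 → ℝ) :
    HasDerivAt (fun t => dot (f t) v) (dot f' v) x := by
  have := dot_hasDeriv hf (hasDerivAt_const x v)
  refine this.congr_deriv ?_
  unfold dot; simp

theorem dot_hasDeriv_right {g : ℝ → Fin 3 → ℝ} {g' : Fin 3 → ℝ} {x : ℝ}
    (hg : HasDerivAt g g' x) (v : Fin 3 → ℝ) :
    HasDerivAt (fun t => dot v (g t)) (dot v g') x := by
  have := dot_hasDeriv (hasDerivAt_const x v) hg
  refine this.congr_deriv ?_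
  unfold dot; simp

theorem crs_hasDeriv {f g : ℝ → Fin 3 → ℝ} {f' g' : Fin 3 → ℝ} {x : ℝ}
    (hf : HasDerivAt f f' x) (hg : HasDerivAt g g' x) :
    HasDerivAt (fun t => crs (f t) (g t)) (crs f' (g x) + crs (f x) g') x := by
  rw [hasDerivAt_pi] at hf hg ⊢
  intro i
  fin_cases i
  · have := ((hf 1).mul (hg 2)).sub ((hf 2).mul (hg 1))
    refine this.congr_deriv ?_
    simp; ring
  · have := ((hf 2).mul (hg 0)).sub ((hf 0).mul (hg 2))
    refine this.congr_deriv ?_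
    simp; ring
  · have := ((hf 0).mul (hg 1)).sub ((hf 1).mul (hg 0))
    refine this.congr_deriv ?_
    simp; ring

/-- a closed normalised curve `G 0` with all its derivatives `G i`, its field of normals
`n 0 = G 0 × G 1` with all derivatives `n i` -/
structure Curve (T : ℝ) (G n : ℕ → ℝ → (Fin 3 → ℝ)) : Prop where
  Tpos : 0 < T
  dG : ∀ i x, HasDerivAt (G i) (G (i + 1) x) x
  dn : ∀ i x, HasDerivAt (n i) (n (i + 1) x) x
  pG : ∀ i x, G i (x + T) = G i x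
  pn : ∀ i x, n i (x + T) = n i x
  n0 : ∀ x, n 0 x = crs (G 0 x) (G 1 x)
  unit : ∀ x, dot (n 0 x) (G 2 x) = 1
  pos : ∀ x x', x < x' → x' < x + T → 0 < dot (n 0 x) (G 0 x')

namespace Curve
variable {T : ℝ} {G n : ℕ → ℝ → (Fin 3 → ℝ)} (H : Curve T G n)
include H

theorem n1 (x : ℝ) : n 1 x = crs (G 0 x) (G 2 x) := by
  have h1 := H.dn 0 x
  have h2 := crs_hasDeriv (H.dG 0 x) (H.dG 1 x)
  have e : (fun t => crs (G 0 t) (G 1 t)) = n 0 := funext fun t => (H.n0 t).symm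
  rw [e] at h2
  have h3 := h1.unique h2
  simp only [zero_add] at h3
  rw [h3]
  refine ext3 ?_ ?_ ?_ <;> simp <;> ring

theorem contG (i : ℕ) : Continuous (G i) :=
  continuous_iff_continuousAt.mpr fun x => (H.dG i x).continuousAt

theorem contn (i : ℕ) : Continuous (n i) :=
  continuous_iff_continuousAt.mpr fun x => (H.dn i x).continuousAt

end Curve

/-- derivatives of the kernel: `Dk n G i j x x' = ∂ᵢ∂ⱼ D` -/
noncomputable def Dk (G n : ℕ → ℝ → (Fin 3 → ℝ)) (i j : ℕ) (x x' : ℝ) : ℝ :=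
  dot (n i x) (G j x')

/-- first logarithmic derivatives of the kernel -/
noncomputable def u1 (G n : ℕ → ℝ → (Fin 3 → ℝ)) (x x' : ℝ) : ℝ := Dk G n 1 0 x x' / Dk G n 0 0 x x'
noncomputable def u2 (G n : ℕ → ℝ → (Fin 3 → ℝ)) (x x' : ℝ) : ℝ := Dk G n 0 1 x x' / Dk G n 0 0 x x'
/-- second logarithmic derivatives of the kernel -/
noncomputable def u11 (G n : ℕ → ℝ → (Fin 3 → ℝ)) (x x' : ℝ) : ℝ :=
  Dk G n 2 0 x x' / Dk G n 0 0 x x' - u1 G n x x' ^ 2
noncomputable def u22 (G n : ℕ → ℝ → (Fin 3 → ℝ)) (x x' : ℝ) : ℝ :=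
  Dk G n 0 2 x x' / Dk G n 0 0 x x' - u2 G n x x' ^ 2
noncomputable def aa (G n : ℕ → ℝ → (Fin 3 → ℝ)) (x x' : ℝ) : ℝ :=
  Dk G n 0 0 x' x / Dk G n 0 0 x x' ^ 2

section
variable {T : ℝ} {G n : ℕ → ℝ → (Fin 3 → ℝ)} (H : Curve T G n)
include H

theorem Dk_d1 (i j : ℕ) (x x' : ℝ) :
    HasDerivAt (fun z => Dk G n i j z x') (Dk G n (i + 1) j x x') x :=
  dot_hasDeriv_left (H.dn i x) _

theorem Dk_d2 (i j : ℕ) (x x' : ℝ) :
    HasDerivAt (fun z => Dk G n i j x z) (Dk G n i (j + 1) x x') x' :=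
  dot_hasDeriv_right (H.dG j x') _

theorem Dk_per1 (i j : ℕ) (x x' : ℝ) : Dk G n i j (x + T) x' = Dk G n i j x x' := by
  unfold Dk; rw [H.pn]

theorem Dk_per2 (i j : ℕ) (x x' : ℝ) : Dk G n i j x (x' + T) = Dk G n i j x x' := by
  unfold Dk; rw [H.pG]

/-- positivity of the kernel -/
theorem D_pos {x x' : ℝ} (h0 : 0 < |x' - x|) (h1 : |x' - x| < T) : 0 < Dk G n 0 0 x x' := by
  have hne : x' - x ≠ 0 := abs_pos.mp h0
  obtain ⟨h2, h3⟩ := abs_lt.mp h1
  rcases lt_or_gt_of_ne hne with h | h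
  · have := H.pos x (x' + T) (by linarith) (by linarith)
    unfold Dk
    rwa [H.pG] at this
  · exact H.pos x x' (by linarith) (by linarith)

theorem aa_pos {x x' : ℝ} (h0 : 0 < |x' - x|) (h1 : |x' - x| < T) : 0 < aa G n x x' := by
  unfold aa
  have e1 := D_pos H h0 h1
  have e2 := D_pos H (x := x') (x' := x) (by rwa [abs_sub_comm]) (by rwa [abs_sub_comm])
  positivity

/-- Plücker relation -/
theorem plucker (x x' : ℝ) : Dk G n 1 1 x x' * Dk G n 0 0 x x' - Dk G n 1 0 x x' * Dk G n 0 1 x x' =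
    Dk G n 0 0 x' x := by
  have hu := H.unit x
  unfold Dk
  rw [H.n0 x, H.n0 x', H.n1 x]
  rw [H.n0 x] at hu
  simp only [dot, crs0, crs1, crs2] at hu ⊢
  set a0 := G 0 x 0
  set a1 := G 0 x 1
  set a2 := G 0 x 2
  set b0 := G 1 x 0
  set b1 := G 1 x 1
  set b2 := G 1 x 2
  set c0 := G 2 x 0
  set c1 := G 2 x 1
  set c2 := G 2 x 2
  set p0 := G 0 x' 0
  set p1 := G 0 x' 1
  set p2 := G 0 x' 2
  set q0 := G 1 x' 0
  set q1 := G 1 x' 1
  set q2 := G 1 x' 2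
  linear_combination ((p1 * q2 - p2 * q1) * a0 + (p2 * q0 - p0 * q2) * a1 +
    (p0 * q1 - p1 * q0) * a2) * hu

theorem u1_d1 {x x' : ℝ} (h : Dk G n 0 0 x x' ≠ 0) :
    HasDerivAt (fun z => u1 G n z x') (u11 G n x x') x := by
  have := (Dk_d1 H 1 0 x x').div (Dk_d1 H 0 0 x x') h
  refine this.congr_deriv ?_
  unfold u11 u1
  field_simp

theorem u2_d2 {x x' : ℝ} (h : Dk G n 0 0 x x' ≠ 0) :
    HasDerivAt (fun z => u2 G n x z) (u22 G n x x') x' := by
  have := (Dk_d2 H 0 1 x x').div (Dk_d2 H 0 0 x x') h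
  refine this.congr_deriv ?_
  unfold u22 u2
  field_simp

theorem u1_d2 {x x' : ℝ} (h : Dk G n 0 0 x x' ≠ 0) :
    HasDerivAt (fun z => u1 G n x z) (aa G n x x') x' := by
  have := (Dk_d2 H 1 0 x x').div (Dk_d2 H 0 0 x x') h
  refine this.congr_deriv ?_
  have hp := plucker H x x'
  unfold aa
  rw [← hp]

theorem u2_d1 {x x' : ℝ} (h : Dk G n 0 0 x x' ≠ 0) :
    HasDerivAt (fun z => u2 G n z x') (aa G n x x') x := by
  have := (Dk_d1 H 0 1 x x').div (Dk_d1 H 0 0 x x') h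
  refine this.congr_deriv ?_
  have hp := plucker H x x'
  unfold aa
  rw [← hp]
  simp only [zero_add]
  congr 1
  ring

end

end Pool.Agent.TH229.PG
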