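import Pool.Agent.TH229.PG.Defs

/-!
Orders of vanishing on the diagonal.
-/

set_option autoImplicit false

namespace Pool.Agent.TH229.PG

open Real Filter Topology MeasureTheory Set

theorem growth {f f' : ℝ → ℝ} (hf : ∀ t, HasDerivAt f (f' t) t) (h0 : f 0 = 0) {C : ℝ}
    (hC : 0 ≤ C) (k : ℕ) (hb : ∀ t, |f' t| ≤ C * |t| ^ k) (t : ℝ) : |f t| ≤ C * |t| ^ (k + 1) := by
  have h := (convex_uIcc (0 : ℝ) t).norm_image_sub_le_of_norm_hasDerivWithin_le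
    (f := f) (f' := f') (C := C * |t| ^ k) (fun x _ => (hf x).hasDerivWithinAt)
    (fun x hx => by
      have hxt : |x| ≤ |t| := by
        have := abs_sub_left_of_mem_uIcc hx
        simpa using this
      calc ‖f' x‖ = |f' x| := rfl
        _ ≤ C * |x| ^ k := hb x
        _ ≤ C * |t| ^ k := by gcongr) left_mem_uIcc right_mem_uIcc
  rw [h0, sub_zero, sub_zero] at h
  calc |f t| = ‖f t‖ := rfl
    _ ≤ _ := h
    _ = _ := by rw [Real.norm_eq_abs]; ring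

/-- families `F j x δ` with `∂F j/∂δ = F (j+1)`, bounded -/
structure Jet (F : ℕ → ℝ → ℝ → ℝ) : Prop where
  d : ∀ j x δ, HasDerivAt (fun δ => F j x δ) (F (j + 1) x δ) δ
  b : ∀ j, ∃ C, 0 ≤ C ∧ ∀ x δ, |F j x δ| ≤ C

theorem Jet.sub {F F' : ℕ → ℝ → ℝ → ℝ} (h : Jet F) (h' : Jet F') :
    Jet (fun j x δ => F j x δ - F' j x δ) := by
  refine ⟨fun j x δ => (h.d j x δ).sub (h'.d j x δ), fun j => ?_⟩
  obtain ⟨C, hC, h1⟩ := h.b j
  obtain ⟨C', hC', h2⟩ := h'.b j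
  exact ⟨C + C', by positivity, fun x δ => (abs_sub _ _).trans (add_le_add (h1 x δ) (h2 x δ))⟩

theorem grow' {F : ℕ → ℝ → ℝ → ℝ} (hd : ∀ j x δ, HasDerivAt (fun δ => F j x δ) (F (j + 1) x δ) δ)
    (k : ℕ) : ∀ i, (∃ C, 0 ≤ C ∧ ∀ x δ, |F (i + k) x δ| ≤ C) → (∀ j, i ≤ j → j < i + k →
    ∀ x, F j x 0 = 0) → ∃ C, 0 ≤ C ∧ ∀ x δ, |F i x δ| ≤ C * |δ| ^ k := by
  induction k with
  | zero =>
    intro i hb _
    obtain ⟨C, hC, h1⟩ := hb
    exact ⟨C, hC, fun x δ => by simpa using h1 x δ⟩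
  | succ k ih =>
    intro i hb hi
    have hb' : ∃ C, 0 ≤ C ∧ ∀ x δ, |F (i + 1 + k) x δ| ≤ C := by
      have e : i + 1 + k = i + (k + 1) := by omega
      rw [e]; exact hb
    obtain ⟨C, hC, h1⟩ := ih (i + 1) hb' (fun j h1 h2 => hi j (by omega) (by omega))
    exact ⟨C, hC, fun x δ => growth (fun t => hd i x t) (hi i le_rfl (by omega) x) hC k
      (fun t => h1 x t) δ⟩

theorem Jet.grow {F : ℕ → ℝ → ℝ → ℝ} (h : Jet F) (k : ℕ) (i : ℕ) (h0 : ∀ j, i ≤ j → j < i + k →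
    ∀ x, F j x 0 = 0) : ∃ C, 0 ≤ C ∧ ∀ x δ, |F i x δ| ≤ C * |δ| ^ k :=
  grow' h.d k i (h.b (i + k)) h0

/-- order of a function of `x, δ` near `δ = 0` -/
def Ord (T : ℝ) (k : ℤ) (f : ℝ → ℝ → ℝ) : Prop :=
  ∃ C, 0 ≤ C ∧ ∀ x δ, 0 < |δ| → |δ| ≤ T / 2 → |f x δ| ≤ C * |δ| ^ k

namespace Ord
variable {T : ℝ} {k l : ℤ} {f g : ℝ → ℝ → ℝ}

theorem add (hf : Ord T k f) (hg : Ord T k g) : Ord T k (fun x δ => f x δ + g x δ) := by
  obtain ⟨C, hC, h1⟩ := hf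
  obtain ⟨C', hC', h2⟩ := hg
  refine ⟨C + C', by positivity, fun x δ h h' => ?_⟩
  have := abs_add_le (f x δ) (g x δ)
  have := h1 x δ h h'
  have := h2 x δ h h'
  rw [add_mul]; linarith

theorem neg (hf : Ord T k f) : Ord T k (fun x δ => - f x δ) := by
  obtain ⟨C, hC, h1⟩ := hf
  exact ⟨C, hC, fun x δ h h' => by rw [abs_neg]; exact h1 x δ h h'⟩

theorem sub (hf : Ord T k f) (hg : Ord T k g) : Ord T k (fun x δ => f x δ - g x δ) := by
  have := hf.add hg.neg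
  simpa only [← sub_eq_add_neg] using this

theorem cmul (c : ℝ) (hf : Ord T k f) : Ord T k (fun x δ => c * f x δ) := by
  obtain ⟨C, hC, h1⟩ := hf
  refine ⟨|c| * C, by positivity, fun x δ h h' => ?_⟩
  rw [abs_mul, mul_assoc]
  exact mul_le_mul_of_nonneg_left (h1 x δ h h') (abs_nonneg c)

theorem mul (hf : Ord T k f) (hg : Ord T l g) {m : ℤ} (hm : k + l = m) :
    Ord T m (fun x δ => f x δ * g x δ) := by
  obtain ⟨C, hC, h1⟩ := hf
  obtain ⟨C', hC', h2⟩ := hg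
  refine ⟨C * C', by positivity, fun x δ h h' => ?_⟩
  rw [abs_mul, ← hm, zpow_add₀ h.ne']
  calc |f x δ| * |g x δ| ≤ (C * |δ| ^ k) * (C' * |δ| ^ l) :=
        mul_le_mul (h1 x δ h h') (h2 x δ h h') (abs_nonneg _) (by positivity)
    _ = C * C' * (|δ| ^ k * |δ| ^ l) := by ring

theorem sq (hf : Ord T k f) {m : ℤ} (hm : k + k = m) : Ord T m (fun x δ => f x δ ^ 2) := by
  have := hf.mul hf hm
  simpa only [← pow_two] using this

theorem mono (hT : 0 < T) (hf : Ord T k f) (hlk : l ≤ k) : Ord T l f := by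
  obtain ⟨C, hC, h1⟩ := hf
  refine ⟨C * (T / 2) ^ (k - l), by positivity, fun x δ h h' => ?_⟩
  have e : |δ| ^ k = |δ| ^ (k - l) * |δ| ^ l := by
    rw [← zpow_add₀ h.ne']; congr 1; ring
  refine (h1 x δ h h').trans ?_
  rw [e, mul_assoc]
  have h3 : |δ| ^ (k - l) ≤ (T / 2) ^ (k - l) :=
    zpow_le_zpow_left₀ (by omega) h.le h'
  have h4 : (0 : ℝ) ≤ |δ| ^ l := by positivity
  have := mul_le_mul_of_nonneg_right h3 h4
  exact mul_le_mul_of_nonneg_left this hC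

theorem congr (hf : Ord T k f) (h : ∀ x δ, 0 < |δ| → |δ| ≤ T / 2 → g x δ = f x δ) :
    Ord T k g := by
  obtain ⟨C, hC, h1⟩ := hf
  exact ⟨C, hC, fun x δ h2 h3 => by rw [h x δ h2 h3]; exact h1 x δ h2 h3⟩

theorem of_le (hf : Ord T k f) (h : ∀ x δ, 0 < |δ| → |δ| ≤ T / 2 → |g x δ| ≤ |f x δ|) :
    Ord T k g := by
  obtain ⟨C, hC, h1⟩ := hf
  exact ⟨C, hC, fun x δ h2 h3 => (h x δ h2 h3).trans (h1 x δ h2 h3)⟩

end Ord

theorem Jet.ord {F : ℕ → ℝ → ℝ → ℝ} (h : Jet F) (T : ℝ) {k : ℕ} {i : ℕ} {m : ℤ}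
    (h0 : ∀ j, i ≤ j → j < i + k → ∀ x, F j x 0 = 0) (hm : (k : ℤ) = m) : Ord T m (F i) := by
  obtain ⟨C, hC, h1⟩ := h.grow k i h0
  refine ⟨C, hC, fun x δ _ _ => ?_⟩
  rw [← hm, zpow_natCast]
  exact h1 x δ

/-- jets of `α(x)·β(x+δ)` -/
noncomputable def J0 (α β : ℕ → ℝ → (Fin 3 → ℝ)) (j : ℕ) (x δ : ℝ) : ℝ :=
  dot (α 0 x) (β j (x + δ))
noncomputable def J1 (α β : ℕ → ℝ → (Fin 3 → ℝ)) (j : ℕ) (x δ : ℝ) : ℝ :=
  dot (α 1 x) (β j (x + δ)) + dot (α 0 x) (β (j + 1) (x + δ))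
noncomputable def J2 (α β : ℕ → ℝ → (Fin 3 → ℝ)) (j : ℕ) (x δ : ℝ) : ℝ :=
  dot (α 2 x) (β j (x + δ)) + 2 * dot (α 1 x) (β (j + 1) (x + δ)) +
    dot (α 0 x) (β (j + 2) (x + δ))

/-- a sequence of successive derivatives, periodic -/
structure Sq (T : ℝ) (α : ℕ → ℝ → (Fin 3 → ℝ)) : Prop where
  d : ∀ i x, HasDerivAt (α i) (α (i + 1) x) x
  p : ∀ i x, α i (x + T) = α i x

theorem bdd_of_per {T : ℝ} (hT : 0 < T) {f : ℝ → ℝ} (hf : Continuous f)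
    (hp : ∀ x, f (x + T) = f x) : ∃ B, 0 ≤ B ∧ ∀ x, |f x| ≤ B := by
  have hc : IsCompact (f '' Icc 0 T) := isCompact_Icc.image hf
  obtain ⟨B, hB⟩ := hc.isBounded.exists_norm_le
  have h2 : ∀ x, |f x| ≤ B := by
    intro x
    have hp : Function.Periodic f T := hp
    obtain ⟨y, hy, hxy⟩ := hp.exists_mem_Ico₀ hT x
    rw [hxy]
    exact hB _ ⟨y, ⟨hy.1, hy.2.le⟩, rfl⟩
  exact ⟨B, (abs_nonneg _).trans (h2 0), h2⟩

namespace Sq
variable {T : ℝ} {α β : ℕ → ℝ → (Fin 3 → ℝ)}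

theorem cont (h : Sq T α) (i : ℕ) : Continuous (α i) :=
  continuous_iff_continuousAt.mpr fun x => (h.d i x).continuousAt

theorem bdd (hT : 0 < T) (h : Sq T α) (i : ℕ) : ∃ B, 0 ≤ B ∧ ∀ x, |α i x 0| ≤ B ∧
    |α i x 1| ≤ B ∧ |α i x 2| ≤ B := by
  have hc := h.cont i
  have hk : ∀ k : Fin 3, Continuous (fun x => α i x k) := fun k => (continuous_apply k).comp hc
  obtain ⟨B0, h0, b0⟩ := bdd_of_per hT (hk 0) (fun x => by simp only [h.p])
  obtain ⟨B1, h1, b1⟩ := bdd_of_per hT (hk 1) (fun x => by simp only [h.p])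
  obtain ⟨B2, h2, b2⟩ := bdd_of_per hT (hk 2) (fun x => by simp only [h.p])
  refine ⟨B0 + B1 + B2, by positivity, fun x => ⟨?_, ?_, ?_⟩⟩
  · linarith [b0 x]
  · linarith [b1 x]
  · linarith [b2 x]

theorem dotbdd (hT : 0 < T) (h : Sq T α) (h' : Sq T β) (i j : ℕ) :
    ∃ C, 0 ≤ C ∧ ∀ x δ, |dot (α i x) (β j (x + δ))| ≤ C := by
  obtain ⟨B, hB, b⟩ := h.bdd hT i
  obtain ⟨B', hB', b'⟩ := h'.bdd hT j
  refine ⟨3 * (B * B'), by positivity, fun x δ => ?_⟩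
  unfold dot
  have e0 : |α i x 0 * β j (x + δ) 0| ≤ B * B' := by
    rw [abs_mul]; exact mul_le_mul (b x).1 (b' _).1 (abs_nonneg _) hB
  have e1 : |α i x 1 * β j (x + δ) 1| ≤ B * B' := by
    rw [abs_mul]; exact mul_le_mul (b x).2.1 (b' _).2.1 (abs_nonneg _) hB
  have e2 : |α i x 2 * β j (x + δ) 2| ≤ B * B' := by
    rw [abs_mul]; exact mul_le_mul (b x).2.2 (b' _).2.2 (abs_nonneg _) hB
  have e3 := abs_add_le (α i x 0 * β j (x + δ) 0 + α i x 1 * β j (x + δ) 1)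
    (α i x 2 * β j (x + δ) 2)
  have e4 := abs_add_le (α i x 0 * β j (x + δ) 0) (α i x 1 * β j (x + δ) 1)
  linarith

theorem shift_d (h' : Sq T β) (v : Fin 3 → ℝ) (j : ℕ) (x δ : ℝ) :
    HasDerivAt (fun δ => dot v (β j (x + δ))) (dot v (β (j + 1) (x + δ))) δ := by
  have h1 : HasDerivAt (fun δ : ℝ => x + δ) 1 δ := by simpa using (hasDerivAt_id δ).const_add x
  have h2 := (h'.d j (x + δ)).scomp δ h1
  simp only [one_smul] at h2
  exact dot_hasDeriv_right h2 v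

theorem xd (h : Sq T α) (h' : Sq T β) (i j : ℕ) (x δ : ℝ) :
    HasDerivAt (fun x => dot (α i x) (β j (x + δ)))
      (dot (α (i + 1) x) (β j (x + δ)) + dot (α i x) (β (j + 1) (x + δ))) x := by
  have h1 : HasDerivAt (fun x : ℝ => x + δ) 1 x := (hasDerivAt_id x).add_const δ
  have h2 := (h'.d j (x + δ)).scomp x h1
  simp only [one_smul] at h2
  exact dot_hasDeriv (h.d i x) h2

theorem jet0 (hT : 0 < T) (h : Sq T α) (h' : Sq T β) : Jet (J0 α β) :=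
  ⟨fun j x δ => h'.shift_d _ j x δ, fun j => h.dotbdd hT h' 0 j⟩

theorem jet1 (hT : 0 < T) (h : Sq T α) (h' : Sq T β) : Jet (J1 α β) := by
  refine ⟨fun j x δ => (h'.shift_d _ j x δ).add (h'.shift_d _ (j + 1) x δ), fun j => ?_⟩
  obtain ⟨C, hC, c⟩ := h.dotbdd hT h' 1 j
  obtain ⟨C', hC', c'⟩ := h.dotbdd hT h' 0 (j + 1)
  exact ⟨C + C', by positivity, fun x δ =>
    (abs_add_le _ _).trans (add_le_add (c x δ) (c' x δ))⟩

theorem jet2 (hT : 0 < T) (h : Sq T α) (h' : Sq T β) : Jet (J2 α β) := by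
  refine ⟨fun j x δ => (((h'.shift_d _ j x δ).add ((h'.shift_d _ (j + 1) x δ).const_mul 2))).add
    (h'.shift_d _ (j + 2) x δ), fun j => ?_⟩
  obtain ⟨C, hC, c⟩ := h.dotbdd hT h' 2 j
  obtain ⟨C', hC', c'⟩ := h.dotbdd hT h' 1 (j + 1)
  obtain ⟨C'', hC'', c''⟩ := h.dotbdd hT h' 0 (j + 2)
  refine ⟨C + 2 * C' + C'', by positivity, fun x δ => ?_⟩
  unfold J2
  have e1 := abs_add_le (dot (α 2 x) (β j (x + δ)) + 2 * dot (α 1 x) (β (j + 1) (x + δ)))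
    (dot (α 0 x) (β (j + 2) (x + δ)))
  have e2 := abs_add_le (dot (α 2 x) (β j (x + δ))) (2 * dot (α 1 x) (β (j + 1) (x + δ)))
  have e3 : |2 * dot (α 1 x) (β (j + 1) (x + δ))| = 2 * |dot (α 1 x) (β (j + 1) (x + δ))| := by
    rw [abs_mul, abs_two]
  have := c x δ
  have := c' x δ
  have := c'' x δ
  linarith

theorem J0_dx (h : Sq T α) (h' : Sq T β) (j : ℕ) (x δ : ℝ) :
    HasDerivAt (fun x => J0 α β j x δ) (J1 α β j x δ) x := h.xd h' 0 j x δ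

theorem J1_dx (h : Sq T α) (h' : Sq T β) (j : ℕ) (x δ : ℝ) :
    HasDerivAt (fun x => J1 α β j x δ) (J2 α β j x δ) x := by
  have := (h.xd h' 1 j x δ).add (h.xd h' 0 (j + 1) x δ)
  refine this.congr_deriv ?_
  unfold J2; ring

/-- if `J0` is constant on the diagonal then `J1 = 0` there -/
theorem J1_zero (h : Sq T α) (h' : Sq T β) {j : ℕ} {c : ℝ} (hc : ∀ x, J0 α β j x 0 = c) (x : ℝ) :
    J1 α β j x 0 = 0 := by
  have h1 := h.J0_dx h' j x 0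
  have e : (fun x => J0 α β j x 0) = fun _ => c := funext hc
  rw [e] at h1
  exact h1.unique (hasDerivAt_const x c)

theorem J2_zero (h : Sq T α) (h' : Sq T β) {j : ℕ} {c : ℝ} (hc : ∀ x, J1 α β j x 0 = c) (x : ℝ) :
    J2 α β j x 0 = 0 := by
  have h1 := h.J1_dx h' j x 0
  have e : (fun x => J1 α β j x 0) = fun _ => c := funext hc
  rw [e] at h1
  exact h1.unique (hasDerivAt_const x c)

end Sq

section
variable {T : ℝ} {G n : ℕ → ℝ → (Fin 3 → ℝ)} (H : Curve T G n)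
include H

theorem Curve.sG : Sq T G := ⟨H.dG, H.pG⟩
theorem Curve.sn : Sq T n := ⟨H.dn, H.pn⟩

/-- differentiate a relation `n i · G j = const` -/
theorem rel {i j : ℕ} {c : ℝ} (hc : ∀ x, dot (n i x) (G j x) = c) (x : ℝ) :
    dot (n (i + 1) x) (G j x) + dot (n i x) (G (j + 1) x) = 0 := by
  have h1 := dot_hasDeriv (H.dn i x) (H.dG j x)
  have e : (fun x => dot (n i x) (G j x)) = fun _ => c := funext hc
  rw [e] at h1
  exact h1.unique (hasDerivAt_const x c)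

theorem r00 (x : ℝ) : dot (n 0 x) (G 0 x) = 0 := by rw [H.n0]; simp [dot]; ring
theorem r01 (x : ℝ) : dot (n 0 x) (G 1 x) = 0 := by rw [H.n0]; simp [dot]; ring
theorem r02 (x : ℝ) : dot (n 0 x) (G 2 x) = 1 := H.unit x
theorem r12 (x : ℝ) : dot (n 1 x) (G 2 x) = 0 := by rw [H.n1]; simp [dot]; ring
theorem r10 (x : ℝ) : dot (n 1 x) (G 0 x) = 0 := by rw [H.n1]; simp [dot]; ring
theorem r11 (x : ℝ) : dot (n 1 x) (G 1 x) = -1 := by
  have h1 : dot (n 1 x) (G 1 x) + dot (n 0 x) (G 2 x) = 0 := rel H (r01 H) x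
  have h2 := r02 H x; linarith
theorem r20 (x : ℝ) : dot (n 2 x) (G 0 x) = 1 := by
  have h1 : dot (n 2 x) (G 0 x) + dot (n 1 x) (G 1 x) = 0 := rel H (r10 H) x
  have h2 := r11 H x; linarith
theorem r03 (x : ℝ) : dot (n 0 x) (G 3 x) = 0 := by
  have h1 : dot (n 1 x) (G 2 x) + dot (n 0 x) (G 3 x) = 0 := rel H (r02 H) x
  have h2 := r12 H x; linarith
theorem r21 (x : ℝ) : dot (n 2 x) (G 1 x) = 0 := by
  have h1 : dot (n 2 x) (G 1 x) + dot (n 1 x) (G 2 x) = 0 := rel H (r11 H) x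
  have h2 := r12 H x; linarith
theorem r30 (x : ℝ) : dot (n 3 x) (G 0 x) = 0 := by
  have h1 : dot (n 3 x) (G 0 x) + dot (n 2 x) (G 1 x) = 0 := rel H (r20 H) x
  have h2 := r21 H x; linarith
theorem r4 (x : ℝ) : dot (n 0 x) (G 4 x) = dot (n 4 x) (G 0 x) := by
  have e1 : dot (n 1 x) (G 3 x) + dot (n 0 x) (G 4 x) = 0 := rel H (r03 H) x
  have e2 : dot (n 2 x) (G 2 x) + dot (n 1 x) (G 3 x) = 0 := rel H (r12 H) x
  have e3 : dot (n 4 x) (G 0 x) + dot (n 3 x) (G 1 x) = 0 := rel H (r30 H) x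
  have e4 : dot (n 3 x) (G 1 x) + dot (n 2 x) (G 2 x) = 0 := rel H (r21 H) x
  linarith

theorem vG (j : ℕ) (hj : j < 4) : ∃ c, (∀ x, J0 n G j x 0 = c) ∧ ∀ x, J0 G n j x 0 = c := by
  unfold J0
  simp only [add_zero]
  interval_cases j
  · exact ⟨0, r00 H, fun x => by rw [dot_comm]; exact r00 H x⟩
  · exact ⟨0, r01 H, fun x => by rw [dot_comm]; exact r10 H x⟩
  · exact ⟨1, r02 H, fun x => by rw [dot_comm]; exact r20 H x⟩
  · exact ⟨0, r03 H, fun x => by rw [dot_comm]; exact r30 H x⟩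

theorem vQ (j : ℕ) (hj : j < 5) (x : ℝ) : J0 G n j x 0 - J0 n G j x 0 = 0 := by
  by_cases h : j < 4
  · obtain ⟨c, h1, h2⟩ := vG H j h
    rw [h1, h2, sub_self]
  · have : j = 4 := by omega
    subst this
    unfold J0
    simp only [add_zero]
    rw [r4 H, dot_comm, sub_self]

theorem vQ1 (j : ℕ) (hj : j < 5) (x : ℝ) : J1 G n j x 0 - J1 n G j x 0 = 0 := by
  have h1 := (H.sG.J0_dx H.sn j x 0).sub (H.sn.J0_dx H.sG j x 0)
  have e : ((fun x => J0 G n j x 0) - (fun x => J0 n G j x 0)) = fun _ => (0 : ℝ) :=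
    funext fun x => vQ H j hj x
  rw [e] at h1
  exact h1.unique (hasDerivAt_const x 0)

theorem vQ2 (j : ℕ) (hj : j < 5) (x : ℝ) : J2 G n j x 0 - J2 n G j x 0 = 0 := by
  have h1 := (H.sG.J1_dx H.sn j x 0).sub (H.sn.J1_dx H.sG j x 0)
  have e : ((fun x => J1 G n j x 0) - (fun x => J1 n G j x 0)) = fun _ => (0 : ℝ) :=
    funext fun x => vQ1 H j hj x
  rw [e] at h1
  exact h1.unique (hasDerivAt_const x 0)

end

end Pool.Agent.TH229.PG
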