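import Pool.Agent.TH229.PG.Diag

/-!
Orders of the kernel, its logarithmic derivatives, and of the densities on the diagonal.
-/

set_option autoImplicit false

namespace Pool.Agent.TH229.PG

open Real Filter Topology MeasureTheory Set

theorem Ord.const {T : ℝ} (c : ℝ) : Ord T 0 (fun _ _ => c) :=
  ⟨|c|, abs_nonneg c, fun x δ _ _ => by simp⟩

/-- the comparison polynomial `δ²/2` and its derivatives -/
noncomputable def pol : ℕ → ℝ → ℝ
  | 0, δ => δ ^ 2 / 2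
  | 1, δ => δ
  | 2, _ => 1
  | _ + 3, _ => 0

theorem pol_d (j : ℕ) (δ : ℝ) : HasDerivAt (pol j) (pol (j + 1) δ) δ := by
  match j with
  | 0 =>
    have := ((hasDerivAt_id δ).pow 2).div_const 2
    refine this.congr_deriv ?_
    simp [pol]
  | 1 => exact hasDerivAt_id δ
  | 2 => exact hasDerivAt_const δ 1
  | j + 3 => exact hasDerivAt_const δ 0

/-- lower bound of a kernel -/
theorem lower {T : ℝ} (hT : 0 < T) {f : ℝ → ℝ → ℝ} (hc : Continuous (fun p : ℝ × ℝ => f p.1 p.2))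
    (hp : ∀ x δ, f (x + T) δ = f x δ) (hpos : ∀ x δ, 0 < |δ| → |δ| < T → 0 < f x δ) {C : ℝ}
    (hC : 0 ≤ C) (h4 : ∀ x δ, |f x δ - δ ^ 2 / 2| ≤ C * |δ| ^ 4) :
    ∃ c, 0 < c ∧ ∀ x δ, 0 < |δ| → |δ| ≤ T / 2 → c * |δ| ^ 2 ≤ f x δ := by
  set d : ℝ := min (T / 2) (1 / (2 * (C + 1))) with hd
  have hd0 : 0 < d := lt_min (by linarith) (by positivity)
  set S : Set (ℝ × ℝ) := Icc 0 T ×ˢ {δ : ℝ | d ≤ |δ| ∧ |δ| ≤ T / 2} with hS
  have hSc : IsCompact S := by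
    refine isCompact_Icc.prod ?_
    have h1 : {δ : ℝ | d ≤ |δ| ∧ |δ| ≤ T / 2} = {δ : ℝ | d ≤ |δ|} ∩ Icc (-(T / 2)) (T / 2) := by
      ext δ
      simp only [mem_ofPred_eq, mem_inter_iff, mem_Icc, abs_le]
    rw [h1]
    exact isCompact_Icc.inter_left (isClosed_le continuous_const continuous_abs)
  have hSn : S.Nonempty := ⟨(0, T / 2), ⟨⟨le_rfl, hT.le⟩, by
    rw [abs_of_pos (by linarith : 0 < T / 2)]; exact min_le_left _ _, by
    rw [abs_of_pos (by linarith : 0 < T / 2)]⟩⟩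
  obtain ⟨q, hq, hmin⟩ := hSc.exists_isMinOn hSn hc.continuousOn
  set m := f q.1 q.2 with hm
  have hm0 : 0 < m := hpos _ _ (hd0.trans_le hq.2.1) (by linarith [hq.2.2])
  refine ⟨min (1 / 4) (m / (T / 2) ^ 2), lt_min (by norm_num) (by positivity),
    fun x δ h0 h1 => ?_⟩
  rcases lt_or_ge |δ| d with hlt | hge
  · have e1 := abs_le.mp (h4 x δ)
    have e2 : |δ| ≤ 1 / (2 * (C + 1)) := hlt.le.trans (min_le_right _ _)
    have e3 : C * |δ| ^ 2 ≤ 1 / 4 := by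
      have h5 : |δ| ^ 2 ≤ (1 / (2 * (C + 1))) ^ 2 := by gcongr
      have h6 : C * (1 / (2 * (C + 1))) ^ 2 ≤ 1 / 4 := by
        have : C * (1 / (2 * (C + 1))) ^ 2 = (1 / 4) * (C / (C + 1) ^ 2) := by
          field_simp; ring
        rw [this]
        have : C / (C + 1) ^ 2 ≤ 1 := by
          rw [div_le_one (by positivity)]; nlinarith
        linarith
      calc C * |δ| ^ 2 ≤ C * (1 / (2 * (C + 1))) ^ 2 := by gcongr
        _ ≤ 1 / 4 := h6
    have e4 : C * |δ| ^ 4 ≤ (1 / 4) * |δ| ^ 2 := by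
      have : C * |δ| ^ 4 = (C * |δ| ^ 2) * |δ| ^ 2 := by ring
      rw [this]; gcongr
    have e5 : δ ^ 2 = |δ| ^ 2 := (sq_abs δ).symm
    have e6 : min (1 / 4) (m / (T / 2) ^ 2) * |δ| ^ 2 ≤ (1 / 4) * |δ| ^ 2 := by
      gcongr; exact min_le_left _ _
    rw [e5] at e1
    linarith [e1.1]
  · have hper : Function.Periodic (fun x => f x δ) T := fun x => hp x δ
    obtain ⟨y, hy, hxy⟩ := hper.exists_mem_Ico₀ hT x
    have e1 : m ≤ f x δ := by
      have h7 : f q.1 q.2 ≤ f y δ := hmin (show (y, δ) ∈ S from ⟨⟨hy.1, hy.2.le⟩, hge, h1⟩)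
      rw [hxy]; exact h7
    calc min (1 / 4) (m / (T / 2) ^ 2) * |δ| ^ 2 ≤ (m / (T / 2) ^ 2) * (T / 2) ^ 2 := by
          gcongr; exact min_le_right _ _
      _ = m := by field_simp
      _ ≤ _ := e1

theorem Ord.of_lower {T c : ℝ} {f : ℝ → ℝ → ℝ} (hc : 0 < c)
    (h : ∀ x δ, 0 < |δ| → |δ| ≤ T / 2 → c * |δ| ^ 2 ≤ f x δ) :
    Ord T (-2) (fun x δ => 1 / f x δ) := by
  refine ⟨1 / c, by positivity, fun x δ h0 h1 => ?_⟩
  have e1 := h x δ h0 h1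
  have e2 : 0 < c * |δ| ^ 2 := by positivity
  have e3 : 0 < f x δ := e2.trans_le e1
  rw [abs_of_pos (by positivity)]
  have e4 : |δ| ^ (-2 : ℤ) = 1 / |δ| ^ 2 := by
    rw [zpow_neg, one_div]; norm_cast
  rw [e4]
  calc 1 / f x δ ≤ 1 / (c * |δ| ^ 2) := one_div_le_one_div_of_le e2 e1
    _ = _ := by field_simp

section
variable {G n : ℕ → ℝ → (Fin 3 → ℝ)}

theorem D_eq (x δ : ℝ) : Dk G n 0 0 x (x + δ) = J0 n G 0 x δ := rfl
theorem Ds_eq (x δ : ℝ) : Dk G n 0 0 (x + δ) x = J0 G n 0 x δ := by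
  unfold Dk J0; exact dot_comm _ _
theorem D01_eq (x δ : ℝ) : Dk G n 0 1 x (x + δ) = J0 n G 1 x δ := rfl
theorem Ds10_eq (x δ : ℝ) : Dk G n 1 0 (x + δ) x = J0 G n 1 x δ := by
  unfold Dk J0; exact dot_comm _ _
theorem D10_eq (x δ : ℝ) : Dk G n 1 0 x (x + δ) = J1 n G 0 x δ - J0 n G 1 x δ := by
  unfold Dk J0 J1; simp
theorem Ds01_eq (x δ : ℝ) : Dk G n 0 1 (x + δ) x = J1 G n 0 x δ - J0 G n 1 x δ := by
  unfold Dk J0 J1; rw [dot_comm]; simp
theorem D11_eq (x δ : ℝ) : Dk G n 1 1 x (x + δ) = J1 n G 1 x δ - J0 n G 2 x δ := by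
  unfold Dk J0 J1; simp
theorem Ds11_eq (x δ : ℝ) : Dk G n 1 1 (x + δ) x = J1 G n 1 x δ - J0 G n 2 x δ := by
  unfold Dk J0 J1; rw [dot_comm]; simp
theorem D20_eq (x δ : ℝ) : Dk G n 2 0 x (x + δ) =
    J2 n G 0 x δ - 2 * J1 n G 1 x δ + J0 n G 2 x δ := by
  unfold Dk J0 J1 J2; simp; ring
theorem Ds20_eq (x δ : ℝ) : Dk G n 2 0 (x + δ) x = J0 G n 2 x δ := by
  unfold Dk J0; exact dot_comm _ _

end

section
variable {T : ℝ} {G n : ℕ → ℝ → (Fin 3 → ℝ)} (H : Curve T G n)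
include H

-- base orders
theorem o_k : Ord T 2 (J0 n G 0) := (H.sn.jet0 H.Tpos H.sG).ord T (k := 2)
  (fun j _ h x => by
    interval_cases j
    · simpa [J0] using r00 H x
    · simpa [J0] using r01 H x) rfl
theorem o_ks : Ord T 2 (J0 G n 0) := (H.sG.jet0 H.Tpos H.sn).ord T (k := 2)
  (fun j _ h x => by
    interval_cases j
    · simpa [J0, dot_comm] using r00 H x
    · simpa [J0, dot_comm] using r10 H x) rfl
theorem o_k2 : Ord T 1 (J0 n G 1) := (H.sn.jet0 H.Tpos H.sG).ord T (k := 1)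
  (fun j h1 h x => by
    have : j = 1 := by omega
    subst this
    simpa [J0] using r01 H x) rfl
theorem o_k2s : Ord T 1 (J0 G n 1) := (H.sG.jet0 H.Tpos H.sn).ord T (k := 1)
  (fun j h1 h x => by
    have : j = 1 := by omega
    subst this
    simpa [J0, dot_comm] using r10 H x) rfl
theorem o_k22 : Ord T 0 (J0 n G 2) := (H.sn.jet0 H.Tpos H.sG).ord T (k := 0)
  (fun j h1 h x => by omega) rfl
theorem o_k22s : Ord T 0 (J0 G n 2) := (H.sG.jet0 H.Tpos H.sn).ord T (k := 0)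
  (fun j h1 h x => by omega) rfl
theorem o_kx : Ord T 4 (J1 n G 0) := (H.sn.jet1 H.Tpos H.sG).ord T (k := 4)
  (fun j h1 h x => by
    obtain ⟨c, h1, h2⟩ := vG H j (by omega)
    exact H.sn.J1_zero H.sG h1 x) rfl
theorem o_kxs : Ord T 4 (J1 G n 0) := (H.sG.jet1 H.Tpos H.sn).ord T (k := 4)
  (fun j h1 h x => by
    obtain ⟨c, h1, h2⟩ := vG H j (by omega)
    exact H.sG.J1_zero H.sn h2 x) rfl
theorem o_kx2 : Ord T 3 (J1 n G 1) := (H.sn.jet1 H.Tpos H.sG).ord T (k := 3)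
  (fun j h1 h x => by
    obtain ⟨c, h1, h2⟩ := vG H j (by omega)
    exact H.sn.J1_zero H.sG h1 x) rfl
theorem o_kx2s : Ord T 3 (J1 G n 1) := (H.sG.jet1 H.Tpos H.sn).ord T (k := 3)
  (fun j h1 h x => by
    obtain ⟨c, h1, h2⟩ := vG H j (by omega)
    exact H.sG.J1_zero H.sn h2 x) rfl
theorem o_kxx : Ord T 4 (J2 n G 0) := (H.sn.jet2 H.Tpos H.sG).ord T (k := 4)
  (fun j h1 h x => by
    obtain ⟨c, h1, h2⟩ := vG H j (by omega)
    exact H.sn.J2_zero H.sG (H.sn.J1_zero H.sG h1) x) rfl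
theorem o_kxxs : Ord T 4 (J2 G n 0) := (H.sG.jet2 H.Tpos H.sn).ord T (k := 4)
  (fun j h1 h x => by
    obtain ⟨c, h1, h2⟩ := vG H j (by omega)
    exact H.sG.J2_zero H.sn (H.sG.J1_zero H.sn h2) x) rfl
theorem o_Q : Ord T 5 (fun x δ => J0 G n 0 x δ - J0 n G 0 x δ) :=
  ((H.sG.jet0 H.Tpos H.sn).sub (H.sn.jet0 H.Tpos H.sG)).ord T (k := 5)
    (fun j _ h x => vQ H j (by omega) x) rfl
theorem o_Q2 : Ord T 4 (fun x δ => J0 G n 1 x δ - J0 n G 1 x δ) :=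
  ((H.sG.jet0 H.Tpos H.sn).sub (H.sn.jet0 H.Tpos H.sG)).ord T (k := 4)
    (fun j _ h x => vQ H j (by omega) x) rfl
theorem o_Q22 : Ord T 3 (fun x δ => J0 G n 2 x δ - J0 n G 2 x δ) :=
  ((H.sG.jet0 H.Tpos H.sn).sub (H.sn.jet0 H.Tpos H.sG)).ord T (k := 3)
    (fun j _ h x => vQ H j (by omega) x) rfl
theorem o_Qx : Ord T 5 (fun x δ => J1 G n 0 x δ - J1 n G 0 x δ) :=
  ((H.sG.jet1 H.Tpos H.sn).sub (H.sn.jet1 H.Tpos H.sG)).ord T (k := 5)
    (fun j _ h x => vQ1 H j (by omega) x) rfl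
theorem o_Qx2 : Ord T 4 (fun x δ => J1 G n 1 x δ - J1 n G 1 x δ) :=
  ((H.sG.jet1 H.Tpos H.sn).sub (H.sn.jet1 H.Tpos H.sG)).ord T (k := 4)
    (fun j _ h x => vQ1 H j (by omega) x) rfl

/-- fourth order comparison -/
theorem cmp4 : ∃ C, 0 ≤ C ∧ (∀ x δ, |J0 n G 0 x δ - δ ^ 2 / 2| ≤ C * |δ| ^ 4) ∧
    ∀ x δ, |J0 n G 1 x δ - δ| ≤ C * |δ| ^ 3 := by
  have hd : ∀ j x δ, HasDerivAt (fun δ => J0 n G j x δ - pol j δ)
      (J0 n G (j + 1) x δ - pol (j + 1) δ) δ := fun j x δ =>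
    ((H.sn.jet0 H.Tpos H.sG).d j x δ).sub (pol_d j δ)
  obtain ⟨B, hB, b⟩ := (H.sn.jet0 H.Tpos H.sG).b 4
  have h0 : ∀ j, j < 4 → ∀ x, J0 n G j x 0 - pol j 0 = 0 := by
    intro j hj x
    unfold J0
    rw [add_zero]
    interval_cases j
    · rw [r00 H]; simp [pol]
    · rw [r01 H]; simp [pol]
    · rw [r02 H]; simp [pol]
    · rw [r03 H]; simp [pol]
  obtain ⟨C, hC, h1⟩ := grow' (F := fun j x δ => J0 n G j x δ - pol j δ) hd 4 0
    ⟨B, hB, fun x δ => by simpa [pol] using b x δ⟩ (fun j _ hj x => h0 j (by omega) x)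
  obtain ⟨C', hC', h2⟩ := grow' (F := fun j x δ => J0 n G j x δ - pol j δ) hd 3 1
    ⟨B, hB, fun x δ => by simpa [pol] using b x δ⟩ (fun j _ hj x => h0 j (by omega) x)
  refine ⟨C + C', by positivity, fun x δ => ?_, fun x δ => ?_⟩
  · have := h1 x δ
    simp only [pol] at this
    have h3 : C * |δ| ^ 4 ≤ (C + C') * |δ| ^ 4 := by gcongr; linarith
    linarith
  · have := h2 x δ
    simp only [pol] at this
    have h3 : C' * |δ| ^ 3 ≤ (C + C') * |δ| ^ 3 := by gcongr; linarith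
    linarith

theorem cmp4s : ∃ C, 0 ≤ C ∧ (∀ x δ, |J0 G n 0 x δ - δ ^ 2 / 2| ≤ C * |δ| ^ 4) := by
  have hd : ∀ j x δ, HasDerivAt (fun δ => J0 G n j x δ - pol j δ)
      (J0 G n (j + 1) x δ - pol (j + 1) δ) δ := fun j x δ =>
    ((H.sG.jet0 H.Tpos H.sn).d j x δ).sub (pol_d j δ)
  obtain ⟨B, hB, b⟩ := (H.sG.jet0 H.Tpos H.sn).b 4
  have h0 : ∀ j, j < 4 → ∀ x, J0 G n j x 0 - pol j 0 = 0 := by
    intro j hj x
    unfold J0
    rw [add_zero, dot_comm]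
    interval_cases j
    · rw [r00 H]; simp [pol]
    · rw [r10 H]; simp [pol]
    · rw [r20 H]; simp [pol]
    · rw [r30 H]; simp [pol]
  obtain ⟨C, hC, h1⟩ := grow' (F := fun j x δ => J0 G n j x δ - pol j δ) hd 4 0
    ⟨B, hB, fun x δ => by simpa [pol] using b x δ⟩ (fun j _ hj x => h0 j (by omega) x)
  exact ⟨C, hC, fun x δ => by simpa only [pol] using h1 x δ⟩

theorem J0_cont (j : ℕ) : Continuous (fun p : ℝ × ℝ => J0 n G j p.1 p.2) ∧
    Continuous (fun p : ℝ × ℝ => J0 G n j p.1 p.2) := by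
  have hG := fun i => H.contG i
  have hn := fun i => H.contn i
  have hGk : ∀ i (k : Fin 3), Continuous (fun x => G i x k) :=
    fun i k => (continuous_apply k).comp (hG i)
  have hnk : ∀ i (k : Fin 3), Continuous (fun x => n i x k) :=
    fun i k => (continuous_apply k).comp (hn i)
  have s : Continuous (fun p : ℝ × ℝ => p.1 + p.2) := continuous_fst.add continuous_snd
  unfold J0 dot
  constructor
  · exact ((((hnk 0 0).comp continuous_fst).mul ((hGk j 0).comp s)).add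
      (((hnk 0 1).comp continuous_fst).mul ((hGk j 1).comp s))).add
      (((hnk 0 2).comp continuous_fst).mul ((hGk j 2).comp s))
  · exact ((((hGk 0 0).comp continuous_fst).mul ((hnk j 0).comp s)).add
      (((hGk 0 1).comp continuous_fst).mul ((hnk j 1).comp s))).add
      (((hGk 0 2).comp continuous_fst).mul ((hnk j 2).comp s))

theorem low : ∃ c, 0 < c ∧ (∀ x δ, 0 < |δ| → |δ| ≤ T / 2 → c * |δ| ^ 2 ≤ J0 n G 0 x δ) ∧
    ∀ x δ, 0 < |δ| → |δ| ≤ T / 2 → c * |δ| ^ 2 ≤ J0 G n 0 x δ := by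
  obtain ⟨C, hC, h1, -⟩ := cmp4 H
  obtain ⟨C', hC', h1'⟩ := cmp4s H
  obtain ⟨c, hc, h2⟩ := lower H.Tpos (J0_cont H 0).1 (fun x δ => by
    unfold J0
    have e : x + T + δ = x + δ + T := by ring
    rw [e, H.pG, H.pn]) (fun x δ h0 h1 => by
      have := D_pos H (x := x) (x' := x + δ) (by simpa using h0) (by simpa using h1)
      rwa [D_eq] at this) hC h1
  obtain ⟨c', hc', h2'⟩ := lower H.Tpos (J0_cont H 0).2 (fun x δ => by
    unfold J0
    have e : x + T + δ = x + δ + T := by ring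
    rw [e, H.pG, H.pn]) (fun x δ h0 h1 => by
      have := D_pos H (x := x + δ) (x' := x) (by simpa using h0) (by simpa using h1)
      rwa [Ds_eq] at this) hC' h1'
  refine ⟨min c c', lt_min hc hc', fun x δ h0 h1 => ?_, fun x δ h0 h1 => ?_⟩
  · refine le_trans ?_ (h2 x δ h0 h1)
    gcongr; exact min_le_left _ _
  · refine le_trans ?_ (h2' x δ h0 h1)
    gcongr; exact min_le_right _ _

theorem o_i : Ord T (-2) (fun x δ => 1 / J0 n G 0 x δ) := by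
  obtain ⟨c, hc, h, -⟩ := low H
  exact Ord.of_lower hc h
theorem o_is : Ord T (-2) (fun x δ => 1 / J0 G n 0 x δ) := by
  obtain ⟨c, hc, -, h⟩ := low H
  exact Ord.of_lower hc h

end

end Pool.Agent.TH229.PG
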