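import Pool.Agent.TH229.PG.Diag2

/-!
Orders of the logarithmic derivatives and densities on the diagonal.
-/

set_option autoImplicit false

namespace Pool.Agent.TH229.PG

open Real Filter Topology MeasureTheory Set

section
variable {T : ℝ} {G n : ℕ → ℝ → (Fin 3 → ℝ)} (H : Curve T G n)
include H

theorem Dne {x δ : ℝ} (h0 : 0 < |δ|) (h1 : |δ| ≤ T / 2) : 0 < J0 n G 0 x δ := by
  have hT := H.Tpos
  have := D_pos H (x := x) (x' := x + δ) (by simpa using h0) (by simp; linarith)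
  rwa [D_eq] at this

theorem Dsne {x δ : ℝ} (h0 : 0 < |δ|) (h1 : |δ| ≤ T / 2) : 0 < J0 G n 0 x δ := by
  have hT := H.Tpos
  have := D_pos H (x := x + δ) (x' := x) (by simpa using h0) (by simp; linarith)
  rwa [Ds_eq] at this

/-- logarithmic derivatives in terms of jets -/
theorem u1_eq (x δ : ℝ) : u1 G n x (x + δ) =
    (J1 n G 0 x δ - J0 n G 1 x δ) * (1 / J0 n G 0 x δ) := by
  unfold u1; rw [D10_eq, D_eq]; ring
theorem u2_eq (x δ : ℝ) : u2 G n x (x + δ) = J0 n G 1 x δ * (1 / J0 n G 0 x δ) := by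
  unfold u2; rw [D01_eq, D_eq]; ring
theorem u1s_eq (x δ : ℝ) : u1 G n (x + δ) x = J0 G n 1 x δ * (1 / J0 G n 0 x δ) := by
  unfold u1; rw [Ds10_eq, Ds_eq]; ring
theorem u2s_eq (x δ : ℝ) : u2 G n (x + δ) x =
    (J1 G n 0 x δ - J0 G n 1 x δ) * (1 / J0 G n 0 x δ) := by
  unfold u2; rw [Ds01_eq, Ds_eq]; ring
theorem aa_eq (x δ : ℝ) : aa G n x (x + δ) =
    J0 G n 0 x δ * ((1 / J0 n G 0 x δ) * (1 / J0 n G 0 x δ)) := by
  unfold aa; rw [Ds_eq, D_eq]; ring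
theorem aas_eq (x δ : ℝ) : aa G n (x + δ) x =
    J0 n G 0 x δ * ((1 / J0 G n 0 x δ) * (1 / J0 G n 0 x δ)) := by
  unfold aa; rw [Ds_eq, D_eq]; ring

theorem aa_eq' {x δ : ℝ} (h0 : 0 < |δ|) (h1 : |δ| ≤ T / 2) : aa G n x (x + δ) =
    (J1 n G 1 x δ - J0 n G 2 x δ) * (1 / J0 n G 0 x δ) -
      ((J1 n G 0 x δ - J0 n G 1 x δ) * (1 / J0 n G 0 x δ)) *
      (J0 n G 1 x δ * (1 / J0 n G 0 x δ)) := by
  have h := (Dne H (x := x) h0 h1).ne'
  have hp := plucker H x (x + δ)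
  rw [D11_eq, D_eq, D10_eq, D01_eq, Ds_eq] at hp
  unfold aa
  rw [Ds_eq, D_eq, ← hp]
  field_simp

theorem aas_eq' {x δ : ℝ} (h0 : 0 < |δ|) (h1 : |δ| ≤ T / 2) : aa G n (x + δ) x =
    (J1 G n 1 x δ - J0 G n 2 x δ) * (1 / J0 G n 0 x δ) -
      ((J1 G n 0 x δ - J0 G n 1 x δ) * (1 / J0 G n 0 x δ)) *
      (J0 G n 1 x δ * (1 / J0 G n 0 x δ)) := by
  have h := (Dsne H (x := x) h0 h1).ne'
  have hp := plucker H (x + δ) x
  rw [Ds11_eq, Ds_eq, Ds10_eq, Ds01_eq, D_eq] at hp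
  unfold aa
  rw [Ds_eq, D_eq, ← hp]
  field_simp

theorem u11_eq (x δ : ℝ) : u11 G n x (x + δ) =
    (J2 n G 0 x δ - 2 * J1 n G 1 x δ + J0 n G 2 x δ) * (1 / J0 n G 0 x δ) -
      ((J1 n G 0 x δ - J0 n G 1 x δ) * (1 / J0 n G 0 x δ)) ^ 2 := by
  unfold u11; rw [D20_eq, u1_eq H, D_eq]; ring
theorem u11s_eq (x δ : ℝ) : u11 G n (x + δ) x =
    J0 G n 2 x δ * (1 / J0 G n 0 x δ) - (J0 G n 1 x δ * (1 / J0 G n 0 x δ)) ^ 2 := by
  unfold u11; rw [Ds20_eq, u1s_eq H, Ds_eq]; ring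

/-- `k_x/k` -/
theorem o_xk : Ord T 2 (fun x δ => J1 n G 0 x δ * (1 / J0 n G 0 x δ)) :=
  (o_kx H).mul (o_i H) rfl
theorem o_xks : Ord T 2 (fun x δ => J1 G n 0 x δ * (1 / J0 G n 0 x δ)) :=
  (o_kxs H).mul (o_is H) rfl
theorem o_2k : Ord T (-1) (fun x δ => J0 n G 1 x δ * (1 / J0 n G 0 x δ)) :=
  (o_k2 H).mul (o_i H) rfl
theorem o_2ks : Ord T (-1) (fun x δ => J0 G n 1 x δ * (1 / J0 G n 0 x δ)) :=
  (o_k2s H).mul (o_is H) rfl

theorem o_W2 : Ord T 2 (fun x δ => J0 G n 1 x δ * (1 / J0 G n 0 x δ) -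
    J0 n G 1 x δ * (1 / J0 n G 0 x δ)) := by
  have h1 := ((o_Q2 H).mul (o_k H) (m := 6) rfl).sub ((o_k2 H).mul (o_Q H) (m := 6) rfl)
  have h2 := h1.mul ((o_i H).mul (o_is H) (m := -4) rfl) (m := 2) rfl
  refine h2.congr fun x δ h0 h1 => ?_
  have e1 := (Dne H (x := x) h0 h1).ne'
  have e2 := (Dsne H (x := x) h0 h1).ne'
  field_simp
  ring

theorem o_Z : Ord T 3 (fun x δ => J1 G n 0 x δ * (1 / J0 G n 0 x δ) -
    J1 n G 0 x δ * (1 / J0 n G 0 x δ)) := by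
  have h1 := ((o_Qx H).mul (o_k H) (m := 7) rfl).sub
    (((o_kx H).mul (o_Q H) (m := 9) rfl).mono H.Tpos (l := 7) (by norm_num))
  have h2 := h1.mul ((o_i H).mul (o_is H) (m := -4) rfl) (m := 3) rfl
  refine h2.congr fun x δ h0 h1 => ?_
  have e1 := (Dne H (x := x) h0 h1).ne'
  have e2 := (Dsne H (x := x) h0 h1).ne'
  field_simp
  ring

theorem o_W1 : Ord T 2 (fun x δ =>
    (J1 G n 0 x δ - J0 G n 1 x δ) * (1 / J0 G n 0 x δ) -
      (J1 n G 0 x δ - J0 n G 1 x δ) * (1 / J0 n G 0 x δ)) := by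
  have := ((o_Z H).mono H.Tpos (l := 2) (by norm_num)).sub (o_W2 H)
  refine this.congr fun x δ _ _ => ?_
  ring

theorem o_g : Ord T 2 (fun x δ => u1 G n x (x + δ) + u1 G n (x + δ) x) := by
  have := (o_xk H).add (o_W2 H)
  refine this.congr fun x δ _ _ => ?_
  rw [u1_eq H, u1s_eq H]
  ring

theorem o_a : Ord T (-2) (fun x δ => aa G n x (x + δ)) := by
  have := (o_ks H).mul ((o_i H).mul (o_i H) (m := -4) rfl) (m := -2) rfl
  exact this.congr fun x δ _ _ => aa_eq H x δ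

theorem o_b : Ord T (-2) (fun x δ => aa G n (x + δ) x) := by
  have := (o_k H).mul ((o_is H).mul (o_is H) (m := -4) rfl) (m := -2) rfl
  exact this.congr fun x δ _ _ => aas_eq H x δ

theorem o_ab : Ord T 1 (fun x δ => aa G n x (x + δ) - aa G n (x + δ) x) := by
  have h1 := (((o_ks H).mul (o_ks H) (m := 4) rfl).add ((o_ks H).mul (o_k H) (m := 4) rfl)).add
    ((o_k H).mul (o_k H) (m := 4) rfl)
  have h2 := (o_Q H).mul h1 (m := 9) rfl
  have h3 := h2.mul (((o_i H).mul (o_i H) (m := -4) rfl).mul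
    ((o_is H).mul (o_is H) (m := -4) rfl) (m := -8) rfl) (m := 1) rfl
  refine h3.congr fun x δ h0 h1 => ?_
  rw [aa_eq H, aas_eq H]
  have e1 := (Dne H (x := x) h0 h1).ne'
  have e2 := (Dsne H (x := x) h0 h1).ne'
  field_simp
  ring

theorem o_u11 : Ord T (-2) (fun x δ => u11 G n x (x + δ)) := by
  have h1 := (((o_kxx H).mono H.Tpos (l := 0) (by norm_num)).sub
    (((o_kx2 H).mono H.Tpos (l := 0) (by norm_num)).cmul 2)).add (o_k22 H)
  have h2 := h1.mul (o_i H) (m := -2) rfl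
  have h3 := ((o_xk H).mono H.Tpos (l := -1) (by norm_num)).sub (o_2k H)
  have h4 := h2.sub (h3.sq (m := -2) rfl)
  refine h4.congr fun x δ h0 h1 => ?_
  rw [u11_eq H]
  ring

theorem o_u11s : Ord T (-2) (fun x δ => u11 G n (x + δ) x) := by
  have h2 := (o_k22s H).mul (o_is H) (m := -2) rfl
  have h4 := h2.sub ((o_2ks H).sq (m := -2) rfl)
  exact h4.congr fun x δ h0 h1 => u11s_eq H x δ

/-- derivative of `g` in the second variable -/
theorem o_g2 : Ord T 1 (fun x δ => aa G n x (x + δ) + u11 G n (x + δ) x) := by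
  have h1 := ((o_kx2 H).mul (o_i H) (m := 1) rfl).sub ((o_xk H).mul (o_2k H) (m := 1) rfl)
  have h2 := (((o_Q22 H).mul (o_k H) (m := 5) rfl).sub ((o_k22 H).mul (o_Q H) (m := 5) rfl)).mul
    ((o_i H).mul (o_is H) (m := -4) rfl) (m := 1) rfl
  have h3 := (o_W2 H).mul ((o_2k H).add (o_2ks H)) (m := 1) rfl
  refine (h1.add (h2.sub h3)).congr fun x δ h0 h1 => ?_
  rw [aa_eq' H h0 h1, u11s_eq H]
  have e1 := (Dne H (x := x) h0 h1).ne'
  have e2 := (Dsne H (x := x) h0 h1).ne'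
  field_simp
  ring

/-- tangential derivative of `g` -/
theorem o_gx : Ord T 2 (fun x δ => (u11 G n x (x + δ) + aa G n (x + δ) x) +
    (aa G n x (x + δ) + u11 G n (x + δ) x)) := by
  have h1 := ((o_kxx H).mul (o_i H) (m := 2) rfl).sub
    (((o_xk H).sq (m := 4) rfl).mono H.Tpos (l := 2) (by norm_num))
  have h2 := (((o_Qx2 H).mul (o_k H) (m := 6) rfl).sub
    (((o_kx2 H).mul (o_Q H) (m := 8) rfl).mono H.Tpos (l := 6) (by norm_num))).mul
    ((o_i H).mul (o_is H) (m := -4) rfl) (m := 2) rfl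
  have h3 := (o_2ks H).mul (o_Z H) (m := 2) rfl
  have h4 := ((o_xk H).mul (o_W2 H) (m := 4) rfl).mono H.Tpos (l := 2) (by norm_num)
  refine (h1.add (h2.sub (h3.add h4))).congr fun x δ h0 h1 => ?_
  rw [aa_eq' H h0 h1, aas_eq' H h0 h1, u11s_eq H, u11_eq H]
  have e1 := (Dne H (x := x) h0 h1).ne'
  have e2 := (Dsne H (x := x) h0 h1).ne'
  field_simp
  ring

/-- the density -/
theorem o_DD : Ord T 0 (fun x δ => 2 * aa G n x (x + δ) * aa G n (x + δ) x +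
    aa G n x (x + δ) * u11 G n x (x + δ) + aa G n (x + δ) x * u11 G n (x + δ) x) := by
  have h1 := (o_a H).mul (o_gx H) (m := 0) rfl
  have h2 := ((o_ab H).mul (o_g2 H) (m := 2) rfl).mono H.Tpos (l := 0) (by norm_num)
  refine (h1.sub h2).congr fun x δ h0 h1 => ?_
  ring

theorem o_bg2 : Ord T (-1) (fun x δ => aa G n (x + δ) x *
    (aa G n x (x + δ) + u11 G n (x + δ) x)) := (o_b H).mul (o_g2 H) rfl

/-- `u₁ + 2/δ` is bounded -/
theorem o_u1 : Ord T 0 (fun x δ => u1 G n x (x + δ) + 2 / δ) := by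
  obtain ⟨C, hC, c1, c2⟩ := cmp4 H
  have h1 : Ord T 3 (fun x δ => J0 n G 1 x δ - δ) :=
    ⟨C, hC, fun x δ _ _ => c2 x δ⟩
  have h2 : Ord T 3 (fun x δ => (J0 n G 0 x δ - δ ^ 2 / 2) * (2 / δ)) := by
    refine ⟨2 * C, by positivity, fun x δ h0 _ => ?_⟩
    rw [abs_mul, abs_div, abs_two]
    have := c1 x δ
    calc |J0 n G 0 x δ - δ ^ 2 / 2| * (2 / |δ|) ≤ (C * |δ| ^ 4) * (2 / |δ|) := by gcongr
      _ = 2 * C * |δ| ^ 3 := by field_simp
      _ = _ := by norm_cast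
  have h3 := (((o_kx H).mono H.Tpos (l := 3) (by norm_num)).sub h1).add h2
  have h4 := (h3.mul (o_i H) (m := 1) rfl).mono H.Tpos (l := 0) (by norm_num)
  refine h4.congr fun x δ h0 h1 => ?_
  rw [u1_eq H]
  have e1 := (Dne H (x := x) h0 h1).ne'
  have e2 : δ ≠ 0 := abs_pos.mp h0
  field_simp
  ring

end

end Pool.Agent.TH229.PG
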