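import Mathlib

/-!
Positivity of the quadratic form of the certificate.
-/

set_option autoImplicit false

namespace Pool.Agent.TH229.PG

/-- the quadratic form (times 72 / c) -/
noncomputable def F72 (r t X Y Z M : ℝ) : ℝ :=
  (7 + 10 * r + r ^ 2) * X ^ 2 + (1 - r) * (11 + r) * Y ^ 2 + 6 * (1 - r ^ 3) * Z ^ 2 +
    6 * (2 + r ^ 3) * M ^ 2 - 12 * t * X * Y - 12 * r * X * M - 12 * (1 - r) * Y * Z +
    (7 + 2 * r + 3 * r ^ 2) * t * (X * Z - Y * M)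

noncomputable def Pp (r : ℝ) : ℝ := (12 + 6 * r ^ 3) * (7 + 10 * r + r ^ 2) - 36 * r ^ 2
noncomputable def A31 (r : ℝ) : ℝ := 1625 / 4 + 869 * r + 267 / 4 * r ^ 2 - 197 * r ^ 3 -
  77 / 4 * r ^ 4 + 24 * r ^ 5 + 9 / 4 * r ^ 6
noncomputable def B3 (r : ℝ) : ℝ := 357 + 993 * r + 858 * r ^ 2 + 1161 / 2 * r ^ 3 +
  579 / 2 * r ^ 4 + 510 * r ^ 5 + 309 * r ^ 6 + 9 / 2 * r ^ 7 - 27 / 2 * r ^ 8
noncomputable def C3 (r : ℝ) : ℝ := -504 - 645 * r + 879 * r ^ 2 + 186 * r ^ 3 - 222 * r ^ 4 +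
  171 * r ^ 5 + 135 * r ^ 6
noncomputable def Q1 (r : ℝ) : ℝ := 15529 / 4 + 70691 / 4 * r + 29518 * r ^ 2 + 18044 * r ^ 3 -
  9379 / 2 * r ^ 4 - 8717 / 2 * r ^ 5 + 1248 * r ^ 6 + 918 * r ^ 7 - 27 / 4 * r ^ 8 -
  81 / 4 * r ^ 9

theorem Pp_pos {r : ℝ} (h0 : 0 ≤ r) (h1 : r ≤ 1) : 0 < Pp r := by
  obtain ⟨s, hs, hr⟩ : ∃ s, 0 ≤ s ∧ s = 1 - r := ⟨1 - r, by linarith, rfl⟩
  have e : Pp r = 84 * s ^ 5 + 540 * r * s ^ 4 + 1296 * r ^ 2 * s ^ 3 + 1530 * r ^ 3 * s ^ 2 +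
      972 * r ^ 4 * s + 288 * r ^ 5 := by
    rw [hr]; unfold Pp; ring
  rw [e]
  rcases h0.eq_or_lt with h | h
  · rw [← h] at hr ⊢
    have : s = 1 := by linarith
    rw [this]; norm_num
  · positivity

theorem A31_pos {r : ℝ} (h0 : 0 ≤ r) (h1 : r ≤ 1) : 0 < A31 r := by
  obtain ⟨s, hs, hr⟩ : ∃ s, 0 ≤ s ∧ s = 1 - r := ⟨1 - r, by linarith, rfl⟩
  have e : A31 r = 1625 / 4 * s ^ 6 + 6613 / 2 * r * s ^ 5 + 21011 / 2 * r ^ 2 * s ^ 4 +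
      16885 * r ^ 3 * s ^ 3 + 14574 * r ^ 4 * s ^ 2 + 6444 * r ^ 5 * s + 1152 * r ^ 6 := by
    rw [hr]; unfold A31; ring
  rw [e]
  rcases h0.eq_or_lt with h | h
  · rw [← h] at hr ⊢
    have : s = 1 := by linarith
    rw [this]; norm_num
  · positivity

theorem Q1_nonneg {r : ℝ} (h0 : 0 ≤ r) (h1 : r ≤ 1) : 0 ≤ Q1 r := by
  obtain ⟨s, hs, hr⟩ : ∃ s, 0 ≤ s ∧ s = 1 - r := ⟨1 - r, by linarith, rfl⟩
  have e : Q1 r = 15529 / 4 * s ^ 9 + 52613 * r * s ^ 8 + 310661 * r ^ 2 * s ^ 7 +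
      1045616 * r ^ 3 * s ^ 6 + 2202290 * r ^ 4 * s ^ 5 + 3002240 * r ^ 5 * s ^ 4 +
      2646712 * r ^ 6 * s ^ 3 + 1456752 * r ^ 7 * s ^ 2 + 455904 * r ^ 8 * s +
      62208 * r ^ 9 := by
    rw [hr]; unfold Q1; ring
  rw [e]
  positivity

theorem disc (r : ℝ) : 4 * ((1 - r) * A31 r) * B3 r - C3 r ^ 2 = Pp r * ((1 - r) * Q1 r) := by
  unfold A31 B3 C3 Pp Q1; ring

theorem form_id {r t : ℝ} (ht : t ^ 2 = 1 - r ^ 2) (X Y Z M : ℝ) :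
    Pp r * ((12 + 6 * r ^ 3) * F72 r t X Y Z M) =
      Pp r * ((12 + 6 * r ^ 3) * M - 6 * r * X - 1 / 2 * (7 + 2 * r + 3 * r ^ 2) * t * Y) ^ 2 +
      (Pp r * X - 1 / 2 * (12 * (12 + 6 * r ^ 3) + 6 * r * (7 + 2 * r + 3 * r ^ 2)) * t * Y +
        1 / 2 * (12 + 6 * r ^ 3) * (7 + 2 * r + 3 * r ^ 2) * t * Z) ^ 2 +
      (1 - r) * (12 + 6 * r ^ 3) * ((1 - r) * A31 r * Y ^ 2 + B3 r * Z ^ 2 + C3 r * Y * Z) := by
  unfold F72 Pp A31 B3 C3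
  linear_combination (-(1 / 4) * (7 + 2 * r + 3 * r ^ 2) ^ 2 * ((12 + 6 * r ^ 3) *
      (7 + 10 * r + r ^ 2) - 36 * r ^ 2) * Y ^ 2 -
    (1 / 2 * (12 * (12 + 6 * r ^ 3) + 6 * r * (7 + 2 * r + 3 * r ^ 2)) * Y -
        1 / 2 * (12 + 6 * r ^ 3) * (7 + 2 * r + 3 * r ^ 2) * Z) ^ 2) * ht

theorem F72_nonneg {r t : ℝ} (h0 : 0 ≤ r) (h1 : r ≤ 1) (ht : t ^ 2 = 1 - r ^ 2) (X Y Z M : ℝ) :
    0 ≤ F72 r t X Y Z M := by
  have hP := Pp_pos h0 h1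
  have hm : (0 : ℝ) < 12 + 6 * r ^ 3 := by positivity
  have hq : 0 ≤ (1 - r) * (12 + 6 * r ^ 3) *
      ((1 - r) * A31 r * Y ^ 2 + B3 r * Z ^ 2 + C3 r * Y * Z) := by
    rcases h1.eq_or_lt with h | h
    · rw [h]; simp
    · have hs : 0 < 1 - r := by linarith
      have hA : 0 < (1 - r) * A31 r := mul_pos hs (A31_pos h0 h1)
      have hQ : 0 ≤ (1 - r) * Q1 r := mul_nonneg hs.le (Q1_nonneg h0 h1)
      have e : 4 * ((1 - r) * A31 r) * ((1 - r) * A31 r * Y ^ 2 + B3 r * Z ^ 2 + C3 r * Y * Z) =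
          (2 * ((1 - r) * A31 r) * Y + C3 r * Z) ^ 2 + (Pp r * ((1 - r) * Q1 r)) * Z ^ 2 := by
        rw [← disc]; ring
      have h5 : 0 ≤ 4 * ((1 - r) * A31 r) *
          ((1 - r) * A31 r * Y ^ 2 + B3 r * Z ^ 2 + C3 r * Y * Z) := by
        rw [e]; positivity
      have h6 := nonneg_of_mul_nonneg_right h5 (by positivity)
      positivity
  have h7 : 0 ≤ Pp r * ((12 + 6 * r ^ 3) * F72 r t X Y Z M) := by
    rw [form_id ht]; positivity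
  exact nonneg_of_mul_nonneg_right (nonneg_of_mul_nonneg_right h7 hP) hm

theorem F72_zero {X Y Z M : ℝ} (h : F72 1 0 X Y Z M = 0) : X = 0 ∧ M = 0 := by
  unfold F72 at h
  have e : 12 * X ^ 2 + 12 * M ^ 2 + 6 * (X - M) ^ 2 = 0 := by linarith
  have h1 : X ^ 2 = 0 := by nlinarith [sq_nonneg X, sq_nonneg M, sq_nonneg (X - M)]
  have h2 : M ^ 2 = 0 := by nlinarith [sq_nonneg X, sq_nonneg M, sq_nonneg (X - M)]
  exact ⟨pow_eq_zero_iff two_ne_zero |>.mp h1, pow_eq_zero_iff two_ne_zero |>.mp h2⟩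

end Pool.Agent.TH229.PG
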