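import Pool.Agent.TH229.PG.GeoDefs

/-!
Geometry of the tangent lines: coordinates on a tangent line, normal form of the involutions.
-/

set_option autoImplicit false

namespace Pool.Agent.TH229.PG

open Real Filter Topology MeasureTheory Set
open scoped ContDiff

theorem crs_smul_left (a : ℝ) (u v : Fin 3 → ℝ) : crs (a • u) v = a • crs u v := by
  refine ext3 ?_ ?_ ?_ <;> simp <;> ring
theorem crs_smul_right (a : ℝ) (u v : Fin 3 → ℝ) : crs u (a • v) = a • crs u v := by
  refine ext3 ?_ ?_ ?_ <;> simp <;> ring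
theorem crs_anti (u v : Fin 3 → ℝ) : crs u v = - crs v u := by
  refine ext3 ?_ ?_ ?_ <;> simp <;> ring
theorem dot_smul_left (a : ℝ) (u v : Fin 3 → ℝ) : dot (a • u) v = a * dot u v := by
  simp [dot]; ring
theorem dot_smul_right (a : ℝ) (u v : Fin 3 → ℝ) : dot u (a • v) = a * dot u v := by
  simp [dot]; ring

/-- a vector orthogonal to `a` and `b` is a multiple of `a × b` -/
theorem par_of_orth {a b z : Fin 3 → ℝ} (h : crs a b ≠ 0) (h1 : dot a z = 0) (h2 : dot b z = 0) :
    ∃ r : ℝ, z = r • crs a b := by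
  set m := crs a b with hm
  have hN : m 0 ^ 2 + m 1 ^ 2 + m 2 ^ 2 ≠ 0 := by
    intro h0
    apply h
    have e0 : m 0 = 0 := by nlinarith [sq_nonneg (m 0), sq_nonneg (m 1), sq_nonneg (m 2)]
    have e1 : m 1 = 0 := by nlinarith [sq_nonneg (m 0), sq_nonneg (m 1), sq_nonneg (m 2)]
    have e2 : m 2 = 0 := by nlinarith [sq_nonneg (m 0), sq_nonneg (m 1), sq_nonneg (m 2)]
    exact ext3 (by simpa using e0) (by simpa using e1) (by simpa using e2)
  refine ⟨dot m z / (m 0 ^ 2 + m 1 ^ 2 + m 2 ^ 2), ?_⟩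
  have m0 : m 0 = a 1 * b 2 - a 2 * b 1 := rfl
  have m1 : m 1 = a 2 * b 0 - a 0 * b 2 := rfl
  have m2 : m 2 = a 0 * b 1 - a 1 * b 0 := rfl
  unfold dot at h1 h2 ⊢
  have e0 : m 1 * z 2 - m 2 * z 1 = 0 := by
    rw [m1, m2]; linear_combination b 0 * h1 - a 0 * h2
  have e1 : m 2 * z 0 - m 0 * z 2 = 0 := by
    rw [m2, m0]; linear_combination b 1 * h1 - a 1 * h2
  have e2 : m 0 * z 1 - m 1 * z 0 = 0 := by
    rw [m0, m1]; linear_combination b 2 * h1 - a 2 * h2
  refine ext3 ?_ ?_ ?_
  · simp only [Pi.smul_apply, smul_eq_mul]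
    rw [div_mul_eq_mul_div, eq_div_iff hN]
    linear_combination -m 1 * e2 + m 2 * e1
  · simp only [Pi.smul_apply, smul_eq_mul]
    rw [div_mul_eq_mul_div, eq_div_iff hN]
    linear_combination -m 2 * e0 + m 0 * e2
  · simp only [Pi.smul_apply, smul_eq_mul]
    rw [div_mul_eq_mul_div, eq_div_iff hN]
    linear_combination -m 0 * e1 + m 1 * e0

/-- double cross products -/
theorem crs_crs_same (a b d : Fin 3 → ℝ) : crs (crs a b) (crs a d) = dot (crs a b) d • a := by
  refine ext3 ?_ ?_ ?_ <;> simp [dot] <;> ring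

section
variable {g : ℝ → Fin 3 → ℝ} (hg : Dual g)
include hg

theorem Dual.d0 (x : ℝ) : HasDerivAt g (deriv g x) x :=
  (hg.smooth.differentiable (by norm_num) x).hasDerivAt

theorem Dual.s1 : ContDiff ℝ ∞ (deriv g) := (contDiff_infty_iff_deriv.mp hg.smooth).2

theorem Dual.s2 : ContDiff ℝ ∞ (deriv (deriv g)) := (contDiff_infty_iff_deriv.mp hg.s1).2

theorem Dual.d1 (x : ℝ) : HasDerivAt (deriv g) (deriv (deriv g) x) x :=
  (hg.s1.differentiable (by norm_num) x).hasDerivAt

theorem Dual.per1 (x : ℝ) : deriv g (x + 2 * π) = deriv g x := by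
  have h0 : HasDerivAt (fun x : ℝ => x + 2 * π) 1 x := (hasDerivAt_id x).add_const _
  have h1 := (hg.d0 (x + 2 * π)).scomp x h0
  rw [one_smul] at h1
  have h2 : g ∘ (fun x => x + 2 * π) = g := funext hg.per
  rw [h2] at h1
  exact h1.unique (hg.d0 x)

theorem Dual.per2 (x : ℝ) : deriv (deriv g) (x + 2 * π) = deriv (deriv g) x := by
  have h0 : HasDerivAt (fun x : ℝ => x + 2 * π) 1 x := (hasDerivAt_id x).add_const _
  have h1 := (hg.d1 (x + 2 * π)).scomp x h0
  rw [one_smul] at h1
  have h2 : deriv g ∘ (fun x => x + 2 * π) = deriv g := funext hg.per1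
  rw [h2] at h1
  exact h1.unique (hg.d1 x)

theorem D0_per1 (x x' : ℝ) : D0 g (x + 2 * π) x' = D0 g x x' := by
  unfold D0; rw [hg.per, hg.per1]
theorem D0_per2 (x x' : ℝ) : D0 g x (x' + 2 * π) = D0 g x x' := by
  unfold D0; rw [hg.per]
theorem uu_per1 (x x' : ℝ) : uu g (x + 2 * π) x' = uu g x x' := by
  unfold uu; rw [D0_per1 hg, hg.per, hg.per2]
theorem uu_per2 (x x' : ℝ) : uu g x (x' + 2 * π) = uu g x x' := by
  unfold uu; rw [D0_per2 hg, hg.per]

theorem D0_pos {x x' : ℝ} (h0 : 0 < |x' - x|) (h1 : |x' - x| < 2 * π) : 0 < D0 g x x' := by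
  have hne : x' - x ≠ 0 := abs_pos.mp h0
  obtain ⟨h2, h3⟩ := abs_lt.mp h1
  rcases lt_or_gt_of_ne hne with h | h
  · have := hg.pos x (x' + 2 * π) (by linarith) (by linarith)
    rwa [D0_per2 hg] at this
  · exact hg.pos x x' (by linarith) (by linarith)

/-- coordinates of a point of the tangent line at `p` -/
theorem meet_coord (p x' : ℝ) : dot (crs (g p) (deriv g p)) (deriv (deriv g) p) •
    crs (g p) (g x') = D0 g p x' • crs (g p) (deriv (deriv g) p) -
      dot (crs (g p) (deriv (deriv g) p)) (g x') • crs (g p) (deriv g p) := by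
  unfold D0
  refine ext3 ?_ ?_ ?_ <;> simp [dot] <;> ring

theorem crs_ne (p : ℝ) : crs (g p) (deriv g p) ≠ 0 := by
  intro h
  have := hg.curv p
  rw [h] at this
  simp [dot] at this

/-- independence of the two basis vectors of the tangent line -/
theorem indep2 {p a b a' b' : ℝ}
    (h : a • crs (g p) (deriv g p) + b • crs (g p) (deriv (deriv g) p) =
      a' • crs (g p) (deriv g p) + b' • crs (g p) (deriv (deriv g) p)) : a = a' ∧ b = b' := by
  have hc := (hg.curv p).ne'
  have e1 := congrArg (fun z => dot z (deriv (deriv g) p)) h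
  have e2 := congrArg (fun z => dot z (deriv g p)) h
  simp only [dot, Pi.add_apply, Pi.smul_apply, smul_eq_mul, crs0, crs1, crs2] at e1 e2 hc
  constructor
  · have : (a - a') * (dot (crs (g p) (deriv g p)) (deriv (deriv g) p)) = 0 := by
      simp only [dot, crs0, crs1, crs2]
      linear_combination e1
    rcases mul_eq_zero.mp this with h | h
    · linarith
    · exact absurd h (hg.curv p).ne'
  · have : (b - b') * (dot (crs (g p) (deriv g p)) (deriv (deriv g) p)) = 0 := by
      simp only [dot, crs0, crs1, crs2]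
      linear_combination -e2
    rcases mul_eq_zero.mp this with h | h
    · linarith
    · exact absurd h (hg.curv p).ne'

/-- `uu g p` is strictly increasing -/
theorem uu_mono (p : ℝ) : StrictMonoOn (uu g p) (Ioo p (p + 2 * π)) := by
  have hd : ∀ x' ∈ Ioo p (p + 2 * π), HasDerivAt (uu g p)
      (dot (crs (g p) (deriv g p)) (deriv (deriv g) p) * D0 g x' p / D0 g p x' ^ 2) x' := by
    intro x' hx
    have hD : D0 g p x' ≠ 0 := (hg.pos p x' hx.1 hx.2).ne'
    have h1 : HasDerivAt (fun z => dot (crs (g p) (deriv (deriv g) p)) (g z))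
        (dot (crs (g p) (deriv (deriv g) p)) (deriv g x')) x' := dot_hasDeriv_right (hg.d0 x') _
    have h2 : HasDerivAt (fun z => D0 g p z) (dot (crs (g p) (deriv g p)) (deriv g x')) x' :=
      dot_hasDeriv_right (hg.d0 x') _
    have h3 := h1.div h2 hD
    refine h3.congr_deriv ?_
    congr 1
    unfold D0
    simp only [dot, crs0, crs1, crs2]
    ring
  refine strictMonoOn_of_deriv_pos (convex_Ioo _ _)
    (fun x hx => (hd x hx).continuousAt.continuousWithinAt) fun x hx => ?_
  rw [interior_Ioo] at hx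
  rw [(hd x hx).deriv]
  have h1 := hg.curv p
  have h2 := hg.pos p x hx.1 hx.2
  have h3 : 0 < D0 g x p := D0_pos hg (by
    rw [abs_sub_comm, abs_of_pos (by linarith [hx.1])]; linarith [hx.1]) (by
    rw [abs_sub_comm, abs_of_pos (by linarith [hx.1])]; linarith [hx.2])
  positivity

end

end Pool.Agent.TH229.PG
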