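import Pool.Agent.TH229.PG.Front

/-!
Normal form of the projective involutions; regularity of the structure function.
-/

set_option autoImplicit false

namespace Pool.Agent.TH229.PG

open Real Filter Topology MeasureTheory Set
open scoped ContDiff

theorem Leaf.surj {T : ℝ} {τ : ℝ → ℝ} (h : Leaf T τ) : Function.Surjective τ := by
  refine h.cont.surjective ?_ ?_
  · exact tendsto_atTop_mono (fun x => (h.above x).le) tendsto_id
  · refine tendsto_atBot_mono (fun x => (h.below x).le) ?_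
    exact tendsto_atBot_add_const_right _ _ tendsto_id

/-- a nested pair of leaves -/
theorem nested {𝓕 : Set (ℝ → ℝ)} (hF : Fol 𝓕) {τ₁ τ₂ : ℝ → ℝ} (h1 : τ₁ ∈ 𝓕) (h2 : τ₂ ∈ 𝓕)
    {p : ℝ} (hp : τ₁ p < τ₂ p) (x : ℝ) : τ₁ x < τ₂ x := by
  by_contra hx
  rw [not_lt] at hx
  have l1 := hF.leaf _ h1
  have l2 := hF.leaf _ h2
  have hc : Continuous (fun x => τ₂ x - τ₁ x) := l2.cont.sub l1.cont
  have hmem : (0 : ℝ) ∈ uIcc ((fun x => τ₂ x - τ₁ x) x) ((fun x => τ₂ x - τ₁ x) p) := by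
    rw [mem_uIcc]; left; constructor
    · simp only; linarith
    · simp only; linarith
  obtain ⟨z, -, hz⟩ := intermediate_value_uIcc (hc.continuousOn (s := uIcc x p)) hmem
  simp only at hz
  have hz' : τ₂ z = τ₁ z := by linarith
  obtain ⟨τ, -, hu⟩ := hF.unique z (τ₁ z) (l1.above z) (l1.below z)
  have e1 := hu τ₁ ⟨h1, rfl⟩
  have e2 := hu τ₂ ⟨h2, hz'⟩
  rw [e1, e2] at hp
  exact lt_irrefl _ hp

section
variable {g : ℝ → Fin 3 → ℝ} (hg : Dual g)
include hg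

theorem exists_k {𝓕 : Set (ℝ → ℝ)} (hF : Fol 𝓕) {p : ℝ} (f : (Fin 3 → ℝ) ≃ₗ[ℝ] (Fin 3 → ℝ))
    (hA : ∃ r : ℝ, f (crs (g p) (deriv g p)) = r • crs (g p) (deriv g p))
    (hf : ∀ τ ∈ 𝓕, ∀ u, τ u = p → (∃ r : ℝ, f (crs (g p) (g (τ p))) = r • crs (g u) (g p)) ∧
      ∃ r : ℝ, f (crs (g u) (g p)) = r • crs (g p) (g (τ p))) :
    ∃ k : ℝ, ∀ τ ∈ 𝓕, ∀ u, τ u = p → uu g p (τ p) + uu g p u = k := by
  obtain ⟨α, hα⟩ := hA
  have hπ := Real.pi_gt_three
  obtain ⟨τ₁, ⟨h1, h1p⟩, -⟩ := hF.unique p (p + 1) (by linarith) (by linarith)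
  obtain ⟨τ₂, ⟨h2, h2p⟩, -⟩ := hF.unique p (p + 2) (by linarith) (by linarith)
  have surj : ∀ τ ∈ 𝓕, ∃ u, τ u = p := fun τ h => (hF.leaf τ h).surj p
  set A := crs (g p) (deriv g p) with hAd
  set B := crs (g p) (deriv (deriv g) p) with hBd
  set om := dot A (deriv (deriv g) p) with hom
  have hom0 : 0 < om := hg.curv p
  have hα0 : α ≠ 0 := by
    intro h0
    rw [h0, zero_smul] at hα
    exact crs_ne hg p (f.injective (by rw [hα, map_zero]))
  -- coordinates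
  have hm : ∀ x', D0 g p x' ≠ 0 → crs (g p) (g x') = (D0 g p x' / om) • (B - uu g p x' • A) := by
    intro x' hD
    have h := meet_coord hg p x'
    rw [← hAd, ← hBd, ← hom] at h
    have h3 : crs (g p) (g x') = om⁻¹ • (om • crs (g p) (g x')) := by
      rw [smul_smul, inv_mul_cancel₀ hom0.ne', one_smul]
    rw [h3, h]
    unfold uu
    rw [← hBd, smul_sub, smul_sub, smul_smul, smul_smul, smul_smul]
    congr 2
    · field_simp
    · field_simp
  -- the two relations between coordinates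
  have key : ∀ τ ∈ 𝓕, ∀ u, τ u = p →
      (∃ r : ℝ, f (B - uu g p (τ p) • A) = r • (B - uu g p u • A)) ∧
      (∃ r : ℝ, f (B - uu g p u • A) = r • (B - uu g p (τ p) • A)) := by
    intro τ hτ u hu
    have l := hF.leaf τ hτ
    have b1 := l.above p
    have b2 := l.below p
    have b3 := l.above u
    have b4 := l.below u
    rw [hu] at b3 b4
    have d1 : 0 < D0 g p (τ p) := hg.pos p _ b1 b2
    have d2 : 0 < D0 g p u := D0_pos hg (by rw [abs_sub_comm, abs_of_pos (by linarith)]; linarith)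
      (by rw [abs_sub_comm, abs_of_pos (by linarith)]; linarith)
    obtain ⟨⟨r, hr⟩, ⟨r', hr'⟩⟩ := hf τ hτ u hu
    rw [crs_anti (g u) (g p), hm _ d1.ne', hm _ d2.ne', map_smul] at hr
    rw [crs_anti (g u) (g p), hm _ d1.ne', hm _ d2.ne', map_neg, map_smul] at hr'
    have e1 : D0 g p (τ p) / om ≠ 0 := (div_pos d1 hom0).ne'
    have e2 : D0 g p u / om ≠ 0 := (div_pos d2 hom0).ne'
    constructor
    · refine ⟨(D0 g p (τ p) / om)⁻¹ * (-(r * (D0 g p u / om))), ?_⟩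
      have : f (B - uu g p (τ p) • A) = (D0 g p (τ p) / om)⁻¹ •
          ((D0 g p (τ p) / om) • f (B - uu g p (τ p) • A)) := by
        rw [smul_smul, inv_mul_cancel₀ e1, one_smul]
      rw [this, hr]
      module
    · refine ⟨(D0 g p u / om)⁻¹ * (-(r' * (D0 g p (τ p) / om))), ?_⟩
      have : f (B - uu g p u • A) = (D0 g p u / om)⁻¹ •
          (-(-((D0 g p u / om) • f (B - uu g p u • A)))) := by
        rw [neg_neg, smul_smul, inv_mul_cancel₀ e2, one_smul]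
      rw [this, hr']
      module
  -- image of `B`
  obtain ⟨β, γ, hB⟩ : ∃ β γ : ℝ, f B = β • A + γ • B := by
    obtain ⟨u, hu⟩ := surj τ₁ h1
    obtain ⟨⟨r, hr⟩, -⟩ := key τ₁ h1 u hu
    rw [map_sub, map_smul, hα] at hr
    refine ⟨uu g p (τ₁ p) * α - r * uu g p u, r, ?_⟩
    have : f B = (f B - uu g p (τ₁ p) • α • A) + uu g p (τ₁ p) • α • A := by abel
    rw [this, hr]
    module
  have rel2 : ∀ τ ∈ 𝓕, ∀ u, τ u = p → uu g p (τ p) * α - γ * uu g p u = β ∧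
      uu g p u * α - γ * uu g p (τ p) = β := by
    intro τ hτ u hu
    obtain ⟨⟨r, hr⟩, ⟨r', hr'⟩⟩ := key τ hτ u hu
    rw [map_sub, map_smul, hα, hB] at hr hr'
    have a1 : (β - uu g p (τ p) * α) • A + γ • B = (-(r * uu g p u)) • A + r • B := by
      calc _ = β • A + γ • B - uu g p (τ p) • α • A := by module
        _ = _ := by rw [hr]; module
    have a2 : (β - uu g p u * α) • A + γ • B = (-(r' * uu g p (τ p))) • A + r' • B := by
      calc _ = β • A + γ • B - uu g p u • α • A := by module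
        _ = _ := by rw [hr']; module
    obtain ⟨b1, b2⟩ := indep2 hg a1
    obtain ⟨b3, b4⟩ := indep2 hg a2
    constructor
    · rw [b2]; linarith
    · rw [b4]; linarith
  have hγ : γ = -α := by
    by_contra hne
    have hne' : α + γ ≠ 0 := fun h => hne (by linarith)
    have hall : ∀ τ ∈ 𝓕, ∀ u, τ u = p → τ p = u + 2 * π := by
      intro τ hτ u hu
      obtain ⟨e1, e2⟩ := rel2 τ hτ u hu
      have h3 : (α + γ) * (uu g p (τ p) - uu g p u) = 0 := by linear_combination e1 - e2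
      have h4 : uu g p (τ p) = uu g p (u + 2 * π) := by
        rw [uu_per2 hg]
        have := (mul_eq_zero.mp h3).resolve_left hne'
        linarith
      have l := hF.leaf τ hτ
      have b1 := l.above p
      have b2 := l.below p
      have b3 := l.above u
      have b4 := l.below u
      rw [hu] at b3 b4
      exact (uu_mono hg p).injOn ⟨b1, b2⟩ ⟨b4, by linarith⟩ h4
    obtain ⟨u₁, hu₁⟩ := surj τ₁ h1
    obtain ⟨u₂, hu₂⟩ := surj τ₂ h2
    have e1 := hall τ₁ h1 u₁ hu₁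
    have e2 := hall τ₂ h2 u₂ hu₂
    have hn := nested hF h1 h2 (p := p) (by rw [h1p, h2p]; linarith) u₂
    rw [hu₂, ← hu₁] at hn
    have := (hF.leaf τ₁ h1).mono.lt_iff_lt.mp hn
    linarith
  refine ⟨β / α, fun τ hτ u hu => ?_⟩
  obtain ⟨e1, -⟩ := rel2 τ hτ u hu
  rw [hγ] at e1
  rw [eq_div_iff hα0]
  linarith

theorem k_per {𝓕 : Set (ℝ → ℝ)} (hF : Fol 𝓕) {k : ℝ → ℝ}
    (hk : ∀ p, ∀ τ ∈ 𝓕, ∀ u, τ u = p → uu g p (τ p) + uu g p u = k p) (x : ℝ) :
    k (x + 2 * π) = k x := by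
  have hπ := Real.pi_pos
  obtain ⟨τ, ⟨h1, h1p⟩, -⟩ := hF.unique x (x + π) (by linarith) (by linarith)
  have l := hF.leaf τ h1
  obtain ⟨u, hu⟩ := l.surj x
  have e1 := hk x τ h1 u hu
  have e2 := hk (x + 2 * π) τ h1 (u + 2 * π) (by rw [l.per, hu])
  rw [l.per, uu_per1 hg, uu_per1 hg, uu_per2 hg, uu_per2 hg] at e2
  linarith

theorem k_smooth {𝓕 : Set (ℝ → ℝ)} (hF : Fol 𝓕) {k : ℝ → ℝ}
    (hk : ∀ p, ∀ τ ∈ 𝓕, ∀ u, τ u = p → uu g p (τ p) + uu g p u = k p)
    (hs : ∃ τ ∈ 𝓕, ContDiff ℝ ∞ τ ∧ ∀ x, deriv τ x ≠ 0) : ContDiff ℝ ∞ k := by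
  obtain ⟨τ₀, h₀, hC, hd⟩ := hs
  have l₀ := hF.leaf τ₀ h₀
  set e := (l₀.mono.orderIsoOfSurjective τ₀ l₀.surj).toHomeomorph with he
  have hcoe : (e : ℝ → ℝ) = τ₀ := rfl
  have hsymm : ContDiff ℝ ∞ (e.symm : ℝ → ℝ) := by
    refine e.contDiff_symm_deriv (f' := deriv τ₀) hd (fun x => ?_) (by rw [hcoe]; exact hC)
    rw [hcoe]
    exact (hC.differentiable (by norm_num) x).hasDerivAt
  have es : ∀ x, τ₀ (e.symm x) = x := fun x => by
    have := e.apply_symm_apply x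
    rwa [hcoe] at this
  have hk0 : k = fun x => uu g x (τ₀ x) + uu g x (e.symm x) := by
    funext x
    exact (hk x τ₀ h₀ (e.symm x) (es x)).symm
  have cc : ∀ i : Fin 3, ContDiff ℝ ∞ (fun x => g x i) := fun i => contDiff_pi.mp hg.smooth i
  have cc1 : ∀ i : Fin 3, ContDiff ℝ ∞ (fun x => deriv g x i) := fun i => contDiff_pi.mp hg.s1 i
  have cc2 : ∀ i : Fin 3, ContDiff ℝ ∞ (fun x => deriv (deriv g) x i) :=
    fun i => contDiff_pi.mp hg.s2 i
  have gen : ∀ {h : ℝ → ℝ} (_ : ContDiff ℝ ∞ h) (_ : ∀ x, D0 g x (h x) ≠ 0),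
      ContDiff ℝ ∞ (fun x => uu g x (h x)) := by
    intro h hh hne
    have hgh : ∀ i : Fin 3, ContDiff ℝ ∞ (fun x => g (h x) i) := fun i => (cc i).comp hh
    have a1 : ContDiff ℝ ∞ (fun x => dot (crs (g x) (deriv (deriv g) x)) (g (h x))) := by
      unfold dot
      simp only [crs0, crs1, crs2]
      exact (((((cc 1).mul (cc2 2)).sub ((cc 2).mul (cc2 1))).mul (hgh 0)).add
        ((((cc 2).mul (cc2 0)).sub ((cc 0).mul (cc2 2))).mul (hgh 1))).add
        ((((cc 0).mul (cc2 1)).sub ((cc 1).mul (cc2 0))).mul (hgh 2))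
    have a2 : ContDiff ℝ ∞ (fun x => D0 g x (h x)) := by
      unfold D0 dot
      simp only [crs0, crs1, crs2]
      exact (((((cc 1).mul (cc1 2)).sub ((cc 2).mul (cc1 1))).mul (hgh 0)).add
        ((((cc 2).mul (cc1 0)).sub ((cc 0).mul (cc1 2))).mul (hgh 1))).add
        ((((cc 0).mul (cc1 1)).sub ((cc 1).mul (cc1 0))).mul (hgh 2))
    unfold uu
    exact a1.div a2 hne
  rw [hk0]
  refine (gen hC fun x => (hg.pos x _ (l₀.above x) (l₀.below x)).ne').add
    (gen hsymm fun x => ?_)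
  have b3 := l₀.above (e.symm x)
  have b4 := l₀.below (e.symm x)
  rw [es] at b3 b4
  exact (D0_pos hg (by rw [abs_sub_comm, abs_of_pos (by linarith)]; linarith)
      (by rw [abs_sub_comm, abs_of_pos (by linarith)]; linarith)).ne'

end

end Pool.Agent.TH229.PG
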