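import Pool.Agent.TH229.PG.Swap
import Pool.Agent.TH263.PGNearLeaf
import Pool.Agent.TH979.PGTaylor

/-!
The mean value of `k` vanishes: assembly.
-/

set_option autoImplicit false

namespace Pool.Agent.TH229.PG

open Real Filter Topology MeasureTheory Set
open scoped ContDiff

/-- continuous inverse of a leaf -/
theorem leaf_inv {T : ℝ} {τ : ℝ → ℝ} (h : Leaf T τ) :
    ∃ σ : ℝ → ℝ, Continuous σ ∧ (∀ x, τ (σ x) = x) ∧ ∀ x, σ (τ x) = x := by
  have hsurj : Function.Surjective τ := by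
    refine h.cont.surjective ?_ ?_
    · exact tendsto_atTop_mono (fun x => (h.above x).le) tendsto_id
    · exact tendsto_atBot_mono (fun x => (h.below x).le)
        (tendsto_atBot_add_const_right _ T tendsto_id)
  set e := (h.mono.orderIsoOfSurjective τ hsurj) with he
  refine ⟨e.symm, e.symm.continuous, fun x => e.apply_symm_apply x, fun x => e.symm_apply_apply x⟩

theorem mean_aux {g : ℝ → Fin 3 → ℝ} {k : ℝ → ℝ}
    (hk : Continuous k) {m : ℝ → ℝ} {C d₀ : ℝ} (hm : Continuous m)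
    (hm0 : (∫ x in (0 : ℝ)..(2 * π), m x) = 0)
    (hm1 : ∀ x d : ℝ, 0 < |d| → |d| ≤ d₀ → |uu g x (x + d) + 2 / d - m x| ≤ C * |d|)
    (hC : 0 < C) {η : ℝ} (hη : η ≤ d₀) {τ : ℝ → ℝ} (h : Leaf (2 * π) τ)
    (hs : ∀ x, τ x ≤ x + η) (hinv : ∀ u, uu g (τ u) (τ (τ u)) + uu g (τ u) u = k (τ u)) :
    |∫ x in (0 : ℝ)..(2 * π), k x| ≤ 4 * π * C * η := by
  have hπ : (0 : ℝ) < 2 * π := by positivity
  obtain ⟨σ, hσc, hσ, hσ'⟩ := leaf_inv h
  have hsw := swap hπ h hσ hσc
  have hpt : ∀ x, |k x + 2 * (1 / (τ x - x)) - 2 * (1 / (x - σ x)) - 2 * m x| ≤ 2 * C * η := by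
    intro x
    have a1 := h.above x
    have a2 := hs x
    have a3 := h.above (σ x)
    have a4 := hs (σ x)
    rw [hσ] at a3 a4
    have e1 := hm1 x (τ x - x) (abs_pos.mpr (by linarith)) (by
      rw [abs_of_pos (by linarith)]; linarith)
    have e2 := hm1 x (σ x - x) (abs_pos.mpr (by linarith)) (by
      rw [abs_of_neg (by linarith)]; linarith)
    rw [abs_of_pos (show 0 < τ x - x by linarith), show x + (τ x - x) = τ x by ring] at e1
    rw [abs_of_neg (show σ x - x < 0 by linarith), show x + (σ x - x) = σ x by ring] at e2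
    have e3 := hinv (σ x)
    rw [hσ] at e3
    have e4 : k x + 2 * (1 / (τ x - x)) - 2 * (1 / (x - σ x)) - 2 * m x =
        (uu g x (τ x) + 2 / (τ x - x) - m x) + (uu g x (σ x) + 2 / (σ x - x) - m x) := by
      rw [← e3]
      have e5 : 2 / (σ x - x) = - (2 * (1 / (x - σ x))) := by
        rw [← neg_sub x (σ x), div_neg]; ring
      rw [e5]; ring
    rw [e4]
    refine (abs_add_le _ _).trans ?_
    nlinarith
  have hc1 : Continuous (fun x => 1 / (τ x - x)) :=
    continuous_const.div (h.cont.sub continuous_id) fun x => by have := h.above x; show τ x - x ≠ 0; exact (by linarith : (0:ℝ) < τ x - x).ne'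
  have hc2 : Continuous (fun x => 1 / (x - σ x)) :=
    continuous_const.div (continuous_id.sub hσc) fun x => by
      have := h.above (σ x); rw [hσ] at this; show x - σ x ≠ 0; exact (by linarith : (0:ℝ) < x - σ x).ne'
  have hi : ∀ f : ℝ → ℝ, Continuous f → IntervalIntegrable f volume 0 (2 * π) :=
    fun f hf => hf.intervalIntegrable _ _
  have hI : (∫ x in (0 : ℝ)..(2 * π),
      (k x + 2 * (1 / (τ x - x)) - 2 * (1 / (x - σ x)) - 2 * m x)) =
      ∫ x in (0 : ℝ)..(2 * π), k x := by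
    rw [intervalIntegral.integral_sub (hi _ (by fun_prop)) (hi _ (by fun_prop)),
      intervalIntegral.integral_sub (hi _ (by fun_prop)) (hi _ (by fun_prop)),
      intervalIntegral.integral_add (hi _ (by fun_prop)) (hi _ (by fun_prop)),
      intervalIntegral.integral_const_mul, intervalIntegral.integral_const_mul,
      intervalIntegral.integral_const_mul, hm0, hsw]
    ring
  rw [← hI]
  have := intervalIntegral.norm_integral_le_of_norm_le_const (a := 0) (b := 2 * π)
    (C := 2 * C * η) (f := fun x => k x + 2 * (1 / (τ x - x)) - 2 * (1 / (x - σ x)) - 2 * m x)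
    (fun x _ => hpt x)
  rw [Real.norm_eq_abs, sub_zero, abs_of_pos hπ] at this
  linarith

theorem mean_zero {g : ℝ → Fin 3 → ℝ} (hg : Dual g) {𝓕 : Set (ℝ → ℝ)} (hF : Fol 𝓕) {k : ℝ → ℝ}
    (hk : Continuous k)
    (hinv : ∀ τ ∈ 𝓕, ∀ u, uu g (τ u) (τ (τ u)) + uu g (τ u) u = k (τ u)) :
    ∫ x in (0 : ℝ)..(2 * π), k x = 0 := by
  obtain ⟨m, C, d₀, hm, -, hm0, hC, hd, hm1⟩ := Pool.Agent.TH979.PGTaylor.uu_taylor hg
  by_contra hne
  have hpos : 0 < |∫ x in (0 : ℝ)..(2 * π), k x| := abs_pos.mpr hne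
  set I := |∫ x in (0 : ℝ)..(2 * π), k x| with hI
  set η := min d₀ (I / (8 * π * C)) with hη
  have hη0 : 0 < η := lt_min hd (by positivity)
  obtain ⟨τ, hτ, hs⟩ := Pool.Agent.TH263.PG.near_leaf hF hη0
  have h1 := mean_aux hk hm hm0 hm1 hC (min_le_left _ _ : η ≤ d₀) (hF.leaf τ hτ) hs (hinv τ hτ)
  have h2 : η ≤ I / (8 * π * C) := min_le_right _ _
  have h3 : 4 * π * C * η ≤ 4 * π * C * (I / (8 * π * C)) := by gcongr
  have h4 : 4 * π * C * (I / (8 * π * C)) = I / 2 := by
    have := Real.pi_pos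
    field_simp
    ring
  linarith

end Pool.Agent.TH229.PG
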