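import Pool.Agent.TH229.PG.Front2
import Pool.Agent.TH229.PG.Core3
import Pool.Agent.TH229.PG.Mean
import Pool.Agent.TH645.PG.Rigid
import Pool.Agent.TH874.PGReparam

/-!
Assembly: the dual curve and the leaves in the normal form.
-/

set_option autoImplicit false

namespace Pool.Agent.TH229.PG

open Real Filter Topology MeasureTheory Set
open scoped ContDiff

theorem det_E (u v w : Fin 3 → ℝ) (s s' : ℝ) :
    dot (crs (Real.cos s • u + Real.sin s • v + w) ((-Real.sin s) • u + Real.cos s • v))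
      (Real.cos s' • u + Real.sin s' • v + w) = dot (crs u v) w * (1 - Real.cos (s - s')) := by
  rw [Real.cos_sub]
  have h := Real.sin_sq_add_cos_sq s
  simp only [dot, crs0, crs1, crs2, Pi.add_apply, Pi.smul_apply, smul_eq_mul]
  linear_combination ((u 1 * v 2 - u 2 * v 1) * w 0 + (u 2 * v 0 - u 0 * v 2) * w 1 +
    (u 0 * v 1 - u 1 * v 0) * w 2) * h

theorem assemble {g : ℝ → Fin 3 → ℝ} (hg : Dual g) {𝓕 : Set (ℝ → ℝ)} (hF : Fol 𝓕)
    (hs : ∃ τ ∈ 𝓕, ContDiff ℝ ∞ τ ∧ ∀ x, deriv τ x ≠ 0)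
    (hk : ∀ p, ∃ k : ℝ, ∀ τ ∈ 𝓕, ∀ u, τ u = p → uu g p (τ p) + uu g p u = k) :
    ∃ (Φ Ψ lam : ℝ → ℝ) (u v w : Fin 3 → ℝ), dot (crs u v) w ≠ 0 ∧ (∀ x, Φ (Ψ x) = x) ∧
      (∀ s, 0 < lam s ∧ Real.cos s • u + Real.sin s • v + w = lam s • g (Φ s)) ∧
      (∀ τ ∈ 𝓕, ∃ θ, 0 < θ ∧ θ < 2 * π ∧ ∀ s, τ (Φ s) = Φ (s + θ)) ∧
      ∀ s, ∃ r : ℝ, r ≠ 0 ∧ crs (Real.cos s • u + Real.sin s • v + w)
        ((-Real.sin s) • u + Real.cos s • v) = r • crs (g (Φ s)) (deriv g (Φ s)) := by
  choose k hk using hk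
  have hkS := k_smooth hg hF hk hs
  have hkp := k_per hg hF hk
  have hm := mean_zero hg hF hkS.continuous (fun τ hτ u => hk (τ u) τ hτ u rfl)
  obtain ⟨T, G, n, φ, ψ, lam, bet, H, hφc, hφm, hψc, hψm, hψφ, hφψ, hφp, hlam, hG, hbet, hu⟩ :=
    Pool.Agent.TH874.PG.reparam hg hkS hkp hm
  have hT := H.Tpos
  have hψp : ∀ x, ψ (x + 2 * π) = ψ x + T := by
    intro x
    have h1 := hφp (ψ x)
    rw [hφψ] at h1
    rw [← h1, hψφ]
  -- conjugated leaves
  have hL : ∀ τ ∈ 𝓕, Leaf T (fun s => ψ (τ (φ s))) := by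
    intro τ hτ
    have l := hF.leaf τ hτ
    refine ⟨hψc.comp (l.cont.comp hφc), hψm.comp (l.mono.comp hφm), fun s => ?_, fun s => ?_,
      fun s => ?_⟩
    · rw [hφp, l.per, hψp]
    · have := hψm (l.above (φ s)); rwa [hψφ] at this
    · have := hψm (l.below (φ s)); rwa [hψp, hψφ] at this
  have hI : ∀ τ ∈ 𝓕, ∀ s, u1 G n ((fun s => ψ (τ (φ s))) s)
      ((fun s => ψ (τ (φ s))) ((fun s => ψ (τ (φ s))) s)) =
      - u1 G n ((fun s => ψ (τ (φ s))) s) s := by
    intro τ hτ s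
    have l := hL τ hτ
    have a1 := l.above s
    have a2 := l.below s
    have a3 := l.above (ψ (τ (φ s)))
    have a4 := l.below (ψ (τ (φ s)))
    simp only at a1 a2 a3 a4 ⊢
    have e1 := hu (ψ (τ (φ s))) (ψ (τ (φ (ψ (τ (φ s)))))) (by
      rw [abs_of_pos (by linarith)]; linarith) (by rw [abs_of_pos (by linarith)]; linarith)
    have e2 := hu (ψ (τ (φ s))) s (by
      rw [abs_sub_comm, abs_of_pos (by linarith)]; linarith) (by
      rw [abs_sub_comm, abs_of_pos (by linarith)]; linarith)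
    rw [e1, e2]
    simp only [hφψ]
    have e3 := hk (τ (φ s)) τ hτ (φ s) rfl
    rw [← e3]; ring
  have hcov : ∀ x x', x < x' → x' < x + T → ∃ τ, Leaf T τ ∧ τ x = x' ∧
      ∀ u, u1 G n (τ u) (τ (τ u)) = - u1 G n (τ u) u := by
    intro x x' h1 h2
    obtain ⟨τ, ⟨hτ, hx⟩, -⟩ := hF.unique (φ x) (φ x') (hφm h1) (by
      rw [← hφp]; exact hφm h2)
    exact ⟨_, hL τ hτ, by rw [hx, hψφ], hI τ hτ⟩
  obtain ⟨hsym, hX⟩ := core H hcov
  obtain ⟨u, v, w, hdet, hform, hrot⟩ := Pool.Agent.TH645.PG.Rigid.rigid H hsym hX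
  have hc : (0 : ℝ) < 2 * π / T := by positivity
  have hE : ∀ s, Real.cos s • u + Real.sin s • v + w =
      lam (T / (2 * π) * s) • g (φ (T / (2 * π) * s)) := by
    intro s
    rw [← hG, hform]
    have e : 2 * π / T * (T / (2 * π) * s) = s := by field_simp
    rw [e]
  refine ⟨fun s => φ (T / (2 * π) * s), fun x => 2 * π / T * ψ x, fun s => lam (T / (2 * π) * s),
    u, v, w, hdet, fun x => ?_, fun s => ⟨hlam _, hE s⟩, fun τ hτ => ?_, fun s => ?_⟩
  · have e : T / (2 * π) * (2 * π / T * ψ x) = ψ x := by field_simp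
    simp only [e, hφψ]
  · obtain ⟨d, hd0, hd1, hd⟩ := hrot _ (hL τ hτ) (hI τ hτ)
    refine ⟨2 * π / T * d, by positivity, ?_, fun s => ?_⟩
    · calc 2 * π / T * d < 2 * π / T * T := by gcongr
        _ = 2 * π := by field_simp
    · have h1 := hd (T / (2 * π) * s)
      have h2 := congrArg φ h1
      rw [hφψ] at h2
      rw [h2]
      congr 1
      field_simp
  · -- tangency
    set E := Real.cos s • u + Real.sin s • v + w with hEd
    set E' := (-Real.sin s) • u + Real.cos s • v with hE'd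
    set Δ := dot (crs u v) w with hΔ
    have hval : ∀ x', dot (crs E E') (g x') =
        Δ * ((1 - Real.cos (s - 2 * π / T * ψ x')) / lam (ψ x')) := by
      intro x'
      have h1 := det_E u v w s (2 * π / T * ψ x')
      have e : T / (2 * π) * (2 * π / T * ψ x') = ψ x' := by field_simp
      rw [hE (2 * π / T * ψ x'), e, hφψ, dot_smul_right] at h1
      have hl := (hlam (ψ x')).ne'
      rw [← hEd, ← hE'd] at h1
      rw [← mul_div_assoc, hΔ, ← h1]
      field_simp
    have hz : dot (crs E E') (g (φ (T / (2 * π) * s))) = 0 := by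
      rw [hval, hψφ]
      have e : 2 * π / T * (T / (2 * π) * s) = s := by field_simp
      rw [e, sub_self, Real.cos_zero]; simp
    have hd : dot (crs E E') (deriv g (φ (T / (2 * π) * s))) = 0 := by
      have h1 : HasDerivAt (fun x' => Δ⁻¹ * dot (crs E E') (g x'))
          (Δ⁻¹ * dot (crs E E') (deriv g (φ (T / (2 * π) * s)))) (φ (T / (2 * π) * s)) :=
        (dot_hasDeriv_right (hg.d0 _) _).const_mul _
      have h2 : IsLocalMin (fun x' => Δ⁻¹ * dot (crs E E') (g x')) (φ (T / (2 * π) * s)) := by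
        refine Filter.Eventually.of_forall fun x' => ?_
        simp only
        rw [hz, mul_zero, hval, ← mul_assoc, inv_mul_cancel₀ hdet, one_mul]
        have := Real.cos_le_one (s - 2 * π / T * ψ x')
        have := hlam (ψ x')
        exact div_nonneg (by linarith) this.le
      have h3 := h2.hasDerivAt_eq_zero h1
      rcases mul_eq_zero.mp h3 with h | h
      · exact absurd h (inv_ne_zero hdet)
      · exact h
    obtain ⟨r, hr⟩ := par_of_orth (z := crs E E') (crs_ne hg (φ (T / (2 * π) * s)))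
      (by rw [dot_comm]; exact hz) (by rw [dot_comm]; exact hd)
    refine ⟨r, fun h0 => ?_, hr⟩
    rw [h0, zero_smul] at hr
    have h1 := det_E u v w s (s + π)
    rw [← hEd, ← hE'd, hr] at h1
    have e : s - (s + π) = -π := by ring
    rw [e, Real.cos_neg, Real.cos_pi] at h1
    have h2 : dot (0 : Fin 3 → ℝ) (Real.cos (s + π) • u + Real.sin (s + π) • v + w) = 0 := by
      simp [dot]
    rw [h2] at h1
    apply hdet
    linarith

end Pool.Agent.TH229.PG
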