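import Pool.Agent.TH229.PG.Defs

/-!
Smooth closed convex curves in the dual plane (fields of tangent lines) in an arbitrary
parameter, and foliations of the exterior.
-/

set_option autoImplicit false

namespace Pool.Agent.TH229.PG

open Real Filter Topology MeasureTheory Set
open scoped ContDiff

/-- `det (g x) (g' x) (g x')` -/
noncomputable def D0 (g : ℝ → Fin 3 → ℝ) (x x' : ℝ) : ℝ := dot (crs (g x) (deriv g x)) (g x')

/-- `∂₁ log D0` -/
noncomputable def uu (g : ℝ → Fin 3 → ℝ) (x x' : ℝ) : ℝ :=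
  dot (crs (g x) (deriv (deriv g) x)) (g x') / D0 g x x'

/-- lift of a smooth closed strictly convex curve -/
structure Dual (g : ℝ → Fin 3 → ℝ) : Prop where
  smooth : ContDiff ℝ ∞ g
  per : ∀ x, g (x + 2 * π) = g x
  curv : ∀ x, 0 < dot (crs (g x) (deriv g x)) (deriv (deriv g) x)
  pos : ∀ x x', x < x' → x' < x + 2 * π → 0 < D0 g x x'

/-- the leaves of a foliation of the whole exterior -/
structure Fol (𝓕 : Set (ℝ → ℝ)) : Prop where
  leaf : ∀ τ ∈ 𝓕, Leaf (2 * π) τ
  unique : ∀ x x', x < x' → x' < x + 2 * π → ∃! τ, τ ∈ 𝓕 ∧ τ x = x'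

end Pool.Agent.TH229.PG
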