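import Mathlib

/-!
Abstract setting of the averaged two-orbit inequality for an exterior of a closed curve which is
completely foliated by invariant leaves.

`Y x x'` is the affine coordinate of the point `x'` of the projective line (circle) attached to
`x`, with the point `x' = x` at infinity; `a = -∂Y/∂x'`, `P = ∂Y/∂x`.
-/

set_option autoImplicit false

namespace Pool.Agent.TH229.PG

open Real Filter Topology MeasureTheory Set

/-- lift of a circle map without fixed points, displacement less than a full turn -/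
structure Leaf (T : ℝ) (τ : ℝ → ℝ) : Prop where
  cont : Continuous τ
  mono : StrictMono τ
  per : ∀ x, τ (x + T) = τ x + T
  above : ∀ x, x < τ x
  below : ∀ x, τ x < x + T

/-- the data of the averaged inequality -/
structure HopfData (T : ℝ) (Y a P : ℝ → ℝ → ℝ) : Prop where
  Tpos : 0 < T
  perY1 : ∀ x x', Y (x + T) x' = Y x x'
  perY2 : ∀ x x', Y x (x' + T) = Y x x'
  pera1 : ∀ x x', a (x + T) x' = a x x'
  pera2 : ∀ x x', a x (x' + T) = a x x'
  perP1 : ∀ x x', P (x + T) x' = P x x'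
  perP2 : ∀ x x', P x (x' + T) = P x x'
  dY2 : ∀ x x', 0 < |x' - x| → |x' - x| < T → HasDerivAt (fun z => Y x z) (-a x x') x'
  dY1 : ∀ x x', 0 < |x' - x| → |x' - x| < T → HasDerivAt (fun z => Y z x') (P x x') x
  contP : ∀ x x', 0 < |x' - x| → |x' - x| < T →
    ContinuousAt (fun p : ℝ × ℝ => P p.1 p.2) (x, x')
  apos : ∀ x x', 0 < |x' - x| → |x' - x| < T → 0 < a x x'
  measY : Measurable (fun p : ℝ × ℝ => Y p.1 p.2)
  measa : Measurable (fun p : ℝ × ℝ => a p.1 p.2)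
  measP : Measurable (fun p : ℝ × ℝ => P p.1 p.2)
  limr : ∀ x, Tendsto (fun z => Y x z) (𝓝[>] x) atTop
  liml : ∀ x, Tendsto (fun z => Y x z) (𝓝[<] (x + T)) atBot
  /-- every pair lies on an invariant leaf -/
  cov : ∀ x x', x < x' → x' < x + T → ∃ τ, Leaf T τ ∧ τ x = x' ∧
    ∀ u, Y (τ u) (τ (τ u)) = - Y (τ u) u

/-- distance of `δ ∈ (0, T)` to the end points -/
noncomputable def mm (T δ : ℝ) : ℝ := min δ (T - δ)

/-- the estimates at the end points of the strip -/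
structure HopfBounds (T C c : ℝ) (Y a P : ℝ → ℝ → ℝ) : Prop where
  cpos : 0 < c
  Cpos : 0 < C
  bg : ∀ x δ, 0 < δ → δ < T → |Y (x + δ) x + Y x (x + δ)| ≤ C * mm T δ ^ 2
  ba : ∀ x δ, 0 < δ → δ < T → a x (x + δ) ≤ C / mm T δ ^ 2
  bb : ∀ x δ, 0 < δ → δ < T → a (x + δ) x ≤ C / mm T δ ^ 2
  bq : ∀ x δ, 0 < δ → δ < T → a (x + δ) x ≤ C * a x (x + δ)
  bP : ∀ x δ, 0 < δ → δ < T → |P x (x + δ)| ≤ C / mm T δ ^ 2
  bR : ∀ x δ, 0 < δ → δ < T → |P (x + δ) x| ≤ C / mm T δ ^ 2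
  bY : ∀ x δ, 0 < δ → δ < T → c / mm T δ - C ≤ |Y x (x + δ)|
  bg2 : ∀ x δ, 0 < δ → δ < T →
    |a (x + δ) x * (a x (x + δ) - P (x + δ) x)| ≤ C / mm T δ
  bD : ∀ x δ, 0 < δ → δ < T →
    |2 * a x (x + δ) * a (x + δ) x - a x (x + δ) * P x (x + δ)
      - a (x + δ) x * P (x + δ) x| ≤ C

end Pool.Agent.TH229.PG
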