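import Pool.Agent.TH229.PG.GeoDefs

/-!
The forward and the backward displacement of a circle homeomorphism have the same distribution.
-/

set_option autoImplicit false

namespace Pool.Agent.TH229.PG

open Real Filter Topology MeasureTheory Set
open scoped ContDiff

/-- displacement functions have the same distribution -/
theorem swap_map {T : ℝ} (hT : 0 < T) {τ σ : ℝ → ℝ} (h : Leaf T τ) (hσ : ∀ x, τ (σ x) = x)
    (hσc : Continuous σ) :
    Measure.map (fun x => τ x - x) (volume.restrict (Ioc 0 T)) =
      Measure.map (fun x => x - σ x) (volume.restrict (Ioc 0 T)) := by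
  have hm1 : Measurable (fun x => τ x - x) := (h.cont.sub continuous_id).measurable
  have hm2 : Measurable (fun x => x - σ x) := (continuous_id.sub hσc).measurable
  haveI : IsFiniteMeasure (Measure.map (fun x => τ x - x) (volume.restrict (Ioc (0 : ℝ) T))) :=
    Measure.isFiniteMeasure_map _ _
  refine Measure.ext_of_Iic _ _ fun d => ?_
  rw [Measure.map_apply hm1 measurableSet_Iic, Measure.map_apply hm2 measurableSet_Iic]
  set S := (fun x => τ x - x) ⁻¹' Iic d with hS
  have hSm : MeasurableSet S := hm1 measurableSet_Iic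
  have hS2 : (fun x => x - σ x) ⁻¹' Iic d = (fun y => y - d) ⁻¹' S := by
    ext y
    simp only [hS, mem_preimage, mem_Iic]
    constructor
    · intro h1
      have h2 : y - d ≤ σ y := by linarith
      have h3 := h.mono.monotone h2
      rw [hσ] at h3
      linarith
    · intro h1
      have h2 : τ (y - d) ≤ τ (σ y) := by rw [hσ]; linarith
      have h3 := h.mono.le_iff_le.mp h2
      linarith
  rw [hS2]
  have hper : Function.Periodic (S.indicator (fun _ => (1 : ℝ))) T := by
    intro x
    have e : x + T ∈ S ↔ x ∈ S := by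
      simp only [hS, mem_preimage, mem_Iic, h.per]
      constructor <;> intro h1 <;> linarith
    by_cases hx : x ∈ S
    · rw [indicator_of_mem hx, indicator_of_mem (e.mpr hx)]
    · rw [indicator_of_notMem hx, indicator_of_notMem (fun h1 => hx (e.mp h1))]
  have hSd : MeasurableSet ((fun y => y - d) ⁻¹' S) := (measurable_id.sub_const d) hSm
  have k1 : (∫ x in (0 : ℝ)..T, S.indicator (fun _ => (1 : ℝ)) x) =
      ∫ x in (0 : ℝ)..T, ((fun y => y - d) ⁻¹' S).indicator (fun _ => (1 : ℝ)) x := by
    have e1 : (fun x => ((fun y => y - d) ⁻¹' S).indicator (fun _ => (1 : ℝ)) x) =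
        fun x => S.indicator (fun _ => (1 : ℝ)) (x - d) := rfl
    rw [e1, intervalIntegral.integral_comp_sub_right (fun x => S.indicator (fun _ => (1 : ℝ)) x) d]
    have := hper.intervalIntegral_add_eq (0 - d) 0
    rw [show T - d = 0 - d + T by ring, this, zero_add]
  have k2 : ∀ A : Set ℝ, MeasurableSet A →
      (∫ x in (0 : ℝ)..T, A.indicator (fun _ => (1 : ℝ)) x) =
        (volume.restrict (Ioc (0 : ℝ) T)).real A := by
    intro A hA
    rw [intervalIntegral.integral_of_le hT.le, integral_indicator hA]
    simp [Measure.real]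
  rw [k2 S hSm, k2 _ hSd] at k1
  exact (measureReal_eq_measureReal_iff).mp k1

theorem swap {T : ℝ} (hT : 0 < T) {τ σ : ℝ → ℝ} (h : Leaf T τ) (hσ : ∀ x, τ (σ x) = x)
    (hσc : Continuous σ) :
    (∫ x in (0 : ℝ)..T, 1 / (τ x - x)) = ∫ x in (0 : ℝ)..T, 1 / (x - σ x) := by
  have hm1 : Measurable (fun x => τ x - x) := (h.cont.sub continuous_id).measurable
  have hm2 : Measurable (fun x => x - σ x) := (continuous_id.sub hσc).measurable
  have key := swap_map hT h hσ hσc
  rw [intervalIntegral.integral_of_le hT.le, intervalIntegral.integral_of_le hT.le]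
  have hf : Measurable (fun y : ℝ => 1 / y) := by
    simpa using measurable_inv
  have e1 := integral_map (μ := volume.restrict (Ioc (0 : ℝ) T)) hm1.aemeasurable
    (f := fun y : ℝ => 1 / y) hf.aestronglyMeasurable
  have e2 := integral_map (μ := volume.restrict (Ioc (0 : ℝ) T)) hm2.aemeasurable
    (f := fun y : ℝ => 1 / y) hf.aestronglyMeasurable
  rw [← e1, ← e2, key]

end Pool.Agent.TH229.PG
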